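import Mathlib
import Pool.Agent.R620.KV.Trips

set_option autoImplicit false

/-!
Definitions for project LA (MP_0036f5_lc, owner helper19): deterministic 1-limited automata with
few inner reversals need double exponential size.
-/

namespace Pool.Agent.NH19.LA

open Pool.Agent.H630R2.LA Pool.Agent.R620.KV

/-- The number of the inner turns of the first `T` moves of `f` on an input of length `n`: the head
arrives at one of the cells `1, ..., n` and goes back to the cell from which it came. -/
noncomputable def turns {A : Type} {M : LimAut A} (n T : ℕ) (f : ℕ → Cfg M) : ℕ :=
  {t | t + 2 ≤ T ∧ (f (t + 2)).pos = (f t).pos ∧ 1 ≤ (f (t + 1)).pos ∧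
    (f (t + 1)).pos ≤ n}.ncard

/-- The number of inner turns is sublinear: for every `c`, all accepted words `w` which are long
enough have an accepting computation with at most `|w| / c` inner turns. -/
def FewTurns (strict : Prop) {A : Type} (M : LimAut A) : Prop :=
  ∀ c : ℕ, ∃ N : ℕ, ∀ w ∈ M.language strict, N ≤ w.length →
    ∃ (T : ℕ) (f : ℕ → Cfg M), IsAcc strict M w T f ∧ c * turns w.length T f ≤ w.length

/-- No computation has an inner turn. -/
def Sweeping (strict : Prop) {A : Type} (M : LimAut A) : Prop :=
  ∀ (w : List A) (T : ℕ) (f : ℕ → Cfg M), IsComp strict M w T f → turns w.length T f = 0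

section zipper

variable {A : Type}

/-- A cell of the tape: its content, and whether it has been visited. -/
abbrev Cell (M : LimAut A) : Type := Sym M.W × Bool

/-- In the state `q` on the cell `c` the machine may enter the state `q'`, change the cell to `c'`
and move in the direction `d` (`true` is right). -/
def cstep (strict : Prop) (M : LimAut A) (q : M.Q) (c : Cell M) (q' : M.Q) (c' : Cell M)
    (d : Bool) : Prop :=
  ∃ b, (q', b, d) ∈ M.δ q c.1 ∧ (strict → c.2 = true → c.1.rewrite b = c.1) ∧
    c' = (if c.2 = true then c.1 else c.1.rewrite b, true)

/-- `ZAcc strict M L q R`: in the state `q`, with the head on the first cell of `R`, the cells to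
the right of it being the rest of `R` and the cells to the left of it being `L` (listed from the
right to the left), some computation of `M` moves past the last cell of `R` and ends there in a
final state. -/
inductive ZAcc (strict : Prop) (M : LimAut A) : List (Cell M) → M.Q → List (Cell M) → Prop
  | fin (L : List (Cell M)) (q : M.Q) (h : q ∈ M.F) : ZAcc strict M L q []
  | rt (L : List (Cell M)) (q : M.Q) (c : Cell M) (R : List (Cell M)) (q' : M.Q) (c' : Cell M)
      (h : cstep strict M q c q' c' true) (h' : ZAcc strict M (c' :: L) q' R) :
      ZAcc strict M L q (c :: R)
  | lt (l : Cell M) (L : List (Cell M)) (q : M.Q) (c : Cell M) (R : List (Cell M)) (q' : M.Q)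
      (c' : Cell M) (h : cstep strict M q c q' c' false)
      (h' : ZAcc strict M L q' (l :: c' :: R)) : ZAcc strict M (l :: L) q (c :: R)

/-- `FAcc strict M S n d L q R`: as `ZAcc`, with exactly `n` moves and such that the head never
turns in a cell whose number is in `S`; `d` is the direction of the last move before the
configuration. The number of the scanned cell is the length of `L`. -/
def FAcc (strict : Prop) (M : LimAut A) (S : Set ℕ) :
    ℕ → Bool → List (Cell M) → M.Q → List (Cell M) → Prop
  | 0, _, _, q, R => R = [] ∧ q ∈ M.F
  | n + 1, d, L, q, R => ∃ c R', R = c :: R' ∧ ∃ q' c' d', cstep strict M q c q' c' d' ∧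
      (L.length ∈ S → d' = d) ∧
      ((d' = true ∧ FAcc strict M S n true (c' :: L) q' R') ∨
        (d' = false ∧ ∃ l L', L = l :: L' ∧ FAcc strict M S n false L' q' (l :: c' :: R')))

/-- The unvisited cell with the letter `a`. -/
def fr (M : LimAut A) (a : A) : Cell M := (.sym (M.inp a), false)

/-- The initial tape without its cell `0`. -/
def iniR (M : LimAut A) (w : List A) : List (Cell M) := w.map (fr M) ++ [(.rm, false)]

/-- The cell `0` of the initial tape. -/
def iniL (M : LimAut A) : List (Cell M) := [(.lm, false)]

end zipper

section passes

variable {A : Type}

open Classical in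
/-- The result of the move in the state `q` on the cell `c`, if there is one and if it goes in the
direction `d`. -/
noncomputable def nxt (strict : Prop) (M : LimAut A) (d : Bool) (q : M.Q) (c : Cell M) :
    Option (M.Q × Cell M) :=
  if h : ∃ x : M.Q × Cell M, cstep strict M q c x.1 x.2 d then some h.choose else none

/-- Straight passage from the left to the right through the cells `cs`: the state in which the head
leaves them and their new contents (`none` if the head turns or if the machine stops). -/
noncomputable def fp (strict : Prop) (M : LimAut A) :
    List (Cell M) → M.Q → Option (M.Q × List (Cell M))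
  | [], q => some (q, [])
  | c :: cs, q => (nxt strict M true q c).bind fun x =>
      (fp strict M cs x.1).map fun y => (y.1, x.2 :: y.2)

/-- Straight passage from the right to the left through the visited cells `cs` (listed from the
left to the right). -/
noncomputable def bp (strict : Prop) (M : LimAut A) : List (Cell M) → M.Q → Option M.Q
  | [], q => some q
  | c :: cs, q => (bp strict M cs q).bind fun q' => (nxt strict M false q' c).map Prod.fst

/-- The first passage through the word `x`, entered in the state `p`; `none` is an absorbing
state. -/
noncomputable def pd (strict : Prop) (M : LimAut A) (x : List A) (p : Option M.Q) : Option M.Q :=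
  p.bind fun p => (fp strict M (x.map (fr M)) p).map Prod.fst

/-- A later passage from the left to the right, entered in the state `q`, through the contents
which the first passage, entered in the state `p`, has left in the cells of the word `x`. -/
noncomputable def pf (strict : Prop) (M : LimAut A) (x : List A) (p q : Option M.Q) :
    Option M.Q :=
  p.bind fun p => (fp strict M (x.map (fr M)) p).bind fun y =>
    q.bind fun q => (fp strict M y.2 q).map Prod.fst

/-- The same from the right to the left. -/
noncomputable def pg (strict : Prop) (M : LimAut A) (x : List A) (p q : Option M.Q) :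
    Option M.Q :=
  p.bind fun p => (fp strict M (x.map (fr M)) p).bind fun y =>
    q.bind fun q => bp strict M y.2 q

end passes

section algebra

/-- Behaviours: `d x` is the map of the first passage through `x`, `f x p` and `g x p` are the maps
of the later passages to the right and to the left. -/
structure Beh (α K : Type) where
  d : List α → K → K
  f : List α → K → K → K
  g : List α → K → K → K
  d_app : ∀ x y p, d (x ++ y) p = d y (d x p)
  f_app : ∀ x y p q, f (x ++ y) p q = f y (d x p) (f x p q)
  g_app : ∀ x y p q, g (x ++ y) p q = g x p (g y (d x p) q)

/-- The `m`-th power of a word. -/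
def pw {α : Type} (m : ℕ) (x : List α) : List α := (List.replicate m x).flatten

variable {V : Type}

/-- The composition of the relations in the list. -/
def Rl : List (Finset (V × V)) → V → V → Prop
  | [], u, v => u = v
  | X :: l, u, v => ∃ m, (u, m) ∈ X ∧ Rl l m v

/-- The composition is not empty. -/
def Live (l : List (Finset (V × V))) : Prop := ∃ u v, Rl l u v

/-- The composition is the full relation. -/
def Full (l : List (Finset (V × V))) : Prop := ∀ u v, Rl l u v

end algebra

section machine

/-- The input alphabet: `hash` begins an edge, `dollar` ends a relation, and `ed a b t` says that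
the source and the target of an edge have the bits `a` and `b` in the place `t`. -/
inductive Ltr (n : ℕ) : Type
  | hash : Ltr n
  | dollar : Ltr n
  | ed (a b : Bool) (t : Fin n) : Ltr n
  deriving DecidableEq, Fintype

/-- The work alphabet: the letters, a blank, and marked letters. -/
inductive Wk (n : ℕ) : Type
  | inp (a : Ltr n) : Wk n
  | blank : Wk n
  | mk (a b : Bool) (t : Fin n) : Wk n
  deriving DecidableEq, Fintype

/-- The states: `s0`: no edge of the current relation has been chosen; `s1`: the current edge has
been chosen; `s2`: an edge of the current relation has been chosen and copied; `rew j`: the head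
moves to the left end-marker before the pass `j`; `pas j r`: pass `j`, the last chosen edge had the
bit `r` in the place `j` of its target; `acc`: accept. -/
inductive St (n : ℕ) : Type
  | s0 : St n
  | s1 : St n
  | s2 : St n
  | rew (j : Fin n) : St n
  | pas (j : Fin n) (r : Bool) : St n
  | acc : St n
  deriving DecidableEq, Fintype

open Classical in
/-- The moves of the machine. -/
def dl (n : ℕ) : St n → Sym (Wk n) → Set (St n × Wk n × Bool)
  | .s0, .sym (.inp .hash) => {(.s0, .blank, true), (.s1, .blank, true)}
  | .s0, .sym (.inp (.ed _ _ _)) => {(.s0, .blank, true)}
  | .s1, .sym (.inp (.ed a b t)) => {(.s1, .mk a b t, true)}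
  | .s1, .sym (.inp .hash) => {(.s2, .blank, true)}
  | .s1, .sym (.inp .dollar) => {(.s0, .blank, true)}
  | .s2, .sym (.inp (.ed _ _ _)) => {(.s2, .blank, true)}
  | .s2, .sym (.inp .hash) => {(.s2, .blank, true)}
  | .s2, .sym (.inp .dollar) => {(.s0, .blank, true)}
  | .s0, .rm => {x | ∃ j : Fin n, j.val = 0 ∧ x = (.rew j, .blank, false)}
  | .rew j, .sym b => {(.rew j, b, false)}
  | .rew j, .lm => {(.pas j true, .blank, true), (.pas j false, .blank, true)}
  | .pas j r, .sym (.mk a b t) =>
      {x | (t ≠ j ∧ x = (.pas j r, .mk a b t, true)) ∨
        (t = j ∧ r = a ∧ x = (.pas j b, .mk a b t, true))}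
  | .pas j r, .sym .blank => {(.pas j r, .blank, true)}
  | .pas j _, .rm => {x | (∃ i : Fin n, i.val = j.val + 1 ∧ x = (.rew i, .blank, false)) ∨
      (j.val + 1 = n ∧ x = (.acc, .blank, true))}
  | _, _ => ∅

/-- The machine. -/
def Mn (n : ℕ) : LimAut (Ltr n) where
  Q := St n
  W := Wk n
  finQ := inferInstance
  finW := inferInstance
  inp := .inp
  inp_inj := fun _ _ h => by injection h
  δ := dl n
  q0 := .s0
  F := {.acc}

/-- The vertices are the binary words of length `n`. -/
abbrev Vx (n : ℕ) : Type := Fin n → Bool

/-- The code of an edge. -/
def codeE (n : ℕ) (e : Vx n × Vx n) : List (Ltr n) :=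
  .hash :: (List.finRange n).map fun t => .ed (e.1 t) (e.2 t) t

/-- The code of a relation. -/
noncomputable def codeX (n : ℕ) (X : Finset (Vx n × Vx n)) : List (Ltr n) :=
  (X.toList.map (codeE n)).flatten ++ [.dollar]

/-- The code of a list of relations. -/
noncomputable def code (n : ℕ) (l : List (Finset (Vx n × Vx n))) : List (Ltr n) :=
  (l.map (codeX n)).flatten

end machine

end Pool.Agent.NH19.LA
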