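import Mathlib
import Pool.Agent.NH19.LA.Def

set_option autoImplicit false

/-!
Project LA (MP_0036f5_lc, weight 10, owner helper19).  THEOREM: for every `n ≥ 1` there is a sweeping
1-limited automaton with `3 n + 4` states (size `O(n ^ 2)`) such that every equivalent deterministic
1-limited automaton with a sublinear number of inner head reversals has at least about
`2 ^ (2 ^ n / 4)` states.  (It is known, starting files, that with arbitrarily many reversals
`2 ^ ((size + 2) ^ 4)` is enough.)

Each statement below is independent of the others; prove `theorem NAME : St_NAME` in your own file.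
-/

namespace Pool.Agent.NH19.LA

open Pool.Agent.H630R2.LA Pool.Agent.R620.KV

/-- LA-1 (ZIP).  The language in terms of the zipper configurations.
Proof.  For a configuration `c : Cfg M` with `c.pos ≤ n + 2` put `cell i = (c.tape i, decide (i ∈ c.seen))`,
`L c = ` the cells `c.pos - 1, ..., 0`, `R c = ` the cells `c.pos, ..., n + 1`.  If `c.pos ≤ n + 1` then
`Step strict n c c'` holds iff there are `q' c₁ d` with `cstep strict M c.state (cell c.pos) q' c₁ d` and
`(L c', c'.state, R c')` is the zipper obtained by the move (`(c₁ :: L, q', R')` or `(L', q', l :: c₁ :: R')`,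
where a move to the left needs `c.pos ≥ 1`); then use induction on `ReflTransGen` (`head_induction_on`)
and on `ZAcc`.  A configuration with `c.pos = n + 2` has no next one, and `R c = []` iff `c.pos = n + 2`
(positions never exceed `n + 2`). -/
def St_zip : Prop :=
  ∀ (strict : Prop) (A : Type) (M : LimAut A) (w : List A),
    w ∈ M.language strict ↔ ZAcc strict M (iniL M) M.q0 (iniR M w)

/-- LA-1b (ZIP2).  The same zippers; show by induction on `T - t` that
`FAcc strict M S (T - t) (dir t) (L (f t)) (f t).state (R (f t))`, where `dir 0 = true` and
`dir (t + 1) = true` iff the move from `f t` to `f (t + 1)` goes to the right. -/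
def St_zipF : Prop :=
  ∀ (strict : Prop) (A : Type) (M : LimAut A) (w : List A) (T : ℕ) (f : ℕ → Cfg M) (S : Set ℕ),
    IsAcc strict M w T f → 1 ∉ S →
    (∀ t, t + 2 ≤ T → (f (t + 2)).pos = (f t).pos → (f (t + 1)).pos ∉ S) →
    FAcc strict M S T true (iniL M) M.q0 (iniR M w)

/-- LA-2a (PASS).  The composition laws of the straight passages (all are inductions on the list of
cells; `fp (c₁ ++ c₂) q` and `bp (c₁ ++ c₂) q` first). -/
def St_pass : Prop :=
  ∀ (strict : Prop) (A : Type) (M : LimAut A) (x y : List A) (p q : Option M.Q),
    pd strict M (x ++ y) p = pd strict M y (pd strict M x p) ∧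
    pf strict M (x ++ y) p q = pf strict M y (pd strict M x p) (pf strict M x p q) ∧
    pg strict M (x ++ y) p q = pg strict M x p (pg strict M y (pd strict M x p) q)

/-- LA-2b (SIM).  If the words `x₁` and `x₂` have the same straight passages, then an accepting
computation on `u x₁ v` which never turns inside the cells of `x₁` gives an accepting computation
on `u x₂ v`.

Proof.  Let `cont x p` be the contents left by the first passage (`fp (x.map fr) p = some (_, cont x p)`).
Since `M` is deterministic, `cstep q c q' c' d` holds iff `nxt d q c = some (q', c')`, and at most one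
`d` is possible; for visited cells (`c.2 = true`) `c' = c`; always `c'.2 = true`.
Define `mid x : Option M.Q → List (Cell M)`, `mid x none = x.map fr`, `mid x (some p) = cont x p`
(where the passage is defined).  Claim, by strong induction on the number `k` of moves:
(a) if `L₁.length = a`... i.e. for a zipper with the head to the left of `x₁`,
`FAcc S k d L q (R₁ ++ mid x₁ s ++ R₂)` with `R₁ ≠ []` and `L.length + R₁.length = u.length + 1`
implies `ZAcc L q (R₁ ++ mid x₂ s ++ R₂)`;
(b) for a zipper with the head to the right of `x₁`,
`FAcc S k d (L₂ ++ (mid x₁ (some p)).reverse ++ L₁) q R` with `L₁.length = u.length + 1` implies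
`ZAcc (L₂ ++ (mid x₂ (some p)).reverse ++ L₁) q R`;
(c) `FAcc S k true L q (mid x₁ s ++ R₂)` with `L.length = u.length + 1` (the head is just entering from
the left) implies `ZAcc L q (mid x₂ s ++ R₂)`;
(d) `FAcc S k false ((mid x₁ (some p)).reverse.tail ...)`: the head is just entering the last cell of
`x₁` from the right.
In (c) and (d) the absence of turns forces the head to go straight through the cells of `x₁` (an
induction on the cells), so that the passage `pd` / `pf` / `pg` of `x₁` is defined; by hypothesis the
one of `x₂` is defined with the same result, and it is a part of a computation for `ZAcc`.  The number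
of the remaining moves has decreased since `x₁ ≠ []`. -/
def St_sim : Prop :=
  ∀ (strict : Prop) (A : Type) (M : LimAut A), M.Deterministic →
    ∀ (u x₁ x₂ v : List A) (T : ℕ), x₁ ≠ [] →
    (∀ p, pd strict M x₁ p = pd strict M x₂ p) →
    (∀ p q, pf strict M x₁ p q = pf strict M x₂ p q) →
    (∀ p q, pg strict M x₁ p q = pg strict M x₂ p q) →
    FAcc strict M (Set.Ico (u.length + 1) (u.length + 1 + x₁.length)) T true (iniL M) M.q0
      (iniR M (u ++ x₁ ++ v)) →
    ZAcc strict M (iniL M) M.q0 (iniR M (u ++ x₂ ++ v))

/-- LA-3 (ALG).  Generic words: if the number of states is small, then a full `y` and a dead `x`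
exist such that `y` and `y (x y) ^ m` have the same behaviour. (helper19 does this one.) -/
def St_alg : Prop :=
  ∀ (V K : Type) [Fintype V] [Fintype K] (B : Beh (Finset (V × V)) K),
    2 + Fintype.card K + Fintype.card K ^ 2 + Fintype.card K ^ 3 + Fintype.card K ^ 4 <
      2 ^ Fintype.card V →
    ∃ (x y : List (Finset (V × V))) (m : ℕ), ¬ Live x ∧ Full y ∧ 1 ≤ m ∧
      (∀ p, B.d y p = B.d (y ++ pw m (x ++ y)) p) ∧
      (∀ p q, B.f y p q = B.f (y ++ pw m (x ++ y)) p q) ∧
      (∀ p q, B.g y p q = B.g (y ++ pw m (x ++ y)) p q)

/-- LA-4 (MACH).  The machine accepts exactly the codes of the lists of relations whose composition is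
not empty.
Proof.  First an unfolding lemma: `ZAcc L q (c :: R)` iff (there are `q' c'` with `cstep q c q' c' true`
and `ZAcc (c' :: L) q' R`) or (there are `q' c' l L'` with `L = l :: L'`, `cstep q c q' c' false` and
`ZAcc L' q' (l :: c' :: R)`).  For `Mn n` each `cstep` is explicit, so everything is a chain of `iff`s:
* first pass: `ZAcc L s0 ((codeX X).map fr ++ R)` iff there are a list `cs` of frozen symbols, an edge
  `e ∈ X` with `cs = blanks ++ (mk (e.1 t) (e.2 t) t)_t ++ blanks` and `ZAcc ((cs).reverse ++ L) s0 R`
  (induction on `X.toList`; inside an edge induction on a list of places; separate lemmas for `s0`,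
  `s1`, `s2` on the code of an edge); so for `code l`;
* `ZAcc L' (rew j) ...` goes back to the cell `0`;
* pass `j` over the contents `cs` of the edges `e₁, ..., e_k`, started with `r`, arrives at the right
  end-marker iff `r = e₁.1 j`, `e₁.2 j = e₂.1 j`, ...; it ends in `pas j r'` for some `r'`;
* at the right end-marker: next `rew (j + 1)`, or `acc` (then accepted) if `j + 1 = n`.
So the code is accepted iff there are `e_i ∈ X_i` such that for all `j : Fin n` the bits `j` of
`e_i.2` and `e_{i+1}.1` agree, that is `e_i.2 = e_{i+1}.1`, which is `Live l`. -/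
def St_mach : Prop :=
  ∀ (strict : Prop) (n : ℕ), 1 ≤ n → ∀ l : List (Finset (Vx n × Vx n)),
    ZAcc strict (Mn n) (iniL _) (Mn n).q0 (iniR _ (code n l)) ↔ Live l

/-- LA-5a (SIZE).  `St n` is equivalent to a sum type etc.; `numTrans ≤ 2 * |Q| * (|W| + 2)` since
`dl n p σ` has at most two elements. (`240 n² + 500 n + 250` or so is enough room.) -/
def St_size : Prop :=
  ∀ n : ℕ, Nat.card (Mn n).Q = 3 * n + 4 ∧ Nat.card (Mn n).W = 8 * n + 3 ∧
    Nat.card (Ltr n) = 4 * n + 2 ∧ (Mn n).size ≤ 300 * (n + 1) ^ 2

/-- LA-5b (SWEEP).  In every computation `f` on `w`: the tape contents of the cells `1, ..., |w|` are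
`sym _`, cell `0` holds `lm` (invariants of `Step`); a move which enters `rew j` goes to the left, a move
which enters any other state goes to the right; from `rew j` on `sym _` the move goes to the left,
from all other states on `sym _` it goes to the right.  So there is no turn in the cells `1, ..., |w|`. -/
def St_sweep : Prop := ∀ (strict : Prop) (n : ℕ), Sweeping strict (Mn n)

end Pool.Agent.NH19.LA
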