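import Mathlib
import Pool.Agent.NH19.LA.Stm

set_option autoImplicit false

/-!
Generic words (LA-3).
-/

namespace Pool.Agent.NH19.LA

section rel

variable {V : Type}

theorem rl_app (x y : List (Finset (V × V))) (u v : V) :
    Rl (x ++ y) u v ↔ ∃ m, Rl x u m ∧ Rl y m v := by
  induction x generalizing u with
  | nil => simp [Rl]
  | cons X x ih =>
    simp only [List.cons_append, Rl, ih]
    constructor
    · rintro ⟨m, h1, k, h2, h3⟩
      exact ⟨k, ⟨m, h1, h2⟩, h3⟩
    · rintro ⟨k, ⟨m, h1, h2⟩, h3⟩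
      exact ⟨m, h1, k, h2, h3⟩

theorem full_mid {w x : List (Finset (V × V))} (hw : Full w) (hx : Live x) :
    Full (w ++ (x ++ w)) := by
  obtain ⟨a, b, h⟩ := hx
  intro u v
  rw [rl_app]
  refine ⟨a, hw _ _, ?_⟩
  rw [rl_app]
  exact ⟨b, h, hw _ _⟩

theorem live_mid {w x y : List (Finset (V × V))} (hw : Full w) (hx : Live x) (hy : Live y) :
    Live (x ++ w ++ y) := by
  obtain ⟨a, b, h⟩ := hx
  obtain ⟨c, d, h'⟩ := hy
  refine ⟨a, d, ?_⟩
  rw [rl_app]
  refine ⟨c, ?_, h'⟩
  rw [rl_app]
  exact ⟨b, h, hw _ _⟩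

theorem live_left {x y : List (Finset (V × V))} (h : Live (x ++ y)) : Live x := by
  obtain ⟨a, b, h⟩ := h
  rw [rl_app] at h
  obtain ⟨m, h1, _⟩ := h
  exact ⟨a, m, h1⟩

theorem live_right {x y : List (Finset (V × V))} (h : Live (x ++ y)) : Live y := by
  obtain ⟨a, b, h⟩ := h
  rw [rl_app] at h
  obtain ⟨m, _, h1⟩ := h
  exact ⟨m, b, h1⟩

end rel

theorem pw_zero {α : Type} (x : List α) : pw 0 x = [] := rfl

theorem pw_succ {α : Type} (m : ℕ) (x : List α) : pw (m + 1) x = x ++ pw m x := rfl

theorem pw_rot {α : Type} (m : ℕ) (v z : List α) :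
    v ++ pw m (z ++ v) = pw m (v ++ z) ++ v := by
  induction m with
  | zero => simp [pw_zero]
  | succ m ih =>
    rw [pw_succ, pw_succ]
    calc v ++ (z ++ v ++ pw m (z ++ v)) = (v ++ z) ++ (v ++ pw m (z ++ v)) := by
          simp only [List.append_assoc]
      _ = v ++ z ++ pw m (v ++ z) ++ v := by rw [ih]; simp only [List.append_assoc]

/-- A self-map of a finite set which is injective on it has a power which is the identity. -/
theorem exists_iter {β : Type} {s : Set β} (hs : s.Finite) {f : β → β} (h1 : Set.MapsTo f s s)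
    (h2 : Set.InjOn f s) : ∃ m, 1 ≤ m ∧ ∀ x ∈ s, f^[m] x = x := by
  have : Finite s := hs
  have hinj : Function.Injective (h1.restrict f s s) := (Set.MapsTo.restrict_inj h1).2 h2
  let σ : Equiv.Perm s := Equiv.ofBijective _ (Finite.injective_iff_bijective.1 hinj)
  have hσ : ∀ (m : ℕ) (x : s), (((σ ^ m) x : s) : β) = f^[m] x := by
    intro m
    induction m with
    | zero => intro x; rfl
    | succ m ih =>
      intro x
      rw [pow_succ, Equiv.Perm.mul_apply, ih, Function.iterate_succ_apply]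
      rfl
  refine ⟨orderOf σ, orderOf_pos σ, fun x hx => ?_⟩
  have := hσ (orderOf σ) ⟨x, hx⟩
  rw [pow_orderOf_eq_one] at this
  exact this.symm

theorem iter_mul {β : Type} {f : β → β} {x : β} {m : ℕ} (h : f^[m] x = x) (k : ℕ) :
    f^[m * k] x = x := Function.IsPeriodicPt.mul_const (f := f) (x := x) (m := m) h k

section beh

variable {α K : Type} (B : Beh α K)

/-- The passages to the right on pairs. -/
def Beh.ph (x : List α) (a : K × K) : K × K := (B.d x a.1, B.f x a.1 a.2)

theorem Beh.ph_app (x y : List α) (a : K × K) : B.ph (x ++ y) a = B.ph y (B.ph x a) := by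
  unfold Beh.ph
  rw [B.d_app, B.f_app]

theorem Beh.ph_pw (x y : List α) (m : ℕ) (a : K × K) :
    B.ph (y ++ pw m x) a = (B.ph x)^[m] (B.ph y a) := by
  induction m generalizing y with
  | zero => rw [pw_zero, List.append_nil]; rfl
  | succ m ih =>
    rw [pw_succ, ← List.append_assoc, ih, B.ph_app, Function.iterate_succ_apply]

/-- The passages to the left on pairs. -/
noncomputable def Beh.ps [Nonempty K] (P : Set K) (z : List α) (a : K × K) : K × K :=
  (Function.invFunOn (B.d z) P a.1, B.g z (Function.invFunOn (B.d z) P a.1) a.2)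

variable [Nonempty K]

theorem Beh.ps_eq {P : Set K} {z : List α} (h : Set.InjOn (B.d z) P) {p : K} (hp : p ∈ P)
    (s : K) : B.ps P z (B.d z p, s) = (p, B.g z p s) := by
  have h1 : Function.invFunOn (B.d z) P (B.d z p) = p := h.leftInvOn_invFunOn hp
  unfold Beh.ps
  simp only [h1]

/-- The pairs `(p, s)` such that `s` is the result of a passage to the left through `v`. -/
def Beh.gs (P : Set K) (v : List α) : Set (K × K) := {a | a.1 ∈ P ∧ ∃ q, B.g v a.1 q = a.2}

theorem Beh.g_pw {P : Set K} {z v : List α} (h : Set.InjOn (B.d z) P)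
    (hm : Set.MapsTo (B.d z) P P) (m : ℕ) :
    ∀ p ∈ P, ∀ q, (p, B.g (pw m z ++ v) p q) =
      (B.ps P z)^[m] ((B.d z)^[m] p, B.g v ((B.d z)^[m] p) q) := by
  induction m with
  | zero => intro p _ q; rfl
  | succ m ih =>
    intro p hp q
    rw [pw_succ, List.append_assoc, B.g_app, Function.iterate_succ_apply',
      Function.iterate_succ_apply, ← ih _ (hm hp) q, B.ps_eq h hp]

end beh

/-- The pigeonhole principle of the witnesses. -/
theorem pigeon {V T : Type} [Fintype V] [DecidableEq V] [Fintype T] (A C : Finset V → Set T)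
    (h1 : ∀ S : Finset V, S ≠ ∅ → S ≠ Finset.univ → (A S ∩ C S).Nonempty)
    (h2 : ∀ S S' : Finset V, ¬ S ⊆ S' → ∀ t ∈ A S, t ∉ C S') :
    2 ^ Fintype.card V ≤ Fintype.card T + 2 := by
  classical
  let F : Finset (Finset V) := ((Finset.univ : Finset (Finset V)).erase ∅).erase Finset.univ
  have hF : ∀ S ∈ F, S ≠ ∅ ∧ S ≠ Finset.univ := by
    intro S hS
    simp only [F, Finset.mem_erase, Finset.mem_univ, and_true] at hS
    exact ⟨hS.2, hS.1⟩
  have h3 : ∀ S : F, ∃ t, t ∈ A S.1 ∧ t ∈ C S.1 := fun S =>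
    h1 S.1 (hF _ S.2).1 (hF _ S.2).2
  choose t ht using h3
  have hinj : Function.Injective t := by
    intro S S' h
    by_contra hne
    have hne' : S.1 ≠ S'.1 := fun h => hne (Subtype.ext h)
    by_cases hs : S.1 ⊆ S'.1
    · have hs' : ¬ S'.1 ⊆ S.1 := fun h => hne' (hs.antisymm h)
      exact h2 _ _ hs' (t S') (ht S').1 (h ▸ (ht S).2)
    · exact h2 _ _ hs (t S) (ht S).1 (h ▸ (ht S').2)
  have h4 : Fintype.card F ≤ Fintype.card T := Fintype.card_le_of_injective t hinj
  have h5 : 2 ^ Fintype.card V ≤ F.card + 2 := by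
    have h6 : (Finset.univ : Finset (Finset V)).card = 2 ^ Fintype.card V := by
      rw [Finset.card_univ, Fintype.card_finset]
    have h7 := Finset.pred_card_le_card_erase (s := (Finset.univ : Finset (Finset V))) (a := ∅)
    have h8 := Finset.pred_card_le_card_erase
      (s := ((Finset.univ : Finset (Finset V)).erase ∅)) (a := Finset.univ)
    have h9 : F.card = (((Finset.univ : Finset (Finset V)).erase ∅).erase Finset.univ).card := rfl
    omega
  rw [Fintype.card_coe] at h4
  omega

end Pool.Agent.NH19.LA
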