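import Mathlib
import Pool.Agent.NH19.LA.Def

set_option autoImplicit false

/-!
Crossing sequences of deterministic 1-limited automata, cut and paste.
-/

namespace Pool.Agent.NH19.LA

open Pool.Agent.H630R2.LA Pool.Agent.R620.KV

section cross

variable {A : Type} {strict : Prop} {M : LimAut A}

open Classical in
/-- The configuration after a move. -/
noncomputable def nextC (c : Cfg M) (q : M.Q) (b : M.W) (d : Bool) : Cfg M where
  state := q
  pos := if d = true then c.pos + 1 else c.pos - 1
  tape := if c.pos ∈ c.seen then c.tape else Function.update c.tape c.pos ((c.tape c.pos).rewrite b)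
  seen := insert c.pos c.seen

/-- The moves that are allowed. -/
def Ok (strict : Prop) (n : ℕ) (c : Cfg M) (q : M.Q) (b : M.W) (d : Bool) : Prop :=
  c.pos ≤ n + 1 ∧ (q, b, d) ∈ M.δ c.state (c.tape c.pos) ∧
    (strict → c.pos ∈ c.seen → (c.tape c.pos).rewrite b = c.tape c.pos) ∧
    (d = false → 1 ≤ c.pos)

theorem step_iff {n : ℕ} {c c' : Cfg M} :
    Step strict n c c' ↔ ∃ q b d, Ok strict n c q b d ∧ c' = nextC c q b d := by
  constructor
  · rintro ⟨h1, q, b, d, h2, h3, h4, h5, h6, h7, h8, h9⟩
    refine ⟨q, b, d, ⟨h1, h2, h3, ?_⟩, ?_⟩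
    · intro hd
      have := h9 hd
      omega
    · obtain ⟨s, p, t, v⟩ := c'
      unfold nextC
      simp only at h4 h5 h6 h7 h8 h9
      subst h4
      congr 1
      · cases d
        · have := h9 rfl
          simp only [Bool.false_eq_true, if_false]
          omega
        · have := h8 rfl
          simp only [if_true]
          exact this
      · split_ifs with h
        · exact h5 h
        · exact h6 h
  · rintro ⟨q, b, d, ⟨h1, h2, h3, h4⟩, rfl⟩
    refine ⟨h1, q, b, d, h2, h3, rfl, ?_, ?_, rfl, ?_, ?_⟩
    · intro h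
      simp only [nextC, if_pos h]
    · intro h
      simp only [nextC, if_neg h]
    · intro hd
      simp only [nextC, if_pos hd]
    · intro hd
      have := h4 hd
      subst hd
      simp only [nextC, Bool.false_eq_true, if_false]
      omega

/-- The head crosses the boundary between the cells `b` and `b + 1` at time `t`. -/
def crs (f : ℕ → Cfg M) (b t : ℕ) : Prop :=
  ((f t).pos = b ∧ (f (t + 1)).pos = b + 1) ∨ ((f t).pos = b + 1 ∧ (f (t + 1)).pos = b)

open Classical in
/-- The states after the crossings of the boundary among the `k` moves beginning at time `τ`. -/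
noncomputable def cl (f : ℕ → Cfg M) (b : ℕ) : ℕ → ℕ → List M.Q
  | 0, _ => []
  | k + 1, τ => if crs f b τ then (f (τ + 1)).state :: cl f b k (τ + 1) else cl f b k (τ + 1)

theorem sum_cl (f : ℕ → Cfg M) (a P : ℕ) (k τ : ℕ) :
    ∑ j ∈ Finset.range P, (cl f (a + j) k τ).length ≤ k := by
  classical
  induction k generalizing τ with
  | zero => simp [cl]
  | succ k ih =>
    have h1 : ∀ j, (cl f (a + j) (k + 1) τ).length =
        (if crs f (a + j) τ then 1 else 0) + (cl f (a + j) k (τ + 1)).length := by
      intro j
      simp only [cl]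
      split_ifs
      · rw [List.length_cons]; omega
      · omega
    simp only [h1]
    rw [Finset.sum_add_distrib]
    have h2 : ∑ j ∈ Finset.range P, (if crs f (a + j) τ then 1 else 0) ≤ 1 := by
      rw [← Finset.card_filter]
      rw [Finset.card_le_one]
      intro i hi j hj
      rw [Finset.mem_filter] at hi hj
      have hi' := hi.2
      have hj' := hj.2
      unfold crs at hi' hj'
      omega
    have := ih (τ + 1)
    omega

/-- The contents and the marks of the cells up to `b` agree. -/
def AgL (b : ℕ) (c c' : Cfg M) : Prop :=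
  ∀ i ≤ b, c.tape i = c'.tape i ∧ (i ∈ c.seen ↔ i ∈ c'.seen)

/-- The contents and the marks of the cells behind `b`, `b'` agree. -/
def AgR (b b' : ℕ) (c c' : Cfg M) : Prop :=
  ∀ i, c.tape (b + 1 + i) = c'.tape (b' + 1 + i) ∧ (b + 1 + i ∈ c.seen ↔ b' + 1 + i ∈ c'.seen)

theorem AgL.next {b : ℕ} {c c' : Cfg M} (h : AgL b c c') (hp : c.pos = c'.pos) (q : M.Q) (w : M.W)
    (d : Bool) (hb : c.pos ≤ b) : AgL b (nextC c q w d) (nextC c' q w d) := by
  intro i hi
  have h1 := h i hi
  have h2 := h c.pos hb
  have h3 : c.pos ∈ c.seen ↔ c'.pos ∈ c'.seen := by rw [← hp]; exact h2.2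
  simp only [nextC]
  constructor
  · by_cases hs : c.pos ∈ c.seen
    · rw [if_pos hs, if_pos (h3.1 hs)]
      exact h1.1
    · rw [if_neg hs, if_neg (fun h => hs (h3.2 h)), ← hp]
      by_cases hi' : i = c.pos
      · subst hi'
        rw [Function.update_self, Function.update_self, h2.1]
      · rw [Function.update_of_ne hi', Function.update_of_ne hi']
        exact h1.1
  · simp only [Set.mem_insert_iff]
    rw [h1.2, hp]

theorem AgL.other {b : ℕ} {c c' : Cfg M} (h : AgL b c c') (q : M.Q) (w : M.W)
    (d : Bool) (hb : b < c'.pos) : AgL b c (nextC c' q w d) := by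
  intro i hi
  have h1 := h i hi
  simp only [nextC]
  have hne : i ≠ c'.pos := by omega
  constructor
  · split_ifs
    · exact h1.1
    · rw [Function.update_of_ne hne]
      exact h1.1
  · rw [h1.2, Set.mem_insert_iff]
    constructor
    · exact Or.inr
    · rintro (h | h)
      · exact absurd h hne
      · exact h

theorem AgR.next {b b' : ℕ} {c c' : Cfg M} (h : AgR b b' c c') (e : ℕ) (hp : c.pos = b + 1 + e)
    (hp' : c'.pos = b' + 1 + e) (q : M.Q) (w : M.W) (d : Bool) :
    AgR b b' (nextC c q w d) (nextC c' q w d) := by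
  intro i
  have h1 := h i
  have h2 := h e
  rw [← hp, ← hp'] at h2
  simp only [nextC]
  constructor
  · by_cases hs : c.pos ∈ c.seen
    · rw [if_pos hs, if_pos (h2.2.1 hs)]
      exact h1.1
    · rw [if_neg hs, if_neg (fun h => hs (h2.2.2 h))]
      by_cases hi' : i = e
      · subst hi'
        rw [← hp, ← hp', Function.update_self, Function.update_self, h2.1]
      · rw [Function.update_of_ne (by omega), Function.update_of_ne (by omega)]
        exact h1.1
  · simp only [Set.mem_insert_iff]
    rw [h1.2]
    constructor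
    · rintro (h | h)
      · left; omega
      · exact Or.inr h
    · rintro (h | h)
      · left; omega
      · exact Or.inr h

theorem AgR.other {b b' : ℕ} {c c' : Cfg M} (h : AgR b b' c c') (q : M.Q) (w : M.W)
    (d : Bool) (hb : c'.pos ≤ b') : AgR b b' c (nextC c' q w d) := by
  intro i
  have h1 := h i
  simp only [nextC]
  have hne : b' + 1 + i ≠ c'.pos := by omega
  constructor
  · split_ifs
    · exact h1.1
    · rw [Function.update_of_ne hne]
      exact h1.1
  · rw [h1.2, Set.mem_insert_iff]
    constructor
    · exact Or.inr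
    · rintro (h | h)
      · exact absurd h hne
      · exact h

theorem AgL.otherL {b : ℕ} {c c' : Cfg M} (h : AgL b c c') (q : M.Q) (w : M.W)
    (d : Bool) (hb : b < c.pos) : AgL b (nextC c q w d) c' := by
  have h' : AgL b c' c := fun i hi => ⟨(h i hi).1.symm, (h i hi).2.symm⟩
  have := h'.other q w d hb
  exact fun i hi => ⟨(this i hi).1.symm, (this i hi).2.symm⟩

theorem AgR.otherL {b b' : ℕ} {c c' : Cfg M} (h : AgR b b' c c') (q : M.Q) (w : M.W)
    (d : Bool) (hb : c.pos ≤ b) : AgR b b' (nextC c q w d) c' := by
  have h' : AgR b' b c' c := fun i => ⟨(h i).1.symm, (h i).2.symm⟩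
  have := h'.other q w d hb
  exact fun i => ⟨(this i).1.symm, (this i).2.symm⟩

/-- Wandering on the left side until the next crossing. -/
theorem advL {b b' n : ℕ} {f : ℕ → Cfg M} (q : M.Q) (cs : List M.Q) (c : Cfg M) (k : ℕ) :
    ∀ τ, (∀ t, τ ≤ t → t < τ + k → Step strict n (f t) (f (t + 1))) → (f τ).pos ≤ b' →
      AgR b b' c (f τ) → cl f b' k τ = q :: cs →
      ∃ τ' k', τ' + k' = τ + k ∧ k' ≤ k ∧ (f τ').pos = b' + 1 ∧ (f τ').state = q ∧ AgR b b' c (f τ') ∧
        cl f b' k' τ' = cs := by
  classical
  induction k with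
  | zero =>
    intro τ _ _ _ h
    simp [cl] at h
  | succ k ih =>
    intro τ hst hpos hag hcl
    obtain ⟨q1, b1, d1, hok, he⟩ := step_iff.1 (hst τ le_rfl (by omega))
    have hag' : AgR b b' c (f (τ + 1)) := by
      rw [he]
      exact hag.other q1 b1 d1 hpos
    simp only [cl] at hcl
    by_cases hc : crs f b' τ
    · rw [if_pos hc] at hcl
      injection hcl with h1 h2
      refine ⟨τ + 1, k, by omega, by omega, ?_, h1, hag', h2⟩
      unfold crs at hc
      omega
    · rw [if_neg hc] at hcl
      have hpos' : (f (τ + 1)).pos ≤ b' := by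
        by_contra hcon
        apply hc
        left
        have : (f (τ + 1)).pos = (f τ).pos + 1 ∨ (f (τ + 1)).pos = (f τ).pos - 1 := by
          rw [he]
          cases d1
          · right; simp [nextC]
          · left; simp [nextC]
        omega
      obtain ⟨τ', k', h1, h1', h2⟩ := ih (τ + 1) (fun t h1 h2 => hst t (by omega) (by omega)) hpos'
        hag' hcl
      exact ⟨τ', k', by omega, by omega, h2⟩

/-- Wandering on the right side until the next crossing. -/
theorem advR {b n : ℕ} {f : ℕ → Cfg M} (q : M.Q) (cs : List M.Q) (c : Cfg M) (k : ℕ) :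
    ∀ τ, (∀ t, τ ≤ t → t < τ + k → Step strict n (f t) (f (t + 1))) → b < (f τ).pos →
      AgL b c (f τ) → cl f b k τ = q :: cs →
      ∃ τ' k', τ' + k' = τ + k ∧ k' ≤ k ∧ (f τ').pos = b ∧ (f τ').state = q ∧ AgL b c (f τ') ∧
        cl f b k' τ' = cs := by
  classical
  induction k with
  | zero =>
    intro τ _ _ _ h
    simp [cl] at h
  | succ k ih =>
    intro τ hst hpos hag hcl
    obtain ⟨q1, b1, d1, hok, he⟩ := step_iff.1 (hst τ le_rfl (by omega))
    have hag' : AgL b c (f (τ + 1)) := by
      rw [he]
      exact hag.other q1 b1 d1 hpos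
    simp only [cl] at hcl
    by_cases hc : crs f b τ
    · rw [if_pos hc] at hcl
      injection hcl with h1 h2
      refine ⟨τ + 1, k, by omega, by omega, ?_, h1, hag', h2⟩
      unfold crs at hc
      omega
    · rw [if_neg hc] at hcl
      have hpos' : b < (f (τ + 1)).pos := by
        by_contra hcon
        apply hc
        right
        have : (f (τ + 1)).pos = (f τ).pos + 1 ∨ (f (τ + 1)).pos = (f τ).pos - 1 := by
          rw [he]
          cases d1
          · right; simp [nextC]
          · left; simp [nextC]
        omega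
      obtain ⟨τ', k', h1, h1', h2⟩ := ih (τ + 1) (fun t h1 h2 => hst t (by omega) (by omega)) hpos'
        hag' hcl
      exact ⟨τ', k', by omega, by omega, h2⟩

/-- The synchronized situations; `f` is a maximal computation with the right boundary `b`, `f'` one
with the boundary `b'`, `g` is the mixed computation. -/
theorem sync (hd : M.Deterministic) {b b' n n' m : ℕ} {f f' g : ℕ → Cfg M} {T T' : ℕ}
    (hn : b ≤ n) (hm : m + b' = n' + b) (hbm : b ≤ m)
    (hmax : ∀ c, ¬ Step strict n (f T) c) (hmax' : ∀ c, ¬ Step strict n' (f' T') c)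
    (hst : ∀ t, t < T → Step strict n (f t) (f (t + 1)))
    (hst' : ∀ t, t < T' → Step strict n' (f' t) (f' (t + 1)))
    (hrej : (f' T').pos = n' + 2 → (f' T').state ∉ M.F) (U : ℕ)
    (hg : ∀ t, t < U → Step strict m (g t) (g (t + 1))) (hgp : (g U).pos = m + 2)
    (hgF : (g U).state ∈ M.F) (r : ℕ) :
    ∀ σ τ τ' k k', σ + r = U → τ + k = T → τ' + k' = T' →
      cl f b k τ = cl f' b' k' τ' → AgL b (g σ) (f τ) → AgR b b' (g σ) (f' τ') →
      (((g σ).pos ≤ b ∧ (g σ).pos = (f τ).pos ∧ (g σ).state = (f τ).state ∧ (f' τ').pos ≤ b') ∨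
        (∃ e, (g σ).pos = b + 1 + e ∧ (f' τ').pos = b' + 1 + e ∧ (g σ).state = (f' τ').state ∧
          b < (f τ).pos)) → False := by
  classical
  induction r with
  | zero =>
    intro σ τ τ' k k' hσ hτ hτ' hcl hL hR h
    obtain rfl : σ = U := by omega
    rcases h with ⟨h1, _⟩ | ⟨e, h1, h2, h3, h4⟩
    · omega
    · have h5 : (f' τ').pos = n' + 2 := by omega
      have hk' : k' = 0 := by
        by_contra hk'
        have := (hst' τ' (by omega)).1
        omega
      subst hk'
      obtain rfl : τ' = T' := by omega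
      exact hrej h5 (h3 ▸ hgF)
  | succ r ih =>
    intro σ τ τ' k k' hσ hτ hτ' hcl hL hR h
    obtain ⟨q1, b1, d1, hok, he⟩ := step_iff.1 (hg σ (by omega))
    rcases h with ⟨h1, h2, h3, h4⟩ | ⟨e, h1, h2, h3, h4⟩
    · -- the head is on the left side
      have hloc := hL (g σ).pos h1
      rw [h2] at hloc
      have hok' : Ok strict n (f τ) q1 b1 d1 := by
        refine ⟨by omega, ?_, ?_, ?_⟩
        · rw [← h3, ← hloc.1, ← h2]
          exact hok.2.1
        · intro hs hseen
          rw [← hloc.1]
          have := hok.2.2.1 hs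
          rw [h2] at this
          exact this (hloc.2.2 hseen)
        · intro hd1
          rw [← h2]
          exact hok.2.2.2 hd1
      rcases Nat.eq_zero_or_pos k with hk | hk
      · subst hk
        obtain rfl : τ = T := by omega
        exact hmax _ (step_iff.2 ⟨_, _, _, hok', rfl⟩)
      obtain ⟨k, rfl⟩ : ∃ k1, k = k1 + 1 := ⟨k - 1, by omega⟩
      obtain ⟨q2, b2, d2, hok2, he2⟩ := step_iff.1 (hst τ (by omega))
      have heq : (q1, b1, d1) = (q2, b2, d2) := hd _ _ hok'.2.1 hok2.2.1
      simp only [Prod.mk.injEq] at heq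
      obtain ⟨rfl, rfl, rfl⟩ := heq
      have hL' : AgL b (g (σ + 1)) (f (τ + 1)) := by
        rw [he, he2]
        exact hL.next h2 q1 b1 d1 h1
      have hR' : AgR b b' (g (σ + 1)) (f' τ') := by
        rw [he]
        exact hR.otherL q1 b1 d1 h1
      have hst1 : (g (σ + 1)).state = (f (τ + 1)).state := by rw [he, he2]; rfl
      have hpos1 : (g (σ + 1)).pos = (f (τ + 1)).pos := by
        rw [he, he2]
        simp only [nextC, h2]
      by_cases hc : crs f b τ
      · simp only [cl, if_pos hc] at hcl
        have hfst : (f (τ + 1)).pos = b + 1 := by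
          unfold crs at hc
          omega
        obtain ⟨τ2, k2, e1, _, e2, e3, e4, e5⟩ := advL (f (τ + 1)).state (cl f b k (τ + 1))
          (g (σ + 1)) k' τ' (fun t _ ht => hst' t (by omega)) h4 hR' hcl.symm
        refine ih (σ + 1) (τ + 1) τ2 k k2 (by omega) (by omega) (by omega) e5.symm hL' e4
          (Or.inr ⟨0, by omega, by omega, by rw [hst1, e3], by omega⟩)
      · simp only [cl, if_neg hc] at hcl
        refine ih (σ + 1) (τ + 1) τ' k k' (by omega) (by omega) (by omega) hcl hL' hR'
          (Or.inl ⟨?_, hpos1, hst1, h4⟩)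
        by_contra hcon
        apply hc
        left
        have : (f (τ + 1)).pos = (f τ).pos + 1 ∨ (f (τ + 1)).pos = (f τ).pos - 1 := by
          rw [he2]
          cases d1
          · right; simp [nextC]
          · left; simp [nextC]
        omega
    · -- the head is on the right side
      have hloc := hR e
      rw [← h1, ← h2] at hloc
      have hok' : Ok strict n' (f' τ') q1 b1 d1 := by
        have hp := hok.1
        refine ⟨by omega, ?_, ?_, ?_⟩
        · rw [← h3, ← hloc.1]
          exact hok.2.1
        · intro hs hseen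
          rw [← hloc.1]
          exact hok.2.2.1 hs (hloc.2.2 hseen)
        · intro _
          omega
      rcases Nat.eq_zero_or_pos k' with hk | hk
      · subst hk
        obtain rfl : τ' = T' := by omega
        exact hmax' _ (step_iff.2 ⟨_, _, _, hok', rfl⟩)
      obtain ⟨k', rfl⟩ : ∃ k1, k' = k1 + 1 := ⟨k' - 1, by omega⟩
      obtain ⟨q2, b2, d2, hok2, he2⟩ := step_iff.1 (hst' τ' (by omega))
      have heq : (q1, b1, d1) = (q2, b2, d2) := hd _ _ hok'.2.1 hok2.2.1
      simp only [Prod.mk.injEq] at heq
      obtain ⟨rfl, rfl, rfl⟩ := heq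
      have hR' : AgR b b' (g (σ + 1)) (f' (τ' + 1)) := by
        rw [he, he2]
        exact hR.next e h1 h2 q1 b1 d1
      have hL' : AgL b (g (σ + 1)) (f τ) := by
        rw [he]
        exact hL.otherL q1 b1 d1 (by omega)
      have hst1 : (g (σ + 1)).state = (f' (τ' + 1)).state := by rw [he, he2]; rfl
      have hpos1 : (g (σ + 1)).pos + b' = (f' (τ' + 1)).pos + b := by
        rw [he, he2]
        simp only [nextC, h1, h2]
        split_ifs <;> omega
      have hpos2 : (f' (τ' + 1)).pos = (f' τ').pos + 1 ∨ (f' (τ' + 1)).pos = (f' τ').pos - 1 := by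
        rw [he2]
        cases d1
        · right; simp [nextC]
        · left; simp [nextC]
      by_cases hc : crs f' b' τ'
      · simp only [cl, if_pos hc] at hcl
        have hfst : (f' (τ' + 1)).pos = b' := by
          unfold crs at hc
          omega
        obtain ⟨τ2, k2, e1, _, e2, e3, e4, e5⟩ := advR (f' (τ' + 1)).state (cl f' b' k' (τ' + 1))
          (g (σ + 1)) k τ (fun t _ ht => hst t (by omega)) h4 hL' hcl
        refine ih (σ + 1) τ2 (τ' + 1) k2 k' (by omega) (by omega) (by omega) e5 e4 hR'
          (Or.inl ⟨by omega, by omega, by rw [hst1, e3], by omega⟩)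
      · simp only [cl, if_neg hc] at hcl
        have h5 : b' < (f' (τ' + 1)).pos := by
          by_contra hcon
          apply hc
          right
          omega
        refine ih (σ + 1) τ (τ' + 1) k k' (by omega) (by omega) (by omega) hcl hL' hR'
          (Or.inr ⟨(f' (τ' + 1)).pos - (b' + 1), by omega, by omega, hst1, h4⟩)

theorem initTape_left (x y y' : List A) (i : ℕ) (hi : i ≤ x.length) :
    initTape M (x ++ y) i = initTape M (x ++ y') i := by
  cases i with
  | zero => rfl
  | succ i =>
    simp only [initTape]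
    rw [List.getElem?_append_left (by omega), List.getElem?_append_left (by omega)]

theorem initTape_right (x x' y : List A) (i : ℕ) :
    initTape M (x ++ y) (x.length + 1 + i) = initTape M (x' ++ y) (x'.length + 1 + i) := by
  have h1 : x.length + 1 + i = (x.length + i) + 1 := by ring
  have h2 : x'.length + 1 + i = (x'.length + i) + 1 := by ring
  rw [h1, h2]
  simp only [initTape]
  rw [List.getElem?_append_right (by omega), List.getElem?_append_right (by omega)]
  simp

/-- A maximal computation. -/
structure IsMax (strict : Prop) (M : LimAut A) (w : List A) (T : ℕ) (f : ℕ → Cfg M) : Prop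
    extends IsComp strict M w T f where
  max : ∀ c, ¬ Step strict w.length (f T) c

theorem exists_max (w : List A) (B : ℕ)
    (hB : ∀ (T : ℕ) (f : ℕ → Cfg M), IsComp strict M w T f → T ≤ B) :
    ∃ (T : ℕ) (f : ℕ → Cfg M), IsMax strict M w T f := by
  classical
  have h0 : ∃ f : ℕ → Cfg M, IsComp strict M w 0 f :=
    ⟨fun _ => init M w, ⟨rfl, fun t ht => absurd ht (Nat.not_lt_zero _)⟩⟩
  let P : ℕ → Prop := fun T => ∃ f : ℕ → Cfg M, IsComp strict M w T f
  have hP : P (Nat.findGreatest P B) := Nat.findGreatest_spec (P := P) (Nat.zero_le B) h0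
  obtain ⟨f, hf⟩ := hP
  refine ⟨Nat.findGreatest P B, f, ⟨hf, fun c hc => ?_⟩⟩
  set T := Nat.findGreatest P B with hT
  have hnew : P (T + 1) := by
    refine ⟨fun t => if t ≤ T then f t else c, ⟨?_, ?_⟩⟩
    · show (if 0 ≤ T then f 0 else c) = _
      rw [if_pos (Nat.zero_le _)]
      exact hf.start
    · intro t ht
      show Step strict w.length (if t ≤ T then f t else c) (if t + 1 ≤ T then f (t + 1) else c)
      rcases Nat.lt_or_ge t T with h | h
      · rw [if_pos (by omega), if_pos (by omega)]
        exact hf.step t h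
      · obtain rfl : t = T := by omega
        rw [if_pos le_rfl, if_neg (by omega)]
        exact hc
  have h1 : T + 1 ≤ B := by
    obtain ⟨f', hf'⟩ := hnew
    exact hB _ f' hf'
  have h2 := Nat.le_findGreatest (P := P) h1 hnew
  omega

/-- Cut and paste. -/
theorem paste (hd : M.Deterministic) {x y x' y' : List A} (hx : x ≠ []) (hx' : x' ≠ [])
    {T T' : ℕ} {f f' : ℕ → Cfg M} (hf : IsMax strict M (x ++ y) T f)
    (hf' : IsMax strict M (x' ++ y') T' f') (hrej : x' ++ y' ∉ M.language strict)
    (hcl : cl f x.length T 0 = cl f' x'.length T' 0) : x ++ y' ∉ M.language strict := by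
  intro hmem
  obtain ⟨c, hc1, hc2, hc3⟩ := hmem
  -- the accepting computation as a function
  have key : ∀ c1 : Cfg M, Relation.ReflTransGen (Step strict (x ++ y').length)
      (init M (x ++ y')) c1 → ∃ (U : ℕ) (g : ℕ → Cfg M), g 0 = init M (x ++ y') ∧ g U = c1 ∧
      ∀ t, t < U → Step strict (x ++ y').length (g t) (g (t + 1)) := by
    classical
    intro c1 h
    induction h with
    | refl => exact ⟨0, fun _ => init M (x ++ y'), rfl, rfl, fun t ht => absurd ht (Nat.not_lt_zero _)⟩
    | tail _ hs ih =>
      obtain ⟨U, g, h1, h2, h3⟩ := ih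
      rename_i c2 c3 _
      refine ⟨U + 1, fun t => if t ≤ U then g t else c3, ?_, ?_, ?_⟩
      · show (if 0 ≤ U then g 0 else c3) = _
        rw [if_pos (Nat.zero_le _)]
        exact h1
      · show (if U + 1 ≤ U then g (U + 1) else c3) = _
        rw [if_neg (by omega)]
      · intro t ht
        show Step strict _ (if t ≤ U then g t else c3) (if t + 1 ≤ U then g (t + 1) else c3)
        rcases Nat.lt_or_ge t U with h | h
        · rw [if_pos (by omega), if_pos (by omega)]
          exact h3 t h
        · obtain rfl : t = U := by omega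
          rw [if_pos le_rfl, if_neg (by omega), h2]
          exact hs
  obtain ⟨U, g, hg0, hgU, hg⟩ := key c hc1
  have hxl : 1 ≤ x.length := List.length_pos_iff.2 hx
  have hxl' : 1 ≤ x'.length := List.length_pos_iff.2 hx'
  refine sync hd (b := x.length) (b' := x'.length) (n := (x ++ y).length)
    (n' := (x' ++ y').length) (m := (x ++ y').length) (f := f) (f' := f') (g := g) (T := T)
    (T' := T') ?_ ?_ ?_ hf.max hf'.max hf.step hf'.step ?_ U hg (hgU ▸ hc2) (hgU ▸ hc3) U 0 0 0 T T'
    (by omega) (by omega) (by omega) hcl ?_ ?_ ?_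
  · simp
  · simp only [List.length_append]; omega
  · simp
  · intro hp hF
    apply hrej
    refine ⟨f' T', ?_, hp, hF⟩
    have : ∀ t, t ≤ T' → Relation.ReflTransGen (Step strict (x' ++ y').length)
        (init M (x' ++ y')) (f' t) := by
      intro t
      induction t with
      | zero => intro _; rw [hf'.start]
      | succ t ih => intro ht; exact (ih (by omega)).tail (hf'.step t (by omega))
    exact this T' le_rfl
  · intro i hi
    rw [hg0, hf.start]
    exact ⟨initTape_left x y' y i hi, Iff.rfl⟩
  · intro i
    rw [hg0, hf'.start]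
    exact ⟨initTape_right x x' y' i, Iff.rfl⟩
  · left
    rw [hg0, hf.start, hf'.start]
    exact ⟨hxl, rfl, rfl, hxl'⟩

end cross

end Pool.Agent.NH19.LA
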