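import Mathlib
import Pool.Agent.NH19.LA.Alg

set_option autoImplicit false

/-!
Assembly of project LA.
-/

namespace Pool.Agent.NH19.LA

open Pool.Agent.H630R2.LA Pool.Agent.R620.KV

theorem code_app (n : ℕ) (x y : List (Finset (Vx n × Vx n))) :
    code n (x ++ y) = code n x ++ code n y := by
  unfold code
  rw [List.map_append, List.flatten_append]

theorem length_codeX_pos (n : ℕ) (X : Finset (Vx n × Vx n)) : 0 < (codeX n X).length := by
  unfold codeX
  simp

theorem length_code_pos (n : ℕ) (x : List (Finset (Vx n × Vx n))) (hx : x ≠ []) :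
    0 < (code n x).length := by
  obtain ⟨X, l, rfl⟩ := List.exists_cons_of_ne_nil hx
  unfold code
  rw [List.map_cons, List.flatten_cons, List.length_append]
  have := length_codeX_pos n X
  omega

theorem length_code_pw (n : ℕ) (y : List (Finset (Vx n × Vx n))) (i : ℕ) :
    (code n (pw i y)).length = i * (code n y).length := by
  induction i with
  | zero => simp [pw_zero, code]
  | succ i ih =>
    rw [pw_succ, code_app, List.length_append, ih]
    ring

theorem pw_add {α : Type} (x : List α) (i j : ℕ) : pw (i + j) x = pw i x ++ pw j x := by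
  unfold pw
  rw [List.replicate_add, List.flatten_append]

theorem full_pw {V : Type} [Nonempty V] {y : List (Finset (V × V))} (hy : Full y) (i : ℕ) :
    Full (pw (i + 1) y) := by
  induction i with
  | zero =>
    rw [pw_succ, pw_zero, List.append_nil]
    exact hy
  | succ i ih =>
    intro u v
    rw [pw_succ, rl_app]
    exact ⟨v, hy _ _, ih _ _⟩

/-- The behaviours of a machine on the codes. -/
noncomputable def behM (hp : St_pass) (strict : Prop) (n : ℕ) (M : LimAut (Ltr n)) :
    Beh (Finset (Vx n × Vx n)) (Option M.Q) where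
  d x := pd strict M (code n x)
  f x := pf strict M (code n x)
  g x := pg strict M (code n x)
  d_app x y p := by rw [code_app]; exact (hp strict _ M _ _ p p).1
  f_app x y p q := by rw [code_app]; exact (hp strict _ M _ _ p q).2.1
  g_app x y p q := by rw [code_app]; exact (hp strict _ M _ _ p q).2.2

/-- Some block has no turn. -/
theorem exists_block {A : Type} {M : LimAut A} (T : ℕ) (f : ℕ → Cfg M) (N a n : ℕ) (ha : 0 < a)
    (hn : n = N * a) (h : turns n T f + 1 < N) :
    ∃ i, 1 ≤ i ∧ i < N ∧ ∀ t, t + 2 ≤ T → (f (t + 2)).pos = (f t).pos →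
      (f (t + 1)).pos ∉ Set.Ico (i * a + 1) (i * a + 1 + a) := by
  classical
  by_contra hcon
  push Not at hcon
  have hcon' : ∀ i : Fin (N - 1), ∃ t, t + 2 ≤ T ∧ (f (t + 2)).pos = (f t).pos ∧
      (f (t + 1)).pos ∈ Set.Ico ((i.1 + 1) * a + 1) ((i.1 + 1) * a + 1 + a) := by
    intro i
    have h2 := i.2
    obtain ⟨t, h3, h4, h5⟩ := hcon (i.1 + 1) (by omega) (by omega)
    exact ⟨t, h3, h4, h5⟩
  choose t ht1 ht2 ht3 using hcon'
  have hinj : Function.Injective t := by
    intro i j hij
    have h1 := ht3 i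
    have h2 := ht3 j
    rw [hij] at h1
    rw [Set.mem_Ico] at h1 h2
    apply Fin.ext
    by_contra hne
    rcases Nat.lt_or_gt_of_ne hne with hlt | hlt
    · have : (i.1 + 1) * a + a ≤ (j.1 + 1) * a := by nlinarith
      omega
    · have : (j.1 + 1) * a + a ≤ (i.1 + 1) * a := by nlinarith
      omega
  have hfin : {t | t + 2 ≤ T ∧ (f (t + 2)).pos = (f t).pos ∧ 1 ≤ (f (t + 1)).pos ∧
      (f (t + 1)).pos ≤ n}.Finite := (Set.finite_lt_nat T).subset fun t ht => by
    have := ht.1
    show t < T
    omega
  have hsub : Set.range t ⊆ {t | t + 2 ≤ T ∧ (f (t + 2)).pos = (f t).pos ∧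
      1 ≤ (f (t + 1)).pos ∧ (f (t + 1)).pos ≤ n} := by
    rintro _ ⟨i, rfl⟩
    have h1 := ht3 i
    rw [Set.mem_Ico] at h1
    have h2 := i.2
    have h3 : (i.1 + 1) * a + a ≤ n := by
      rw [hn]
      have : i.1 + 1 + 1 ≤ N := by omega
      calc (i.1 + 1) * a + a = (i.1 + 1 + 1) * a := by ring
        _ ≤ N * a := Nat.mul_le_mul_right _ this
    exact ⟨ht1 i, ht2 i, by omega, by omega⟩
  have h1 := Set.ncard_le_ncard hsub hfin
  have h2 : (Set.range t).ncard = N - 1 := by
    rw [← Set.image_univ, Set.ncard_image_of_injective _ hinj, Set.ncard_univ, Nat.card_eq_fintype_card,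
      Fintype.card_fin]
  rw [h2] at h1
  unfold turns at h
  omega

theorem lower (hz : St_zip) (hzF : St_zipF) (hp : St_pass) (hs : St_sim) (hal : St_alg)
    (hm : St_mach) (strict : Prop) (n : ℕ) (hn : 1 ≤ n) (M : LimAut (Ltr n))
    (hd : M.Deterministic) (hf : FewTurns strict M)
    (hL : M.language strict = (Mn n).language strict) :
    2 ^ (2 ^ n) ≤ 2 * (Nat.card M.Q + 1) ^ 4 := by
  classical
  by_contra hcon
  rw [not_le] at hcon
  have hfin := M.finQ
  let _ : Fintype M.Q := Fintype.ofFinite _
  have hK : Fintype.card (Option M.Q) = Nat.card M.Q + 1 := by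
    rw [Fintype.card_option, Nat.card_eq_fintype_card]
  have hpos : 1 ≤ Nat.card M.Q := by
    have : Nonempty M.Q := ⟨M.q0⟩
    exact Nat.card_pos
  have hV : Fintype.card (Vx n) = 2 ^ n := by
    simp [Vx]
  have hcard : 2 + Fintype.card (Option M.Q) + Fintype.card (Option M.Q) ^ 2 +
      Fintype.card (Option M.Q) ^ 3 + Fintype.card (Option M.Q) ^ 4 <
      2 ^ Fintype.card (Vx n) := by
    rw [hK, hV]
    refine lt_of_le_of_lt ?_ hcon
    generalize Nat.card M.Q = k at hpos
    obtain ⟨j, rfl⟩ : ∃ j, k = j + 1 := ⟨k - 1, by omega⟩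
    nlinarith [Nat.zero_le j, Nat.zero_le (j ^ 2), Nat.zero_le (j ^ 3), Nat.zero_le (j ^ 4)]
  obtain ⟨x, y, m, hx, hy, hm1, h1, h2, h3⟩ :=
    hal (Vx n) (Option M.Q) (behM hp strict n M) hcard
  have hy0 : y ≠ [] := by
    rintro rfl
    have : (fun _ => true : Vx n) = fun _ => false := hy _ _
    have := congrFun this ⟨0, hn⟩
    simp at this
  have ha := length_code_pos n y hy0
  set a := (code n y).length with hadef
  obtain ⟨N0, hN0⟩ := hf (2 * (a + 1))
  set N := N0 + 2 with hN
  have hlen : (code n (pw N y)).length = N * a := length_code_pw n y N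
  have hmem : code n (pw N y) ∈ M.language strict := by
    rw [hL, hz, hm strict n hn]
    have := full_pw hy (N0 + 1)
    exact ⟨fun _ => true, fun _ => true, this _ _⟩
  obtain ⟨T, f, hacc, hturn⟩ := hN0 _ hmem (by
    rw [hlen]
    have : N0 * 1 ≤ N * a := Nat.mul_le_mul (by omega) ha
    omega)
  have hturn' : turns (code n (pw N y)).length T f + 1 < N := by
    by_contra hc
    rw [not_lt] at hc
    have h4 : N ≤ 2 * turns (code n (pw N y)).length T f := by omega
    rw [hlen] at hturn h4
    have h5 : (a + 1) * N ≤ (a + 1) * (2 * turns (N * a) T f) := Nat.mul_le_mul_left _ h4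
    have h6 : (a + 1) * N = N * a + N := by ring
    have h7 : (a + 1) * (2 * turns (N * a) T f) = 2 * (a + 1) * turns (N * a) T f := by ring
    omega
  obtain ⟨i, hi1, hi2, hi3⟩ := exists_block T f N a _ ha hlen hturn'
  have hsplit : pw N y = pw i y ++ y ++ pw (N - 1 - i) y := by
    have : N = i + (1 + (N - 1 - i)) := by omega
    conv_lhs => rw [this]
    rw [pw_add, pw_add, List.append_assoc]
    congr 1
    rw [pw_succ, pw_zero, List.append_nil]
  have hcode : code n (pw N y) = code n (pw i y) ++ code n y ++ code n (pw (N - 1 - i) y) := by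
    rw [hsplit, code_app, code_app]
  have hlen_i : (code n (pw i y)).length = i * a := length_code_pw n y i
  have hF := hzF strict _ M _ T f
    (Set.Ico ((code n (pw i y)).length + 1) ((code n (pw i y)).length + 1 + (code n y).length))
    hacc (by
      rw [hlen_i, Set.mem_Ico]
      have : 1 * 1 ≤ i * a := Nat.mul_le_mul hi1 ha
      omega) (by
      rw [hlen_i]
      exact hi3)
  rw [hcode] at hF
  have hZ := hs strict _ M hd (code n (pw i y)) (code n y) (code n (y ++ pw m (x ++ y)))
    (code n (pw (N - 1 - i) y)) T (by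
      intro h
      rw [h] at hadef
      simp at hadef
      omega) h1 h2 h3 hF
  rw [← hz, ← code_app, ← code_app, hL, hz, hm strict n hn] at hZ
  obtain ⟨m', rfl⟩ : ∃ m', m = m' + 1 := ⟨m - 1, by omega⟩
  have hx' : Live x := by
    have h4 := live_right (live_left hZ)
    have h5 := live_right h4
    rw [pw_succ] at h5
    exact live_left (live_left h5)
  exact hx hx'

end Pool.Agent.NH19.LA
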