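import Pool.Agent.NH19.LA.Stm

set_option autoImplicit false

/-!
# LA-4: the machine accepts exactly the live words
-/

namespace Pool.Agent.NH19.LA

open Pool.Agent.H630R2.LA Pool.Agent.R620.KV

namespace Mach

lemma zacc_nil {A : Type} {strict : Prop} {M : LimAut A} {L : List (Cell M)} {q : M.Q} :
    ZAcc strict M L q [] ↔ q ∈ M.F := by
  constructor
  · intro h
    cases h with
    | fin L q h => exact h
  · exact ZAcc.fin L q

lemma zacc_cons {A : Type} {strict : Prop} {M : LimAut A} {L : List (Cell M)} {q : M.Q}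
    {c : Cell M} {R : List (Cell M)} : ZAcc strict M L q (c :: R) ↔
    (∃ q' c', cstep strict M q c q' c' true ∧ ZAcc strict M (c' :: L) q' R) ∨
    (∃ q' c', cstep strict M q c q' c' false ∧ ∃ l L', L = l :: L' ∧
      ZAcc strict M L' q' (l :: c' :: R)) := by
  constructor
  · intro h
    cases h with
    | rt L q c R q' c' h h' => exact Or.inl ⟨q', c', h, h'⟩
    | lt l L q c R q' c' h h' => exact Or.inr ⟨q', c', h, l, L, rfl, h'⟩
  · rintro (⟨q', c', h, h'⟩ | ⟨q', c', h, l, L', rfl, h'⟩)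
    · exact ZAcc.rt L q c R q' c' h h'
    · exact ZAcc.lt l L' q c R q' c' h h'

lemma step_genM {A : Type} {strict : Prop} {M : LimAut A} {L R : List (Cell M)} {q : M.Q}
    {σ : Sym M.W} {f : Bool}
    (h2 : f = true → ∀ x ∈ M.δ q σ, σ.rewrite x.2.1 = σ) : ZAcc strict M L q ((σ, f) :: R) ↔
    ∃ x ∈ M.δ q σ, (x.2.2 = true ∧ ZAcc strict M ((σ.rewrite x.2.1, true) :: L) x.1 R) ∨
      (x.2.2 = false ∧ ∃ l L', L = l :: L' ∧
        ZAcc strict M L' x.1 (l :: (σ.rewrite x.2.1, true) :: R)) := by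
  have hc : ∀ x ∈ M.δ q σ, (if f = true then σ else σ.rewrite x.2.1) = σ.rewrite x.2.1 := by
    intro x hx
    split_ifs with hf
    · exact (h2 hf x hx).symm
    · rfl
  rw [zacc_cons]
  constructor
  · rintro (⟨q', c', ⟨b, hb, -, rfl⟩, h⟩ | ⟨q', c', ⟨b, hb, -, rfl⟩, l, L', rfl, h⟩)
    · refine ⟨(q', b, true), hb, Or.inl ⟨rfl, ?_⟩⟩
      have e := hc _ hb
      simp only at e h ⊢
      rwa [e] at h
    · refine ⟨(q', b, false), hb, Or.inr ⟨rfl, l, L', rfl, ?_⟩⟩
      have e := hc _ hb
      simp only at e h ⊢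
      rwa [e] at h
  · rintro ⟨⟨q', b, d⟩, hb, (⟨hd, h⟩ | ⟨hd, l, L', rfl, h⟩)⟩
    · simp only at hd
      subst hd
      refine Or.inl ⟨q', _, ⟨b, hb, fun _ hf => h2 hf _ hb, rfl⟩, ?_⟩
      have e := hc _ hb
      simp only at e h ⊢
      rwa [e]
    · simp only at hd
      subst hd
      refine Or.inr ⟨q', _, ⟨b, hb, fun _ hf => h2 hf _ hb, rfl⟩, l, L', rfl, ?_⟩
      have e := hc _ hb
      simp only at e h ⊢
      rwa [e]

variable {n : ℕ} {strict : Prop}

/-- acceptance of the machine -/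
abbrev ZA (n : ℕ) (strict : Prop) (L : List (Sym (Wk n) × Bool)) (q : St n)
    (R : List (Sym (Wk n) × Bool)) : Prop := ZAcc strict (Mn n) L q R

lemma step_gen {L R : List (Sym (Wk n) × Bool)} {q : St n} {σ : Sym (Wk n)} {f : Bool}
    (h2 : f = true → ∀ x ∈ dl n q σ, σ.rewrite x.2.1 = σ) : ZA n strict L q ((σ, f) :: R) ↔
    ∃ x ∈ dl n q σ, (x.2.2 = true ∧ ZA n strict ((σ.rewrite x.2.1, true) :: L) x.1 R) ∨
      (x.2.2 = false ∧ ∃ l L', L = l :: L' ∧
        ZA n strict L' x.1 (l :: (σ.rewrite x.2.1, true) :: R)) :=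
  step_genM (M := Mn n) h2

/-- the blank cell -/
def B (n : ℕ) : Sym (Wk n) × Bool := (.sym .blank, true)

/-- a marked cell -/
def K (n : ℕ) (e : Vx n × Vx n) (t : Fin n) : Sym (Wk n) × Bool :=
  (.sym (.mk (e.1 t) (e.2 t) t), true)

/-- a fresh cell -/
def Fr (n : ℕ) (a : Ltr n) : Sym (Wk n) × Bool := (.sym (.inp a), false)

section first

variable {L R : List (Sym (Wk n) × Bool)}

lemma s0_hash : ZA n strict L .s0 (Fr n .hash :: R) ↔
    ZA n strict (B n :: L) .s0 R ∨ ZA n strict (B n :: L) .s1 R := by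
  unfold Fr
  rw [step_gen (by simp)]
  simp [dl, Sym.rewrite, B]

lemma s0_ed {a b : Bool} {t : Fin n} : ZA n strict L .s0 (Fr n (.ed a b t) :: R) ↔
    ZA n strict (B n :: L) .s0 R := by
  unfold Fr
  rw [step_gen (by simp)]
  simp [dl, Sym.rewrite, B]

lemma s0_dollar : ¬ ZA n strict L .s0 (Fr n .dollar :: R) := by
  unfold Fr
  rw [step_gen (by simp)]
  simp [dl]

lemma s1_ed {e : Vx n × Vx n} {t : Fin n} : ZA n strict L .s1 (Fr n (.ed (e.1 t) (e.2 t) t) :: R) ↔
    ZA n strict (K n e t :: L) .s1 R := by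
  unfold Fr
  rw [step_gen (by simp)]
  simp [dl, Sym.rewrite, K]

lemma s1_hash : ZA n strict L .s1 (Fr n .hash :: R) ↔ ZA n strict (B n :: L) .s2 R := by
  unfold Fr
  rw [step_gen (by simp)]
  simp [dl, Sym.rewrite, B]

lemma s1_dollar : ZA n strict L .s1 (Fr n .dollar :: R) ↔ ZA n strict (B n :: L) .s0 R := by
  unfold Fr
  rw [step_gen (by simp)]
  simp [dl, Sym.rewrite, B]

lemma s2_ed {a b : Bool} {t : Fin n} : ZA n strict L .s2 (Fr n (.ed a b t) :: R) ↔
    ZA n strict (B n :: L) .s2 R := by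
  unfold Fr
  rw [step_gen (by simp)]
  simp [dl, Sym.rewrite, B]

lemma s2_hash : ZA n strict L .s2 (Fr n .hash :: R) ↔ ZA n strict (B n :: L) .s2 R := by
  unfold Fr
  rw [step_gen (by simp)]
  simp [dl, Sym.rewrite, B]

lemma s2_dollar : ZA n strict L .s2 (Fr n .dollar :: R) ↔ ZA n strict (B n :: L) .s0 R := by
  unfold Fr
  rw [step_gen (by simp)]
  simp [dl, Sym.rewrite, B]

/-- blanks for the letters of a word -/
def bl (w : List (Ltr n)) : List (Sym (Wk n) × Bool) := w.map fun _ => B n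

lemma bl_cons (a : Ltr n) (w : List (Ltr n)) : bl (a :: w) = B n :: bl w := rfl

lemma bl_app (w w' : List (Ltr n)) : bl (w ++ w') = bl w ++ bl w' := List.map_append

/-- the code of the places of an edge -/
def cE (e : Vx n × Vx n) (ts : List (Fin n)) : List (Ltr n) := ts.map fun t => .ed (e.1 t) (e.2 t) t

lemma s0_eds (e : Vx n × Vx n) (ts : List (Fin n)) (L : List (Sym (Wk n) × Bool)) :
    ZA n strict L .s0 ((cE e ts).map (Fr n) ++ R) ↔
      ZA n strict ((bl (cE e ts)).reverse ++ L) .s0 R := by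
  induction ts generalizing L with
  | nil => simp [cE, bl]
  | cons t ts ih =>
    have e1 : (cE e (t :: ts)).map (Fr n) ++ R =
        Fr n (.ed (e.1 t) (e.2 t) t) :: ((cE e ts).map (Fr n) ++ R) := by simp [cE]
    have e2 : (bl (cE e (t :: ts))).reverse ++ L = (bl (cE e ts)).reverse ++ (B n :: L) := by
      simp [cE, bl]
    rw [e1, e2, s0_ed, ih]

lemma s2_eds (e : Vx n × Vx n) (ts : List (Fin n)) (L : List (Sym (Wk n) × Bool)) :
    ZA n strict L .s2 ((cE e ts).map (Fr n) ++ R) ↔
      ZA n strict ((bl (cE e ts)).reverse ++ L) .s2 R := by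
  induction ts generalizing L with
  | nil => simp [cE, bl]
  | cons t ts ih =>
    have e1 : (cE e (t :: ts)).map (Fr n) ++ R =
        Fr n (.ed (e.1 t) (e.2 t) t) :: ((cE e ts).map (Fr n) ++ R) := by simp [cE]
    have e2 : (bl (cE e (t :: ts))).reverse ++ L = (bl (cE e ts)).reverse ++ (B n :: L) := by
      simp [cE, bl]
    rw [e1, e2, s2_ed, ih]

lemma s1_eds (e : Vx n × Vx n) (ts : List (Fin n)) (L : List (Sym (Wk n) × Bool)) :
    ZA n strict L .s1 ((cE e ts).map (Fr n) ++ R) ↔
      ZA n strict ((ts.map (K n e)).reverse ++ L) .s1 R := by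
  induction ts generalizing L with
  | nil => simp [cE]
  | cons t ts ih =>
    have e1 : (cE e (t :: ts)).map (Fr n) ++ R =
        Fr n (.ed (e.1 t) (e.2 t) t) :: ((cE e ts).map (Fr n) ++ R) := by simp [cE]
    have e2 : ((t :: ts).map (K n e)).reverse ++ L =
        (ts.map (K n e)).reverse ++ (K n e t :: L) := by simp
    rw [e1, e2, s1_ed, ih]

lemma codeE_eq (e : Vx n × Vx n) : codeE n e = .hash :: cE e (List.finRange n) := rfl

/-- the code of a list of edges -/
def cs (E : List (Vx n × Vx n)) : List (Ltr n) := (E.map (codeE n)).flatten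

lemma cs_cons (e : Vx n × Vx n) (E : List (Vx n × Vx n)) : cs (e :: E) = codeE n e ++ cs E := by
  simp [cs]

lemma s2_cs (E : List (Vx n × Vx n)) (L : List (Sym (Wk n) × Bool)) :
    ZA n strict L .s2 ((cs E).map (Fr n) ++ R) ↔
      ZA n strict ((bl (cs E)).reverse ++ L) .s2 R := by
  induction E generalizing L with
  | nil => simp [cs, bl]
  | cons e E ih =>
    have e1 : (cs (e :: E)).map (Fr n) ++ R = Fr n .hash ::
        ((cE e (List.finRange n)).map (Fr n) ++ ((cs E).map (Fr n) ++ R)) := by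
      rw [cs_cons, codeE_eq]
      simp
    have e2 : (bl (cs (e :: E))).reverse ++ L = (bl (cs E)).reverse ++
        ((bl (cE e (List.finRange n))).reverse ++ (B n :: L)) := by
      rw [cs_cons, codeE_eq, List.cons_append, bl_cons, bl_app]
      simp only [List.reverse_cons, List.reverse_append, List.append_assoc, List.cons_append,
        List.nil_append]
    rw [e1, e2, s2_hash, s2_eds, ih]

lemma s1_rest (E : List (Vx n × Vx n)) (L : List (Sym (Wk n) × Bool)) :
    ZA n strict L .s1 ((cs E).map (Fr n) ++ (Fr n .dollar :: R)) ↔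
      ZA n strict (B n :: ((bl (cs E)).reverse ++ L)) .s0 R := by
  cases E with
  | nil =>
    simp only [cs, List.map_nil, List.flatten_nil, List.nil_append, bl, List.reverse_nil]
    exact s1_dollar
  | cons e E =>
    have e1 : (cs (e :: E)).map (Fr n) ++ (Fr n .dollar :: R) = Fr n .hash ::
        ((cE e (List.finRange n)).map (Fr n) ++ ((cs E).map (Fr n) ++ (Fr n .dollar :: R))) := by
      rw [cs_cons, codeE_eq]
      simp
    have e2 : (bl (cs (e :: E))).reverse ++ L = (bl (cs E)).reverse ++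
        ((bl (cE e (List.finRange n))).reverse ++ (B n :: L)) := by
      rw [cs_cons, codeE_eq, List.cons_append, bl_cons, bl_app]
      simp only [List.reverse_cons, List.reverse_append, List.append_assoc, List.cons_append,
        List.nil_append]
    rw [e1, e2, s1_hash, s2_eds, s2_cs, s2_dollar]

/-- the contents of the cells of a relation with a chosen edge -/
def pick (E₁ : List (Vx n × Vx n)) (e : Vx n × Vx n) (E₂ : List (Vx n × Vx n)) :
    List (Sym (Wk n) × Bool) :=
  bl (cs E₁) ++ (B n :: (List.finRange n).map (K n e)) ++ bl (cs E₂) ++ [B n]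

lemma s0_cs (E : List (Vx n × Vx n)) (L : List (Sym (Wk n) × Bool)) :
    ZA n strict L .s0 ((cs E).map (Fr n) ++ (Fr n .dollar :: R)) ↔
      ∃ E₁ e E₂, E = E₁ ++ e :: E₂ ∧ ZA n strict ((pick E₁ e E₂).reverse ++ L) .s0 R := by
  induction E generalizing L with
  | nil =>
    simp only [cs, List.map_nil, List.flatten_nil, List.nil_append]
    constructor
    · intro h
      exact absurd h s0_dollar
    · rintro ⟨E₁, e, E₂, h, -⟩
      simp at h
  | cons e E ih =>
    have e1 : (cs (e :: E)).map (Fr n) ++ (Fr n .dollar :: R) = Fr n .hash ::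
        ((cE e (List.finRange n)).map (Fr n) ++ ((cs E).map (Fr n) ++ (Fr n .dollar :: R))) := by
      rw [cs_cons, codeE_eq]
      simp
    rw [e1, s0_hash, s0_eds, s1_eds, s1_rest, ih]
    constructor
    · rintro (⟨E₁, e', E₂, rfl, h⟩ | h)
      · refine ⟨e :: E₁, e', E₂, rfl, ?_⟩
        have e2 : (pick (e :: E₁) e' E₂).reverse ++ L = (pick E₁ e' E₂).reverse ++
            ((bl (cE e (List.finRange n))).reverse ++ (B n :: L)) := by
          unfold pick
          rw [cs_cons, codeE_eq, List.cons_append, bl_cons, bl_app]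
          simp only [List.reverse_cons, List.reverse_append, List.append_assoc, List.cons_append,
            List.nil_append]
        rwa [e2]
      · refine ⟨[], e, E, rfl, ?_⟩
        have e2 : (pick [] e E).reverse ++ L = B n :: ((bl (cs E)).reverse ++
            (((List.finRange n).map (K n e)).reverse ++ (B n :: L))) := by
          unfold pick
          simp [bl, cs]
        rwa [e2]
    · rintro ⟨E₁, e', E₂, h, h'⟩
      cases E₁ with
      | nil =>
        rw [List.nil_append, List.cons.injEq] at h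
        obtain ⟨rfl, rfl⟩ := h
        right
        have e2 : (pick [] e E).reverse ++ L = B n :: ((bl (cs E)).reverse ++
            (((List.finRange n).map (K n e)).reverse ++ (B n :: L))) := by
          unfold pick
          simp [bl, cs]
        rwa [e2] at h'
      | cons e₁ E₁ =>
        rw [List.cons_append, List.cons.injEq] at h
        obtain ⟨rfl, rfl⟩ := h
        left
        refine ⟨E₁, e', E₂, rfl, ?_⟩
        have e2 : (pick (e :: E₁) e' E₂).reverse ++ L = (pick E₁ e' E₂).reverse ++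
            ((bl (cE e (List.finRange n))).reverse ++ (B n :: L)) := by
          unfold pick
          rw [cs_cons, codeE_eq, List.cons_append, bl_cons, bl_app]
          simp only [List.reverse_cons, List.reverse_append, List.append_assoc, List.cons_append,
            List.nil_append]
        rwa [e2] at h'

end first

/-- the chosen edges and the contents for a list of relations -/
inductive Ch : List (Finset (Vx n × Vx n)) → List (Vx n × Vx n) → List (Sym (Wk n) × Bool) → Prop
  | nil : Ch [] [] []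
  | cons (X : Finset (Vx n × Vx n)) (l : List (Finset (Vx n × Vx n)))
      (E₁ : List (Vx n × Vx n)) (e : Vx n × Vx n) (E₂ es : List (Vx n × Vx n))
      (D : List (Sym (Wk n) × Bool)) (h : X.toList = E₁ ++ e :: E₂) (h' : Ch l es D) :
      Ch (X :: l) (e :: es) (pick E₁ e E₂ ++ D)

lemma s0_code (l : List (Finset (Vx n × Vx n))) (L R : List (Sym (Wk n) × Bool)) :
    ZA n strict L .s0 ((code n l).map (Fr n) ++ R) ↔
      ∃ es D, Ch l es D ∧ ZA n strict (D.reverse ++ L) .s0 R := by
  induction l generalizing L with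
  | nil =>
    simp only [code, List.map_nil, List.flatten_nil, List.nil_append]
    constructor
    · intro h
      exact ⟨[], [], .nil, h⟩
    · rintro ⟨es, D, h, h'⟩
      cases h
      exact h'
  | cons X l ih =>
    have e1 : (code n (X :: l)).map (Fr n) ++ R =
        (cs X.toList).map (Fr n) ++ (Fr n .dollar :: ((code n l).map (Fr n) ++ R)) := by
      simp [code, codeX, cs]
    rw [e1, s0_cs]
    constructor
    · rintro ⟨E₁, e, E₂, h, h'⟩
      rw [ih] at h'
      obtain ⟨es, D, hD, h''⟩ := h'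
      refine ⟨e :: es, pick E₁ e E₂ ++ D, .cons X l E₁ e E₂ es D h hD, ?_⟩
      rw [List.reverse_append, List.append_assoc]
      exact h''
    · rintro ⟨es', D', hD', h''⟩
      cases hD' with
      | cons _ _ E₁ e E₂ es D h hD =>
        refine ⟨E₁, e, E₂, h, ?_⟩
        rw [ih]
        refine ⟨es, D, hD, ?_⟩
        rw [List.reverse_append, List.append_assoc] at h''
        exact h''

/-! ### the passes -/

/-- the visited cells with a symbol -/
def Vis (D : List (Sym (Wk n) × Bool)) : Prop := ∀ c ∈ D, ∃ b, c = (.sym b, true)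

lemma vis_bl (w : List (Ltr n)) : Vis (bl w) := by
  intro c hc
  unfold bl at hc
  rw [List.mem_map] at hc
  obtain ⟨a, -, rfl⟩ := hc
  exact ⟨.blank, rfl⟩

lemma vis_app {D D' : List (Sym (Wk n) × Bool)} (h : Vis D) (h' : Vis D') : Vis (D ++ D') := by
  intro c hc
  rcases List.mem_append.1 hc with hc | hc
  · exact h c hc
  · exact h' c hc

lemma vis_B : Vis [B n] := by
  intro c hc
  rw [List.mem_singleton] at hc
  exact ⟨.blank, hc⟩

lemma vis_K (e : Vx n × Vx n) (ts : List (Fin n)) : Vis (ts.map (K n e)) := by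
  intro c hc
  rw [List.mem_map] at hc
  obtain ⟨t, -, rfl⟩ := hc
  exact ⟨_, rfl⟩

lemma vis_pick (E₁ : List (Vx n × Vx n)) (e : Vx n × Vx n) (E₂ : List (Vx n × Vx n)) :
    Vis (pick E₁ e E₂) := by
  unfold pick
  refine vis_app (vis_app (vis_app (vis_bl _) ?_) (vis_bl _)) vis_B
  have : (B n :: (List.finRange n).map (K n e)) = [B n] ++ (List.finRange n).map (K n e) := rfl
  rw [this]
  exact vis_app vis_B (vis_K _ _)

lemma vis_ch {l : List (Finset (Vx n × Vx n))} {es : List (Vx n × Vx n)}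
    {D : List (Sym (Wk n) × Bool)} (h : Ch l es D) : Vis D := by
  induction h with
  | nil =>
    intro c hc
    simp at hc
  | cons X l E₁ e E₂ es D h h' ih => exact vis_app (vis_pick _ _ _) ih

/-- going back to the left end-marker -/
lemma rewind (j : Fin n) (f : Bool) (D : List (Sym (Wk n) × Bool)) (hD : Vis D)
    (R : List (Sym (Wk n) × Bool)) :
    (∃ l L', D ++ [(Sym.lm, f)] = l :: L' ∧ ZA n strict L' (.rew j) (l :: R)) ↔
      ZA n strict [] (.rew j) ((Sym.lm, f) :: (D.reverse ++ R)) := by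
  induction D generalizing R with
  | nil =>
    simp only [List.nil_append, List.reverse_nil]
    constructor
    · rintro ⟨l, L', h, h'⟩
      rw [List.cons.injEq] at h
      obtain ⟨rfl, rfl⟩ := h
      exact h'
    · intro h
      exact ⟨_, _, rfl, h⟩
  | cons c D ih =>
    obtain ⟨b, rfl⟩ := hD _ List.mem_cons_self
    have hD' : Vis D := fun c hc => hD c (List.mem_cons_of_mem _ hc)
    have e1 : ((Sym.sym b, true) :: D).reverse ++ R = D.reverse ++ ((Sym.sym b, true) :: R) := by
      simp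
    rw [e1, ← ih hD']
    constructor
    · rintro ⟨l, L', h, h'⟩
      rw [List.cons_append, List.cons.injEq] at h
      obtain ⟨rfl, rfl⟩ := h
      rw [step_gen (by simp [dl, Sym.rewrite])] at h'
      simpa [dl, Sym.rewrite] using h'
    · intro h
      refine ⟨_, _, rfl, ?_⟩
      rw [step_gen (by simp [dl, Sym.rewrite])]
      simpa [dl, Sym.rewrite] using h

lemma rew_lm (j : Fin n) (f : Bool) (R : List (Sym (Wk n) × Bool)) :
    ZA n strict [] (.rew j) ((Sym.lm, f) :: R) ↔
      ∃ r, ZA n strict [(Sym.lm, true)] (.pas j r) R := by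
  rw [step_gen (by simp [dl, Sym.rewrite])]
  simp [dl, Sym.rewrite]
  exact or_comm

lemma pas_B {j : Fin n} {r : Bool} {L R : List (Sym (Wk n) × Bool)} :
    ZA n strict L (.pas j r) (B n :: R) ↔ ZA n strict (B n :: L) (.pas j r) R := by
  unfold B
  rw [step_gen (by simp [dl, Sym.rewrite])]
  simp [dl, Sym.rewrite]

lemma pas_K_ne {j : Fin n} {r : Bool} {L R : List (Sym (Wk n) × Bool)} {e : Vx n × Vx n}
    {t : Fin n} (h : t ≠ j) :
    ZA n strict L (.pas j r) (K n e t :: R) ↔ ZA n strict (K n e t :: L) (.pas j r) R := by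
  unfold K
  rw [step_gen (by
    rintro - ⟨q, b, d⟩ hx
    simp only [dl, Set.mem_ofPred_eq, Prod.mk.injEq] at hx
    rcases hx with ⟨-, -, rfl, -⟩ | ⟨-, -, -, rfl, -⟩ <;> rfl)]
  simp [dl, Sym.rewrite, h]

lemma pas_K_eq {j : Fin n} {r : Bool} {L R : List (Sym (Wk n) × Bool)} {e : Vx n × Vx n} :
    ZA n strict L (.pas j r) (K n e j :: R) ↔
      r = e.1 j ∧ ZA n strict (K n e j :: L) (.pas j (e.2 j)) R := by
  unfold K
  rw [step_gen (by
    rintro - ⟨q, b, d⟩ hx
    simp only [dl, Set.mem_ofPred_eq, Prod.mk.injEq] at hx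
    rcases hx with ⟨-, -, rfl, -⟩ | ⟨-, -, -, rfl, -⟩ <;> rfl)]
  simp [dl, Sym.rewrite]

lemma pas_bl (j : Fin n) (r : Bool) (w : List (Ltr n)) (L R : List (Sym (Wk n) × Bool)) :
    ZA n strict L (.pas j r) (bl w ++ R) ↔ ZA n strict ((bl w).reverse ++ L) (.pas j r) R := by
  induction w generalizing L with
  | nil => simp [bl]
  | cons a w ih =>
    have e1 : bl (a :: w) ++ R = B n :: (bl w ++ R) := by simp [bl]
    have e2 : (bl (a :: w)).reverse ++ L = (bl w).reverse ++ (B n :: L) := by simp [bl]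
    rw [e1, e2, pas_B, ih]

lemma pas_notMem (j : Fin n) (r : Bool) (e : Vx n × Vx n) (ts : List (Fin n)) (h : j ∉ ts)
    (L R : List (Sym (Wk n) × Bool)) :
    ZA n strict L (.pas j r) (ts.map (K n e) ++ R) ↔
      ZA n strict ((ts.map (K n e)).reverse ++ L) (.pas j r) R := by
  induction ts generalizing L with
  | nil => simp
  | cons t ts ih =>
    rw [List.mem_cons, not_or] at h
    have e1 : (t :: ts).map (K n e) ++ R = K n e t :: (ts.map (K n e) ++ R) := by simp
    have e2 : ((t :: ts).map (K n e)).reverse ++ L =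
        (ts.map (K n e)).reverse ++ (K n e t :: L) := by simp
    rw [e1, e2, pas_K_ne (Ne.symm h.1), ih h.2]

lemma pas_mem (j : Fin n) (r : Bool) (e : Vx n × Vx n) (ts : List (Fin n)) (h : j ∈ ts)
    (hts : ts.Nodup) (L R : List (Sym (Wk n) × Bool)) :
    ZA n strict L (.pas j r) (ts.map (K n e) ++ R) ↔
      r = e.1 j ∧ ZA n strict ((ts.map (K n e)).reverse ++ L) (.pas j (e.2 j)) R := by
  induction ts generalizing L with
  | nil => simp at h
  | cons t ts ih =>
    have e1 : (t :: ts).map (K n e) ++ R = K n e t :: (ts.map (K n e) ++ R) := by simp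
    have e2 : ((t :: ts).map (K n e)).reverse ++ L =
        (ts.map (K n e)).reverse ++ (K n e t :: L) := by simp
    rw [List.nodup_cons] at hts
    by_cases ht : t = j
    · subst ht
      rw [e1, e2, pas_K_eq, pas_notMem _ _ _ _ hts.1]
    · have h' : j ∈ ts := by
        rcases List.mem_cons.1 h with h | h
        · exact absurd h.symm ht
        · exact h
      rw [e1, e2, pas_K_ne ht, ih h' hts.2]

/-- compatibility of the chosen edges in the place `j` -/
def ok (j : Fin n) : Bool → List (Vx n × Vx n) → Prop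
  | _, [] => True
  | r, e :: es => r = e.1 j ∧ ok j (e.2 j) es

lemma pas_pick (j : Fin n) (r : Bool) (E₁ : List (Vx n × Vx n)) (e : Vx n × Vx n)
    (E₂ : List (Vx n × Vx n)) (L R : List (Sym (Wk n) × Bool)) :
    ZA n strict L (.pas j r) (pick E₁ e E₂ ++ R) ↔
      r = e.1 j ∧ ZA n strict ((pick E₁ e E₂).reverse ++ L) (.pas j (e.2 j)) R := by
  have e1 : pick E₁ e E₂ ++ R = bl (cs E₁) ++ (B n :: ((List.finRange n).map (K n e) ++
      (bl (cs E₂) ++ (B n :: R)))) := by
    unfold pick
    simp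
  have e2 : (pick E₁ e E₂).reverse ++ L = B n :: ((bl (cs E₂)).reverse ++
      (((List.finRange n).map (K n e)).reverse ++ (B n :: ((bl (cs E₁)).reverse ++ L)))) := by
    unfold pick
    simp
  rw [e1, e2, pas_bl, pas_B, pas_mem _ _ _ _ (List.mem_finRange j) (List.nodup_finRange n), pas_bl,
    pas_B]

/-- the bit after the pass -/
def en (j : Fin n) : Bool → List (Vx n × Vx n) → Bool
  | r, [] => r
  | _, e :: es => en j (e.2 j) es

lemma pas_ch {l : List (Finset (Vx n × Vx n))} {es : List (Vx n × Vx n)}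
    {D : List (Sym (Wk n) × Bool)} (h : Ch l es D) (j : Fin n) (r : Bool)
    (L R : List (Sym (Wk n) × Bool)) :
    ZA n strict L (.pas j r) (D ++ R) ↔
      ok j r es ∧ ZA n strict (D.reverse ++ L) (.pas j (en j r es)) R := by
  induction h generalizing r L with
  | nil => simp [ok, en]
  | cons X l E₁ e E₂ es D h h' ih =>
    rw [List.append_assoc, pas_pick, ih, List.reverse_append, List.append_assoc]
    simp only [ok, en]
    tauto

lemma pas_rm {j : Fin n} {r : Bool} {f : Bool} {L : List (Sym (Wk n) × Bool)} :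
    ZA n strict L (.pas j r) [(Sym.rm, f)] ↔ j.val + 1 = n ∨
      ∃ i : Fin n, i.val = j.val + 1 ∧ ∃ l L', L = l :: L' ∧
        ZA n strict L' (.rew i) [l, (Sym.rm, true)] := by
  rw [step_gen (by intro _ x _; rfl)]
  constructor
  · rintro ⟨⟨q, b, d⟩, hx, h⟩
    simp only [dl, Set.mem_ofPred_eq, Prod.mk.injEq] at hx
    rcases hx with ⟨i, hi, rfl, rfl, rfl⟩ | ⟨hj, rfl, rfl, rfl⟩
    · right
      rcases h with ⟨h, -⟩ | ⟨-, l, L', hL, h⟩
      · simp at h
      · exact ⟨i, hi, l, L', hL, h⟩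
    · exact Or.inl hj
  · rintro (hj | ⟨i, hi, l, L', hL, h⟩)
    · refine ⟨(.acc, .blank, true), ?_, Or.inl ⟨rfl, ?_⟩⟩
      · simp only [dl, Set.mem_ofPred_eq]
        first
          | exact Or.inr ⟨hj, rfl⟩
          | exact Or.inr ⟨hj, trivial⟩
      · exact zacc_nil.2 rfl
    · refine ⟨(.rew i, .blank, false), ?_, Or.inr ⟨rfl, l, L', hL, h⟩⟩
      simp only [dl, Set.mem_ofPred_eq]
      exact Or.inl ⟨i, hi, rfl⟩

lemma main_pass {l : List (Finset (Vx n × Vx n))} {es : List (Vx n × Vx n)}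
    {D : List (Sym (Wk n) × Bool)} (h : Ch l es D) (k : ℕ) :
    ∀ (j : Fin n), j.val + k + 1 = n → ∀ f g : Bool,
      (ZA n strict [] (.rew j) ((Sym.lm, f) :: (D ++ [(Sym.rm, g)])) ↔
        ∀ i : Fin n, j.val ≤ i.val → ∃ r, ok i r es) := by
  induction k with
  | zero =>
    intro j hj f g
    rw [rew_lm]
    simp only [pas_ch h, pas_rm]
    constructor
    · rintro ⟨r, h1, -⟩ i hi
      have : i = j := by
        ext
        have := i.2
        omega
      rw [this]
      exact ⟨r, h1⟩
    · intro h1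
      obtain ⟨r, hr⟩ := h1 j le_rfl
      exact ⟨r, hr, Or.inl hj⟩
  | succ k ih =>
    intro j hj f g
    rw [rew_lm]
    simp only [pas_ch h, pas_rm]
    have hj1 : j.val + 1 < n := by omega
    have key : (∃ i : Fin n, i.val = j.val + 1 ∧ ∃ l L', D.reverse ++ [(Sym.lm, true)] = l :: L' ∧
        ZA n strict L' (.rew i) [l, (Sym.rm, true)]) ↔
        ∀ i : Fin n, j.val + 1 ≤ i.val → ∃ r, ok i r es := by
      have hv : Vis D.reverse := fun c hc => vis_ch h c (List.mem_reverse.1 hc)
      constructor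
      · rintro ⟨i, hi, h1⟩
        have h2 := (rewind (strict := strict) i true D.reverse hv [(Sym.rm, true)]).1 h1
        rw [List.reverse_reverse] at h2
        have h3 := (ih i (by omega) true true).1 h2
        intro i' hi'
        exact h3 i' (by omega)
      · intro h1
        refine ⟨⟨j.val + 1, hj1⟩, rfl, ?_⟩
        refine (rewind (strict := strict) _ true D.reverse hv [(Sym.rm, true)]).2 ?_
        rw [List.reverse_reverse]
        exact (ih _ (by simp only; omega) true true).2 h1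
    constructor
    · rintro ⟨r, h1, h2⟩ i hi
      rcases h2 with h2 | h2
      · omega
      · rcases Nat.eq_or_lt_of_le hi with h3 | h3
        · have : i = j := by
            ext
            exact h3.symm
          rw [this]
          exact ⟨r, h1⟩
        · exact key.1 h2 i h3
    · intro h1
      obtain ⟨r, hr⟩ := h1 j le_rfl
      exact ⟨r, hr, Or.inr (key.2 fun i hi => h1 i (by omega))⟩

/-! ### live words -/

/-- the compatibility of the chosen edges -/
def okv : Vx n → List (Vx n × Vx n) → Prop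
  | _, [] => True
  | v, e :: es => v = e.1 ∧ okv e.2 es

lemma okv_iff (v : Vx n) (es : List (Vx n × Vx n)) : okv v es ↔ ∀ j, ok j (v j) es := by
  induction es generalizing v with
  | nil => simp [okv, ok]
  | cons e es ih =>
    simp only [okv, ok, ih]
    constructor
    · rintro ⟨rfl, h⟩ j
      exact ⟨rfl, h j⟩
    · intro h
      exact ⟨funext fun j => (h j).1, fun j => (h j).2⟩

lemma exists_ok (es : List (Vx n × Vx n)) : (∀ j, ∃ r, ok j r es) ↔ ∃ v : Vx n, okv v es := by
  constructor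
  · intro h
    choose v hv using h
    exact ⟨v, (okv_iff v es).2 hv⟩
  · rintro ⟨v, hv⟩ j
    exact ⟨v j, (okv_iff v es).1 hv j⟩

lemma rl_iff (l : List (Finset (Vx n × Vx n))) (u : Vx n) :
    (∃ v, Rl l u v) ↔ ∃ es, (∃ D, Ch l es D) ∧ okv u es := by
  induction l generalizing u with
  | nil =>
    constructor
    · intro _
      exact ⟨[], ⟨[], .nil⟩, trivial⟩
    · intro _
      exact ⟨u, rfl⟩
  | cons X l ih =>
    constructor
    · rintro ⟨v, m, hm, h⟩
      obtain ⟨es, ⟨D, hD⟩, hes⟩ := (ih m).1 ⟨v, h⟩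
      obtain ⟨E₁, E₂, hE⟩ := List.append_of_mem (Finset.mem_toList.2 hm)
      exact ⟨(u, m) :: es, ⟨_, .cons X l E₁ (u, m) E₂ es D hE hD⟩, rfl, hes⟩
    · rintro ⟨es', ⟨D', hD'⟩, hes⟩
      cases hD' with
      | cons _ _ E₁ e E₂ es D hE hD =>
        obtain ⟨rfl, h2⟩ := hes
        obtain ⟨v, hv⟩ := (ih e.2).2 ⟨es, ⟨D, hD⟩, h2⟩
        refine ⟨v, e.2, ?_, hv⟩
        rw [← Finset.mem_toList, hE]
        simp

lemma s0_rm {f : Bool} (hn : 1 ≤ n) {L : List (Sym (Wk n) × Bool)} :
    ZA n strict L .s0 [(Sym.rm, f)] ↔ ∃ l L', L = l :: L' ∧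
      ZA n strict L' (.rew ⟨0, hn⟩) [l, (Sym.rm, true)] := by
  rw [step_gen (by intro _ x _; rfl)]
  constructor
  · rintro ⟨⟨q, b, d⟩, hx, h⟩
    simp only [dl, Set.mem_ofPred_eq, Prod.mk.injEq] at hx
    obtain ⟨j, hj, rfl, rfl, rfl⟩ := hx
    have e : j = ⟨0, hn⟩ := by
      ext
      exact hj
    subst e
    rcases h with ⟨h, -⟩ | ⟨-, l, L', hL, h⟩
    · simp at h
    · exact ⟨l, L', hL, h⟩
  · rintro ⟨l, L', hL, h⟩
    refine ⟨(.rew ⟨0, hn⟩, .blank, false), ?_, Or.inr ⟨rfl, l, L', hL, h⟩⟩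
    simp only [dl, Set.mem_ofPred_eq]
    exact ⟨⟨0, hn⟩, rfl, rfl⟩

end Mach

open Mach in
/-- LA-4 -/
theorem mach : St_mach := by
  intro strict n hn l
  have e0 : iniR (Mn n) (code n l) = (code n l).map (Fr n) ++ [(Sym.rm, false)] := rfl
  have h1 : ZAcc strict (Mn n) (iniL _) (Mn n).q0 (iniR _ (code n l)) ↔
      ZA n strict [(Sym.lm, false)] .s0 ((code n l).map (Fr n) ++ [(Sym.rm, false)]) := Iff.rfl
  rw [h1, s0_code]
  have h2 : ∀ es D, Ch l es D → (ZA n strict (D.reverse ++ [(Sym.lm, false)]) .s0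
      [(Sym.rm, false)] ↔ ∃ u : Vx n, okv u es) := by
    intro es D hD
    have hv : Vis D.reverse := fun c hc => vis_ch hD c (List.mem_reverse.1 hc)
    rw [s0_rm hn, rewind _ _ _ hv, List.reverse_reverse,
      main_pass hD (n - 1) ⟨0, hn⟩ (by simp only; omega), ← exists_ok]
    constructor
    · intro h j
      exact h j (Nat.zero_le _)
    · intro h j _
      exact h j
  unfold Live
  constructor
  · rintro ⟨es, D, hD, h⟩
    obtain ⟨u, hu⟩ := (h2 es D hD).1 h
    exact ⟨u, (rl_iff l u).2 ⟨es, ⟨D, hD⟩, hu⟩⟩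
  · rintro ⟨u, h⟩
    obtain ⟨es, ⟨D, hD⟩, hu⟩ := (rl_iff l u).1 h
    exact ⟨es, D, hD, (h2 es D hD).2 ⟨u, hu⟩⟩

end Pool.Agent.NH19.LA
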