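import Pool.Agent.NH19.LA.Stm

set_option autoImplicit false

/-!
LA-5 (project of helper19): size of the machine, and the machine is sweeping.  By helper49.
-/

namespace Pool.Agent.NH19.LA

open Pool.Agent.H630R2.LA Pool.Agent.R620.KV

namespace Size49

/-- the letters -/
def eL (n : ℕ) : Ltr n ≃ Bool ⊕ (Bool × Bool × Fin n) where
  toFun
    | .hash => Sum.inl true
    | .dollar => Sum.inl false
    | .ed a b t => Sum.inr (a, b, t)
  invFun
    | Sum.inl true => .hash
    | Sum.inl false => .dollar
    | Sum.inr (a, b, t) => .ed a b t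
  left_inv := by
    intro x
    cases x <;> rfl
  right_inv := by
    intro x
    rcases x with (_ | _) | ⟨a, b, t⟩ <;> rfl

def eW (n : ℕ) : Wk n ≃ Ltr n ⊕ Unit ⊕ (Bool × Bool × Fin n) where
  toFun
    | .inp a => Sum.inl a
    | .blank => Sum.inr (Sum.inl ())
    | .mk a b t => Sum.inr (Sum.inr (a, b, t))
  invFun
    | Sum.inl a => .inp a
    | Sum.inr (Sum.inl _) => .blank
    | Sum.inr (Sum.inr (a, b, t)) => .mk a b t
  left_inv := by
    intro x
    cases x <;> rfl
  right_inv := by
    intro x
    rcases x with a | _ | ⟨a, b, t⟩ <;> rfl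

def eS (n : ℕ) : St n ≃ (Option (Option (Option Unit))) ⊕ Fin n ⊕ (Fin n × Bool) where
  toFun
    | .s0 => Sum.inl none
    | .s1 => Sum.inl (some none)
    | .s2 => Sum.inl (some (some none))
    | .acc => Sum.inl (some (some (some ())))
    | .rew j => Sum.inr (Sum.inl j)
    | .pas j r => Sum.inr (Sum.inr (j, r))
  invFun
    | Sum.inl none => .s0
    | Sum.inl (some none) => .s1
    | Sum.inl (some (some none)) => .s2
    | Sum.inl (some (some (some _))) => .acc
    | Sum.inr (Sum.inl j) => .rew j
    | Sum.inr (Sum.inr (j, r)) => .pas j r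
  left_inv := by
    intro x
    cases x <;> rfl
  right_inv := by
    intro x
    rcases x with (_ | _ | _ | _) | j | ⟨j, r⟩ <;> rfl

def eY (W : Type) : Sym W ≃ Option (Option W) where
  toFun
    | .lm => none
    | .rm => some none
    | .sym w => some (some w)
  invFun
    | none => .lm
    | some none => .rm
    | some (some w) => .sym w
  left_inv := by
    intro x
    cases x <;> rfl
  right_inv := by
    intro x
    rcases x with _ | _ | _ <;> rfl

lemma card_L (n : ℕ) : Nat.card (Ltr n) = 4 * n + 2 := by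
  rw [Nat.card_congr (eL n)]
  simp
  ring

lemma card_W (n : ℕ) : Nat.card (Wk n) = 8 * n + 3 := by
  rw [Nat.card_congr (eW n), Nat.card_sum, Nat.card_sum, card_L]
  simp
  ring

lemma card_S (n : ℕ) : Nat.card (St n) = 3 * n + 4 := by
  rw [Nat.card_congr (eS n)]
  simp
  ring

lemma two (n : ℕ) (p : St n) (σ : Sym (Wk n)) : ∃ g : Bool → St n × Wk n × Bool,
    dl n p σ ⊆ Set.range g := by
  have hemp : ∃ g : Bool → St n × Wk n × Bool, (∅ : Set (St n × Wk n × Bool)) ⊆ Set.range g :=
    ⟨fun _ => (.acc, .blank, true), Set.empty_subset _⟩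
  have hone : ∀ a : St n × Wk n × Bool, ∃ g : Bool → St n × Wk n × Bool,
      ({a} : Set (St n × Wk n × Bool)) ⊆ Set.range g := fun a => by
    refine ⟨fun _ => a, ?_⟩
    rintro x rfl
    exact ⟨true, rfl⟩
  have htwo : ∀ a b : St n × Wk n × Bool, ∃ g : Bool → St n × Wk n × Bool,
      ({a, b} : Set (St n × Wk n × Bool)) ⊆ Set.range g := fun a b => by
    refine ⟨fun t => if t = true then a else b, ?_⟩
    rintro x (rfl | rfl)
    · exact ⟨true, rfl⟩
    · exact ⟨false, rfl⟩
  rcases p with _ | _ | _ | j | ⟨j, r⟩ | _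
  · rcases σ with _ | _ | w
    · exact hemp
    · by_cases h : 0 < n
      · obtain ⟨g, hg⟩ := hone (.rew ⟨0, h⟩, .blank, false)
        refine ⟨g, fun x hx => hg ?_⟩
        obtain ⟨j, hj, rfl⟩ := hx
        have : j = ⟨0, h⟩ := Fin.ext hj
        rw [this]
        rfl
      · refine ⟨fun _ => (.acc, .blank, true), ?_⟩
        rintro x ⟨j, _, _⟩
        exact absurd j.isLt (by omega)
    · rcases w with (_ | _ | _) | _ | _
      · exact htwo _ _
      · exact hemp
      · exact hone _
      · exact hemp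
      · exact hemp
  · rcases σ with _ | _ | w
    · exact hemp
    · exact hemp
    · rcases w with (_ | _ | _) | _ | _
      · exact hone _
      · exact hone _
      · exact hone _
      · exact hemp
      · exact hemp
  · rcases σ with _ | _ | w
    · exact hemp
    · exact hemp
    · rcases w with (_ | _ | _) | _ | _
      · exact hone _
      · exact hone _
      · exact hone _
      · exact hemp
      · exact hemp
  · rcases σ with _ | _ | w
    · exact htwo _ _
    · exact hemp
    · exact hone _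
  · rcases σ with _ | _ | w
    · exact hemp
    · by_cases h : j.val + 1 < n
      · obtain ⟨g, hg⟩ := htwo (.rew ⟨j.val + 1, h⟩, .blank, false) (.acc, .blank, true)
        refine ⟨g, fun x hx => hg ?_⟩
        rcases hx with ⟨i, hi, rfl⟩ | ⟨_, rfl⟩
        · left
          have : i = ⟨j.val + 1, h⟩ := Fin.ext hi
          rw [this]
        · right
          rfl
      · obtain ⟨g, hg⟩ := hone (.acc, .blank, true)
        refine ⟨g, fun x hx => hg ?_⟩
        rcases hx with ⟨i, hi, rfl⟩ | ⟨_, rfl⟩
        · exact absurd i.isLt (by omega)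
        · rfl
    · rcases w with (_ | _ | _) | _ | ⟨a, b, t⟩
      · exact hemp
      · exact hemp
      · exact hemp
      · exact hone _
      · obtain ⟨g, hg⟩ := htwo (.pas j r, .mk a b t, true) (.pas j b, .mk a b t, true)
        refine ⟨g, fun x hx => hg ?_⟩
        rcases hx with ⟨_, rfl⟩ | ⟨_, _, rfl⟩
        · left; rfl
        · right; rfl
  · rcases σ with _ | _ | w
    · exact hemp
    · exact hemp
    · exact hemp

lemma trans_le (n : ℕ) : (Mn n).numTrans ≤ (3 * n + 4) * (8 * n + 5) * 2 := by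
  choose g hg using two n
  have hsub : {t : St n × Sym (Wk n) × St n × Wk n × Bool | t.2.2 ∈ dl n t.1 t.2.1} ⊆
      Set.range (fun x : (St n × Option (Option (Wk n))) × Bool =>
        (x.1.1, (eY (Wk n)).symm x.1.2, g x.1.1 ((eY (Wk n)).symm x.1.2) x.2)) := by
    rintro ⟨p, σ, z⟩ hz
    obtain ⟨b, hb⟩ := hg p σ hz
    refine ⟨((p, eY (Wk n) σ), b), ?_⟩
    simp only [Equiv.symm_apply_apply]
    rw [hb]
  have hfin : Finite (Sym (Wk n)) := Finite.of_equiv _ (eY (Wk n)).symm
  have h1 := Set.ncard_le_ncard hsub (Set.toFinite _)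
  have h2 : (Set.range (fun x : (St n × Option (Option (Wk n))) × Bool =>
        (x.1.1, (eY (Wk n)).symm x.1.2, g x.1.1 ((eY (Wk n)).symm x.1.2) x.2))).ncard ≤
      Nat.card ((St n × Option (Option (Wk n))) × Bool) := by
    rw [← Set.image_univ, ← Set.ncard_univ]
    exact Set.ncard_image_le (Set.toFinite _)
  have h3 : Nat.card ((St n × Option (Option (Wk n))) × Bool) =
      (3 * n + 4) * (8 * n + 5) * 2 := by
    rw [Nat.card_prod, Nat.card_prod, Finite.card_option, Finite.card_option, card_S, card_W]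
    simp
  rw [← h3]
  exact h1.trans h2

lemma dir_enter (n : ℕ) (p q : St n) (σ : Sym (Wk n)) (b : Wk n) (d : Bool)
    (h : (q, b, d) ∈ dl n p σ) : d = false ↔ ∃ j, q = .rew j := by
  rcases p with _ | _ | _ | j | ⟨j, r⟩ | _ <;> rcases σ with _ | _ | ((_ | _ | _) | _ | _) <;>
    simp only [dl, Set.mem_insert_iff, Set.mem_singleton_iff, Set.mem_ofPred_eq,
      Set.mem_empty_iff_false, Prod.mk.injEq] at h <;>
    aesop

lemma dir_leave (n : ℕ) (p q : St n) (c b : Wk n) (d : Bool)
    (h : (q, b, d) ∈ dl n p (.sym c)) : d = false ↔ ∃ j, p = .rew j := by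
  rcases p with _ | _ | _ | j | ⟨j, r⟩ | _ <;> rcases c with ((_ | _ | _) | _ | _) <;>
    simp only [dl, Set.mem_insert_iff, Set.mem_singleton_iff, Set.mem_ofPred_eq,
      Set.mem_empty_iff_false, Prod.mk.injEq] at h <;>
    aesop

lemma tape_inv (strict : Prop) (n : ℕ) (w : List (Ltr n)) (T : ℕ) (f : ℕ → Cfg (Mn n))
    (hf : IsComp strict (Mn n) w T f) : ∀ t, t ≤ T → ∀ i, 1 ≤ i → i ≤ w.length →
      ∃ c, (f t).tape i = .sym c := by
  intro t
  induction t with
  | zero =>
    intro _ i hi hi2
    rw [hf.start]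
    obtain ⟨k, rfl⟩ : ∃ k, i = k + 1 := ⟨i - 1, by omega⟩
    have hk : k < w.length := by omega
    refine ⟨(Mn n).inp w[k], ?_⟩
    change initTape (Mn n) w (k + 1) = _
    rw [initTape, List.getElem?_eq_getElem hk]
  | succ t ih =>
    intro ht i hi hi2
    obtain ⟨c, hc⟩ := ih (by omega) i hi hi2
    obtain ⟨_, q, b, d, _, _, _, h1, h2, _, _, _⟩ := hf.step t (by omega)
    by_cases hs : (f t).pos ∈ (f t).seen
    · rw [h1 hs]
      exact ⟨c, hc⟩
    · rw [h2 hs]
      by_cases hp : i = (f t).pos
      · subst hp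
        rw [Function.update_self, hc]
        exact ⟨b, rfl⟩
      · rw [Function.update_of_ne hp]
        exact ⟨c, hc⟩

end Size49

open Size49

theorem size_Mn : St_size := by
  intro n
  have hQ : Nat.card (Mn n).Q = 3 * n + 4 := card_S n
  have hW : Nat.card (Mn n).W = 8 * n + 3 := card_W n
  refine ⟨hQ, hW, card_L n, ?_⟩
  have h : (Mn n).size = Nat.card (Mn n).Q + Nat.card (Ltr n) + (Nat.card (Mn n).W + 2) +
      5 * (Mn n).numTrans + 1 + ({St.acc} : Set (St n)).ncard := rfl
  rw [h, hQ, hW, card_L, Set.ncard_singleton]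
  have := trans_le n
  nlinarith

theorem sweep_Mn : St_sweep := by
  intro strict n w T f hf
  unfold turns
  have he : {t | t + 2 ≤ T ∧ (f (t + 2)).pos = (f t).pos ∧ 1 ≤ (f (t + 1)).pos ∧
      (f (t + 1)).pos ≤ w.length} = ∅ := by
    rw [Set.eq_empty_iff_forall_notMem]
    rintro t ⟨ht, hpos, h1, h2⟩
    obtain ⟨_, q, b, d, hd, _, hq, _, _, _, hr, hl⟩ := hf.step t (by omega)
    obtain ⟨_, q', b', d', hd', _, _, _, _, _, hr', hl'⟩ := hf.step (t + 1) (by omega)
    obtain ⟨c, hc⟩ := tape_inv strict n w T f hf (t + 1) (by omega) _ h1 h2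
    rw [hc] at hd'
    have e1 := dir_enter n _ _ _ _ _ hd
    have e2 := dir_leave n _ _ _ _ _ hd'
    rw [hq] at e2
    have e3 : d = false ↔ d' = false := e1.trans e2.symm
    cases hdd : d
    · have h3 : d' = false := e3.1 hdd
      have h4 := hl hdd
      have h5 := hl' h3
      rw [show t + 1 + 1 = t + 2 by ring] at h5
      omega
    · have h3 : d' = true := by
        cases hd2 : d'
        · have := e3.2 hd2
          rw [hdd] at this
          exact absurd this (by decide)
        · rfl
      have h4 := hr hdd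
      have h5 := hr' h3
      rw [show t + 1 + 1 = t + 2 by ring] at h5
      omega
  rw [he, Set.ncard_empty]

end Pool.Agent.NH19.LA
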