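import Mathlib
import Pool.Agent.NH19.LA.Size

set_option autoImplicit false

/-!
The running time of the machine.
-/

namespace Pool.Agent.NH19.LA

open Pool.Agent.H630R2.LA Pool.Agent.R620.KV

/-- The potential. -/
def mu (n N : ℕ) : St n → ℕ → ℕ
  | .s0, p => p
  | .s1, p => p
  | .s2, p => p
  | .rew j, p => 2 * (j.val * N) + N + (N - p)
  | .pas j _, p => 2 * (j.val * N) + 2 * N + p
  | .acc, p => 2 * (n * N) + p

theorem mu_step (n N : ℕ) (p q : St n) (σ : Sym (Wk n)) (b : Wk n) (d : Bool)
    (h : (q, b, d) ∈ dl n p σ) (x y : ℕ) (hx : x + 2 ≤ N) (h1 : d = true → y = x + 1)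
    (h2 : d = false → y + 1 = x) : mu n N p x + 1 ≤ mu n N q y := by
  rcases p with _ | _ | _ | j | ⟨j, r⟩ | _
  · rcases σ with _ | _ | ((_ | _ | _) | _ | _)
    · exact absurd h (Set.notMem_empty _)
    · obtain ⟨j, hj, he⟩ := h
      simp only [Prod.mk.injEq] at he
      obtain ⟨rfl, rfl, rfl⟩ := he
      have := h2 rfl
      simp only [mu]
      omega
    · simp only [dl, Set.mem_insert_iff, Set.mem_singleton_iff, Prod.mk.injEq] at h
      rcases h with ⟨rfl, rfl, rfl⟩ | ⟨rfl, rfl, rfl⟩ <;> have := h1 rfl <;> simp only [mu] <;> omega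
    · exact absurd h (Set.notMem_empty _)
    · simp only [dl, Set.mem_singleton_iff, Prod.mk.injEq] at h
      obtain ⟨rfl, rfl, rfl⟩ := h
      have := h1 rfl
      simp only [mu]
      omega
    · exact absurd h (Set.notMem_empty _)
    · exact absurd h (Set.notMem_empty _)
  · rcases σ with _ | _ | ((_ | _ | _) | _ | _)
    · exact absurd h (Set.notMem_empty _)
    · exact absurd h (Set.notMem_empty _)
    · simp only [dl, Set.mem_singleton_iff, Prod.mk.injEq] at h
      obtain ⟨rfl, rfl, rfl⟩ := h
      have := h1 rfl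
      simp only [mu]
      omega
    · simp only [dl, Set.mem_singleton_iff, Prod.mk.injEq] at h
      obtain ⟨rfl, rfl, rfl⟩ := h
      have := h1 rfl
      simp only [mu]
      omega
    · simp only [dl, Set.mem_singleton_iff, Prod.mk.injEq] at h
      obtain ⟨rfl, rfl, rfl⟩ := h
      have := h1 rfl
      simp only [mu]
      omega
    · exact absurd h (Set.notMem_empty _)
    · exact absurd h (Set.notMem_empty _)
  · rcases σ with _ | _ | ((_ | _ | _) | _ | _)
    · exact absurd h (Set.notMem_empty _)
    · exact absurd h (Set.notMem_empty _)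
    · simp only [dl, Set.mem_singleton_iff, Prod.mk.injEq] at h
      obtain ⟨rfl, rfl, rfl⟩ := h
      have := h1 rfl
      simp only [mu]
      omega
    · simp only [dl, Set.mem_singleton_iff, Prod.mk.injEq] at h
      obtain ⟨rfl, rfl, rfl⟩ := h
      have := h1 rfl
      simp only [mu]
      omega
    · simp only [dl, Set.mem_singleton_iff, Prod.mk.injEq] at h
      obtain ⟨rfl, rfl, rfl⟩ := h
      have := h1 rfl
      simp only [mu]
      omega
    · exact absurd h (Set.notMem_empty _)
    · exact absurd h (Set.notMem_empty _)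
  · rcases σ with _ | _ | c
    · simp only [dl, Set.mem_insert_iff, Set.mem_singleton_iff, Prod.mk.injEq] at h
      rcases h with ⟨rfl, rfl, rfl⟩ | ⟨rfl, rfl, rfl⟩ <;> have := h1 rfl <;> simp only [mu] <;> omega
    · exact absurd h (Set.notMem_empty _)
    · simp only [dl, Set.mem_singleton_iff, Prod.mk.injEq] at h
      obtain ⟨rfl, rfl, rfl⟩ := h
      have := h2 rfl
      simp only [mu]
      omega
  · rcases σ with _ | _ | ((_ | _ | _) | _ | ⟨a, b', t⟩)
    · exact absurd h (Set.notMem_empty _)
    · rcases h with ⟨i, hi, he⟩ | ⟨hi, he⟩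
      · simp only [Prod.mk.injEq] at he
        obtain ⟨rfl, rfl, rfl⟩ := he
        have := h2 rfl
        have h3 : i.val * N = j.val * N + N := by rw [hi]; ring
        simp only [mu]
        omega
      · simp only [Prod.mk.injEq] at he
        obtain ⟨rfl, rfl, rfl⟩ := he
        have := h1 rfl
        have h3 : n * N = j.val * N + N :=
          (congrArg (fun a => a * N) hi.symm).trans (by ring)
        simp only [mu]
        omega
    · exact absurd h (Set.notMem_empty _)
    · exact absurd h (Set.notMem_empty _)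
    · exact absurd h (Set.notMem_empty _)
    · simp only [dl, Set.mem_singleton_iff, Prod.mk.injEq] at h
      obtain ⟨rfl, rfl, rfl⟩ := h
      have := h1 rfl
      simp only [mu]
      omega
    · rcases h with ⟨_, he⟩ | ⟨_, _, he⟩ <;>
      · simp only [Prod.mk.injEq] at he
        obtain ⟨rfl, rfl, rfl⟩ := he
        have := h1 rfl
        simp only [mu]
        omega
  · rcases σ with _ | _ | c <;> exact absurd h (Set.notMem_empty _)

theorem mu_le (n N : ℕ) (q : St n) (x : ℕ) (hx : x < N) : mu n N q x < (2 * n + 1) * N := by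
  have h0 : (2 * n + 1) * N = 2 * (n * N) + N := by ring
  rw [h0]
  rcases q with _ | _ | _ | j | ⟨j, r⟩ | _ <;> simp only [mu]
  · omega
  · omega
  · omega
  · have h1 : j.val * N + N ≤ n * N := by
      have : j.val + 1 ≤ n := j.isLt
      calc j.val * N + N = (j.val + 1) * N := by ring
        _ ≤ _ := Nat.mul_le_mul_right _ this
    omega
  · have h1 : j.val * N + N ≤ n * N := by
      have : j.val + 1 ≤ n := j.isLt
      calc j.val * N + N = (j.val + 1) * N := by ring
        _ ≤ _ := Nat.mul_le_mul_right _ this
    omega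
  · omega

/-- The machine works in time `(2 n + 1) (|w| + 3)`. -/
theorem time_Mn (strict : Prop) (n : ℕ) (w : List (Ltr n)) (T : ℕ) (f : ℕ → Cfg (Mn n))
    (hf : IsComp strict (Mn n) w T f) : T ≤ (2 * n + 1) * (w.length + 3) := by
  have key : ∀ t, t ≤ T → (f t).pos < w.length + 3 ∧
      t ≤ mu n (w.length + 3) (f t).state (f t).pos := by
    intro t
    induction t with
    | zero =>
      intro _
      rw [hf.start]
      exact ⟨by simp [init], Nat.zero_le _⟩
    | succ t ih =>
      intro ht
      obtain ⟨h1, h2⟩ := ih (by omega)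
      obtain ⟨hp, q, b, d, hd, _, hq, _, _, _, hr, hl⟩ := hf.step t (by omega)
      have h3 := mu_step n (w.length + 3) (f t).state q ((f t).tape (f t).pos) b d hd (f t).pos
        (f (t + 1)).pos (by omega) hr hl
      rw [hq]
      refine ⟨?_, by omega⟩
      cases d
      · have := hl rfl
        omega
      · have := hr rfl
        omega
  obtain ⟨h1, h2⟩ := key T le_rfl
  have := mu_le n (w.length + 3) (f T).state (f T).pos h1
  omega

end Pool.Agent.NH19.LA
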