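import Mathlib
import Pool.Agent.NH19.LA.Final
import Pool.Agent.NH19.LA.Cross

set_option autoImplicit false

/-!
Time-bounded deterministic 1-limited automata.
-/

namespace Pool.Agent.NH19.LA

open Pool.Agent.H630R2.LA Pool.Agent.R620.KV

section words

variable {V : Type} [Fintype V] [DecidableEq V]

/-- The identity relation. -/
def idl (V : Type) [Fintype V] [DecidableEq V] : List (Finset (V × V)) :=
  [Finset.univ.image fun v : V => (v, v)]

/-- All edges into `S`. -/
def wa (S : Finset V) : List (Finset (V × V)) := [Finset.univ ×ˢ S]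

/-- All edges from `S`. -/
def wb (S : Finset V) : List (Finset (V × V)) := [S ×ˢ Finset.univ]

theorem rl_pw_idl (N : ℕ) (u v : V) : Rl (pw N (idl V)) u v ↔ u = v := by
  induction N generalizing u with
  | zero => rw [pw_zero]; rfl
  | succ N ih =>
    rw [pw_succ, rl_app]
    constructor
    · rintro ⟨m, ⟨k, h1, h2⟩, h3⟩
      rw [ih] at h3
      have h4 : k = m := h2
      simp only [Finset.mem_image, Finset.mem_univ, true_and, Prod.mk.injEq] at h1
      obtain ⟨c, rfl, rfl⟩ := h1
      rw [h4, h3]
    · rintro rfl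
      refine ⟨u, ⟨u, ?_, rfl⟩, (ih u).2 rfl⟩
      simp

theorem live_wab (N : ℕ) (S T : Finset V) :
    Live (wa S ++ pw N (idl V) ++ wb T) ↔ (S ∩ T).Nonempty := by
  constructor
  · rintro ⟨u, v, h⟩
    rw [rl_app] at h
    obtain ⟨m, h1, h2⟩ := h
    rw [rl_app] at h1
    obtain ⟨k, h3, h4⟩ := h1
    rw [rl_pw_idl] at h4
    obtain ⟨l, h5, h6⟩ := h3
    obtain ⟨r, h7, h8⟩ := h2
    have e1 : l = k := h6
    simp only [Finset.mem_product, Finset.mem_univ, true_and, and_true] at h5 h7
    subst e1 h4
    exact ⟨l, Finset.mem_inter.2 ⟨h5, h7⟩⟩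
  · rintro ⟨m, hm⟩
    rw [Finset.mem_inter] at hm
    refine ⟨m, m, ?_⟩
    rw [rl_app]
    refine ⟨m, ?_, m, by simp [hm.2], rfl⟩
    rw [rl_app]
    exact ⟨m, ⟨m, by simp [hm.1], rfl⟩, (rl_pw_idl N m m).2 rfl⟩

end words

/-- The number of the indices with short values of an injective list-valued function. -/
theorem card_short {ι Q : Type} [Fintype ι] [Fintype Q] (c : ι → List Q) (hc : Function.Injective c)
    (K : ℕ) : (Finset.univ.filter fun i => (c i).length ≤ K).card ≤ (Fintype.card Q + 1) ^ K := by
  classical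
  have h1 : Fintype.card (Fin K → Option Q) = (Fintype.card Q + 1) ^ K := by
    rw [Fintype.card_fun, Fintype.card_option, Fintype.card_fin]
  rw [← h1, ← Finset.card_univ]
  refine Finset.card_le_card_of_injOn (fun i => fun k : Fin K => (c i)[k.1]?)
    (fun _ _ => Finset.mem_coe.2 (Finset.mem_univ _)) ?_
  intro i hi j hj h
  rw [Finset.mem_coe, Finset.mem_filter] at hi hj
  apply hc
  apply List.ext_getElem?
  intro k
  by_cases hk : k < K
  · exact congrFun h ⟨k, hk⟩
  · rw [List.getElem?_eq_none (by omega), List.getElem?_eq_none (by omega)]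

theorem time_lower (hz : St_zip) (hm : St_mach) (strict : Prop) (n : ℕ) (hn : 1 ≤ n)
    (M : LimAut (Ltr n)) (hd : M.Deterministic)
    (hL : M.language strict = (Mn n).language strict) (t N0 : ℕ)
    (ht : ∀ w : List (Ltr n), N0 ≤ w.length → ∀ (T : ℕ) (f : ℕ → Cfg M),
      IsComp strict M w T f → T ≤ t * w.length) :
    2 ^ (2 ^ n) < 2 * (Nat.card M.Q + 1) ^ (2 * t) := by
  classical
  by_contra hcon
  rw [not_lt] at hcon
  have hfin := M.finQ
  let _ : Fintype M.Q := Fintype.ofFinite _
  rw [Nat.card_eq_fintype_card] at hcon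
  let la : Finset (Vx n) → ℕ := fun S => (code n (wa S)).length
  let lb : Finset (Vx n) → ℕ := fun S => (code n (wb Sᶜ)).length
  let C : ℕ := ∑ S : Finset (Vx n), (la S + lb S)
  let N : ℕ := N0 + 2 * t * C + 1
  let pad := code n (pw N (idl (Vx n)))
  have hP : N ≤ pad.length := by
    have h1 : pad.length = N * (code n (idl (Vx n))).length := length_code_pw n _ N
    have h2 := length_code_pos n (idl (Vx n)) (by simp [idl])
    rw [h1]
    calc N = N * 1 := (mul_one N).symm
      _ ≤ _ := Nat.mul_le_mul_left _ h2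
  let ww : Finset (Vx n) → Finset (Vx n) → List (Ltr n) := fun S T =>
    code n (wa S) ++ pad ++ code n (wb T)
  have hww : ∀ S T, ww S T ∈ M.language strict ↔ (S ∩ T).Nonempty := by
    intro S T
    show code n (wa S) ++ code n (pw N (idl (Vx n))) ++ code n (wb T) ∈ _ ↔ _
    rw [← code_app, ← code_app, hL, hz, hm strict n hn, live_wab]
  have hlen : ∀ S, (ww S Sᶜ).length = la S + pad.length + lb S := by
    intro S
    simp only [ww, la, lb, List.length_append]
  have hbound : ∀ S, ∀ (T : ℕ) (f : ℕ → Cfg M), IsComp strict M (ww S Sᶜ) T f →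
      T ≤ t * (la S + pad.length + lb S) := by
    intro S T f hf
    have := ht (ww S Sᶜ) (by rw [hlen]; omega) T f hf
    rwa [hlen] at this
  have hmaxex : ∀ S, ∃ (T : ℕ) (f : ℕ → Cfg M), IsMax strict M (ww S Sᶜ) T f := fun S =>
    exists_max _ _ (hbound S)
  choose T f hf using hmaxex
  let c : ℕ → Finset (Vx n) → List M.Q := fun j S => cl (f S) (la S + j) (T S) 0
  have hinj : ∀ j < pad.length, Function.Injective (c j) := by
    intro j hj
    have key : ∀ S S' : Finset (Vx n), (S ∩ S'ᶜ).Nonempty → c j S ≠ c j S' := by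
      intro S S' hSS h
      have hsplit : ∀ X Y, ww X Y = (code n (wa X) ++ pad.take j) ++ (pad.drop j ++ code n (wb Y)) := by
        intro X Y
        show code n (wa X) ++ pad ++ code n (wb Y) = _
        conv_lhs => rw [← List.take_append_drop j pad]
        simp only [List.append_assoc]
      have hxl : ∀ X : Finset (Vx n), (code n (wa X) ++ pad.take j).length = la X + j := by
        intro X
        rw [List.length_append, List.length_take]
        have : min j pad.length = j := by omega
        rw [this]
      have hne : ∀ X : Finset (Vx n), (code n (wa X) ++ pad.take j) ≠ [] := by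
        intro X h
        have h1 := congrArg List.length h
        rw [List.length_append, List.length_nil] at h1
        have h2 := length_code_pos n (wa X) (by simp [wa])
        omega
      have h1 := hf S
      have h2 := hf S'
      rw [hsplit] at h1 h2
      have h3 : (code n (wa S') ++ pad.take j) ++ (pad.drop j ++ code n (wb S'ᶜ)) ∉
          M.language strict := by
        rw [← hsplit, hww]
        simp
      have h4 := paste hd (hne S) (hne S') h1 h2 h3 (by rw [hxl, hxl]; exact h)
      rw [← hsplit, hww] at h4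
      exact h4 hSS
    intro S S' h
    by_contra hne
    by_cases hs : S ⊆ S'
    · have hs' : ¬ S' ⊆ S := fun h => hne (hs.antisymm h)
      obtain ⟨v, hv, hv'⟩ := Finset.not_subset.1 hs'
      exact key S' S ⟨v, by simp [hv, hv']⟩ h.symm
    · obtain ⟨v, hv, hv'⟩ := Finset.not_subset.1 hs
      exact key S S' ⟨v, by simp [hv, hv']⟩ h
  have hV : Fintype.card (Finset (Vx n)) = 2 ^ (2 ^ n) := by
    simp [Vx]
  -- lower bound for each boundary
  have hlow : ∀ j < pad.length, (2 * t + 1) * 2 ^ (2 ^ n) ≤ 2 * ∑ S, (c j S).length := by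
    intro j hj
    have h1 := card_short (c j) (hinj j hj) (2 * t)
    have h2 := Finset.card_filter_add_card_filter_not (s := (Finset.univ : Finset (Finset (Vx n))))
      (fun S => (c j S).length ≤ 2 * t)
    rw [Finset.card_univ, hV] at h2
    have h3 : (2 * t + 1) * (Finset.univ.filter fun S => ¬ (c j S).length ≤ 2 * t).card ≤
        ∑ S, (c j S).length := by
      calc (2 * t + 1) * (Finset.univ.filter fun S => ¬ (c j S).length ≤ 2 * t).card
          = ∑ S ∈ Finset.univ.filter (fun S => ¬ (c j S).length ≤ 2 * t), (2 * t + 1) := by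
            rw [Finset.sum_const, smul_eq_mul, mul_comm]
        _ ≤ ∑ S ∈ Finset.univ.filter (fun S => ¬ (c j S).length ≤ 2 * t), (c j S).length := by
            apply Finset.sum_le_sum
            intro S hS
            rw [Finset.mem_filter] at hS
            omega
        _ ≤ ∑ S, (c j S).length :=
            Finset.sum_le_sum_of_subset (Finset.filter_subset _ _)
    have h4 : 2 ^ (2 ^ n) ≤ 2 * (Finset.univ.filter fun S => ¬ (c j S).length ≤ 2 * t).card := by
      omega
    calc (2 * t + 1) * 2 ^ (2 ^ n) ≤ (2 * t + 1) *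
          (2 * (Finset.univ.filter fun S => ¬ (c j S).length ≤ 2 * t).card) :=
          Nat.mul_le_mul_left _ h4
      _ = 2 * ((2 * t + 1) * (Finset.univ.filter fun S => ¬ (c j S).length ≤ 2 * t).card) := by
          ring
      _ ≤ _ := Nat.mul_le_mul_left _ h3
  -- upper bound
  have hup : ∑ j ∈ Finset.range pad.length, ∑ S, (c j S).length ≤
      t * (C + 2 ^ (2 ^ n) * pad.length) := by
    rw [Finset.sum_comm]
    calc ∑ S, ∑ j ∈ Finset.range pad.length, (c j S).length ≤ ∑ S, T S :=
          Finset.sum_le_sum fun S _ => sum_cl (f S) (la S) pad.length (T S) 0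
      _ ≤ ∑ S, t * (la S + pad.length + lb S) :=
          Finset.sum_le_sum fun S _ => hbound S _ _ (hf S).toIsComp
      _ = t * (C + 2 ^ (2 ^ n) * pad.length) := by
          rw [← Finset.mul_sum]
          congr 1
          have : ∀ S : Finset (Vx n), la S + pad.length + lb S = (la S + lb S) + pad.length := by
            intro S; ring
          simp only [this]
          rw [Finset.sum_add_distrib, Finset.sum_const, Finset.card_univ, hV, smul_eq_mul]
  have hsum : pad.length * ((2 * t + 1) * 2 ^ (2 ^ n)) ≤
      2 * ∑ j ∈ Finset.range pad.length, ∑ S, (c j S).length := by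
    rw [Finset.mul_sum]
    calc pad.length * ((2 * t + 1) * 2 ^ (2 ^ n)) =
          ∑ j ∈ Finset.range pad.length, (2 * t + 1) * 2 ^ (2 ^ n) := by
          rw [Finset.sum_const, Finset.card_range, smul_eq_mul]
      _ ≤ _ := Finset.sum_le_sum fun j hj => hlow j (Finset.mem_range.1 hj)
  have h5 : pad.length * 2 ^ (2 ^ n) ≤ 2 * t * C := by
    have h6 : pad.length * ((2 * t + 1) * 2 ^ (2 ^ n)) ≤
        2 * (t * (C + 2 ^ (2 ^ n) * pad.length)) := hsum.trans (Nat.mul_le_mul_left _ hup)
    nlinarith
  have h7 : pad.length * 1 ≤ pad.length * 2 ^ (2 ^ n) :=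
    Nat.mul_le_mul_left _ (Nat.one_le_two_pow)
  omega

end Pool.Agent.NH19.LA
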