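import Mathlib
import Pool.Agent.NH19.LA.Time
import Pool.Agent.R620.KV.Main

set_option autoImplicit false

/-!
Unambiguous 1-limited automata with few visits.
-/

namespace Pool.Agent.NH19.LA

open Pool.Agent.H630R2.LA Pool.Agent.R620.KV

/-- Every word has at most one accepting computation. -/
def Unambiguous (strict : Prop) {A : Type} (M : LimAut A) : Prop :=
  ∀ (w : List A) (T T' : ℕ) (f f' : ℕ → Cfg M), IsAcc strict M w T f → IsAcc strict M w T' f' →
    T = T' ∧ ∀ t, t ≤ T → f t = f' t

section paste

variable {A : Type} {strict : Prop} {M : LimAut A}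

/-- Computations with the list of the crossings of a boundary. -/
inductive PathC (strict : Prop) (M : LimAut A) (m b : ℕ) : Cfg M → List M.Q → Cfg M → Prop
  | nil (c : Cfg M) : PathC strict M m b c [] c
  | cross (c c' c'' : Cfg M) (l : List M.Q) (h : Step strict m c c')
      (hc : (c.pos = b ∧ c'.pos = b + 1) ∨ (c.pos = b + 1 ∧ c'.pos = b))
      (h' : PathC strict M m b c' l c'') : PathC strict M m b c (c'.state :: l) c''
  | stay (c c' c'' : Cfg M) (l : List M.Q) (h : Step strict m c c')
      (hc : ¬ ((c.pos = b ∧ c'.pos = b + 1) ∨ (c.pos = b + 1 ∧ c'.pos = b)))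
      (h' : PathC strict M m b c' l c'') : PathC strict M m b c l c''

theorem cl_congr {f g : ℕ → Cfg M} {b : ℕ} (k : ℕ) : ∀ τ σ,
    (∀ i, i ≤ k → f (τ + i) = g (σ + i)) → cl f b k τ = cl g b k σ := by
  classical
  induction k with
  | zero => intro τ σ _; rfl
  | succ k ih =>
    intro τ σ h
    have h0 : f τ = g σ := h 0 (by omega)
    have h1 : f (τ + 1) = g (σ + 1) := h 1 (by omega)
    have h2 : cl f b k (τ + 1) = cl g b k (σ + 1) := ih _ _ fun i hi => by
      have := h (i + 1) (by omega)
      rwa [show τ + (i + 1) = τ + 1 + i by ring, show σ + (i + 1) = σ + 1 + i by ring] at this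
    have h3 : crs f b τ ↔ crs g b σ := by
      unfold crs
      rw [h0, h1]
    simp only [cl]
    by_cases hc : crs f b τ
    · rw [if_pos hc, if_pos (h3.1 hc), h1, h2]
    · rw [if_neg hc, if_neg (fun h => hc (h3.2 h)), h2]

theorem PathC.fn {m b : ℕ} {c c' : Cfg M} {l : List M.Q} (h : PathC strict M m b c l c') :
    ∃ (U : ℕ) (g : ℕ → Cfg M), g 0 = c ∧ g U = c' ∧
      (∀ t, t < U → Step strict m (g t) (g (t + 1))) ∧ cl g b U 0 = l := by
  classical
  induction h with
  | nil c => exact ⟨0, fun _ => c, rfl, rfl, fun t ht => absurd ht (Nat.not_lt_zero _), rfl⟩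
  | cross c c' c'' l h hc h' ih =>
    obtain ⟨U, g, h1, h2, h3, h4⟩ := ih
    refine ⟨U + 1, fun t => match t with | 0 => c | t + 1 => g t, rfl, h2, ?_, ?_⟩
    · intro t ht
      cases t with
      | zero => show Step strict m c (g 0); rw [h1]; exact h
      | succ t => exact h3 t (by omega)
    · have hc' : crs (fun t => match t with | 0 => c | t + 1 => g t) b 0 := by
        show (c.pos = b ∧ (g 0).pos = b + 1) ∨ (c.pos = b + 1 ∧ (g 0).pos = b)
        rw [h1]
        exact hc
      simp only [cl]
      rw [if_pos hc']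
      have : cl (fun t => match t with | 0 => c | t + 1 => g t) b U (0 + 1) = cl g b U 0 := by
        apply cl_congr
        intro i _
        rw [show 0 + 1 + i = i + 1 by ring, show 0 + i = i by ring]
      rw [this, h4]
      show (g 0).state :: l = _
      rw [h1]
  | stay c c' c'' l h hc h' ih =>
    obtain ⟨U, g, h1, h2, h3, h4⟩ := ih
    refine ⟨U + 1, fun t => match t with | 0 => c | t + 1 => g t, rfl, h2, ?_, ?_⟩
    · intro t ht
      cases t with
      | zero => show Step strict m c (g 0); rw [h1]; exact h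
      | succ t => exact h3 t (by omega)
    · have hc' : ¬ crs (fun t => match t with | 0 => c | t + 1 => g t) b 0 := by
        show ¬ ((c.pos = b ∧ (g 0).pos = b + 1) ∨ (c.pos = b + 1 ∧ (g 0).pos = b))
        rw [h1]
        exact hc
      simp only [cl]
      rw [if_neg hc']
      have : cl (fun t => match t with | 0 => c | t + 1 => g t) b U (0 + 1) = cl g b U 0 := by
        apply cl_congr
        intro i _
        rw [show 0 + 1 + i = i + 1 by ring, show 0 + i = i by ring]
      rw [this, h4]

/-- Mixing two accepting computations. -/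
theorem syncA {b b' n n' m : ℕ} {f f' : ℕ → Cfg M} {T T' : ℕ}
    (hn : b ≤ n) (hm : m + b' = n' + b) (hbm : b ≤ m)
    (hst : ∀ t, t < T → Step strict n (f t) (f (t + 1)))
    (hst' : ∀ t, t < T' → Step strict n' (f' t) (f' (t + 1)))
    (hp : (f T).pos = n + 2) (hp' : (f' T').pos = n' + 2) (hF : (f' T').state ∈ M.F) (r : ℕ) :
    ∀ c τ τ' k k', k + k' ≤ r → τ + k = T → τ' + k' = T' →
      cl f b k τ = cl f' b' k' τ' → AgL b c (f τ) → AgR b b' c (f' τ') →
      ((c.pos ≤ b ∧ c.pos = (f τ).pos ∧ c.state = (f τ).state ∧ (f' τ').pos ≤ b') ∨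
        (∃ e, c.pos = b + 1 + e ∧ (f' τ').pos = b' + 1 + e ∧ c.state = (f' τ').state ∧
          b < (f τ).pos)) →
      ∃ c', PathC strict M m b c (cl f b k τ) c' ∧ c'.pos = m + 2 ∧ c'.state ∈ M.F := by
  classical
  induction r with
  | zero =>
    intro c τ τ' k k' hr hτ hτ' hcl hL hR h
    obtain rfl : k = 0 := by omega
    obtain rfl : k' = 0 := by omega
    obtain rfl : τ = T := by omega
    obtain rfl : τ' = T' := by omega
    rcases h with ⟨h1, h2, h3, h4⟩ | ⟨e, h1, h2, h3, h4⟩
    · omega
    · exact ⟨c, PathC.nil c, by omega, h3 ▸ hF⟩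
  | succ r ih =>
    intro c τ τ' k k' hr hτ hτ' hcl hL hR h
    rcases h with ⟨h1, h2, h3, h4⟩ | ⟨e, h1, h2, h3, h4⟩
    · -- the head is on the left side
      rcases Nat.eq_zero_or_pos k with hk | hk
      · subst hk
        obtain rfl : τ = T := by omega
        omega
      obtain ⟨k, rfl⟩ : ∃ k1, k = k1 + 1 := ⟨k - 1, by omega⟩
      obtain ⟨q1, b1, d1, hok2, he2⟩ := step_iff.1 (hst τ (by omega))
      have hloc := hL c.pos h1
      rw [h2] at hloc
      have hok' : Ok strict m c q1 b1 d1 := by
        refine ⟨by omega, ?_, ?_, ?_⟩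
        · rw [h3, h2, hloc.1]
          exact hok2.2.1
        · intro hs hseen
          rw [h2] at hseen ⊢
          rw [hloc.1]
          exact hok2.2.2.1 hs (hloc.2.1 hseen)
        · intro hd1
          rw [h2]
          exact hok2.2.2.2 hd1
      have hstep : Step strict m c (nextC c q1 b1 d1) := step_iff.2 ⟨_, _, _, hok', rfl⟩
      have hL' : AgL b (nextC c q1 b1 d1) (f (τ + 1)) := by
        rw [he2]
        exact hL.next h2 q1 b1 d1 h1
      have hR' : AgR b b' (nextC c q1 b1 d1) (f' τ') := hR.otherL q1 b1 d1 h1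
      have hst1 : (nextC c q1 b1 d1).state = (f (τ + 1)).state := by rw [he2]; rfl
      have hpos1 : (nextC c q1 b1 d1).pos = (f (τ + 1)).pos := by
        rw [he2]
        simp only [nextC, h2]
      have hnx : (f (τ + 1)).pos = (f τ).pos + 1 ∨ (f (τ + 1)).pos = (f τ).pos - 1 := by
        rw [he2]
        cases d1
        · right; simp [nextC]
        · left; simp [nextC]
      by_cases hc : crs f b τ
      · have hcl' := hcl
        simp only [cl, if_pos hc] at hcl' ⊢
        have hfst : (f (τ + 1)).pos = b + 1 := by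
          unfold crs at hc
          omega
        obtain ⟨τ2, k2, e1, hlt, e2, e3, e4, e5⟩ := advL (n := n') (f (τ + 1)).state
          (cl f b k (τ + 1)) (nextC c q1 b1 d1) k' τ' (fun t _ ht => hst' t (by omega)) h4 hR'
          hcl'.symm
        obtain ⟨c', hpath, hp1, hp2⟩ := ih (nextC c q1 b1 d1) (τ + 1) τ2 k k2 (by omega) (by omega)
          (by omega) e5.symm hL' e4 (Or.inr ⟨0, by omega, by omega, by rw [hst1, e3], by omega⟩)
        refine ⟨c', ?_, hp1, hp2⟩
        rw [← hst1]
        exact PathC.cross _ _ _ _ hstep (by rw [hpos1, h2]; exact hc) hpath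
      · have hcl' := hcl
        simp only [cl, if_neg hc] at hcl' ⊢
        obtain ⟨c', hpath, hp1, hp2⟩ := ih (nextC c q1 b1 d1) (τ + 1) τ' k k' (by omega) (by omega)
          (by omega) hcl' hL' hR' (Or.inl ⟨by
            by_contra hcon
            apply hc
            left
            omega, hpos1, hst1, h4⟩)
        exact ⟨c', PathC.stay _ _ _ _ hstep (by rw [hpos1, h2]; exact hc) hpath, hp1, hp2⟩
    · -- the head is on the right side
      rcases Nat.eq_zero_or_pos k' with hk | hk
      · subst hk
        obtain rfl : τ' = T' := by omega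
        refine ⟨c, ?_, by omega, h3 ▸ hF⟩
        rw [hcl]
        exact PathC.nil c
      obtain ⟨k', rfl⟩ : ∃ k1, k' = k1 + 1 := ⟨k' - 1, by omega⟩
      obtain ⟨q1, b1, d1, hok2, he2⟩ := step_iff.1 (hst' τ' (by omega))
      have hloc := hR e
      rw [← h1, ← h2] at hloc
      have hok' : Ok strict m c q1 b1 d1 := by
        have hp := hok2.1
        refine ⟨by omega, ?_, ?_, ?_⟩
        · rw [h3, hloc.1]
          exact hok2.2.1
        · intro hs hseen
          rw [hloc.1]
          exact hok2.2.2.1 hs (hloc.2.1 hseen)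
        · intro _
          omega
      have hstep : Step strict m c (nextC c q1 b1 d1) := step_iff.2 ⟨_, _, _, hok', rfl⟩
      have hR' : AgR b b' (nextC c q1 b1 d1) (f' (τ' + 1)) := by
        rw [he2]
        exact hR.next e h1 h2 q1 b1 d1
      have hL' : AgL b (nextC c q1 b1 d1) (f τ) := hL.otherL q1 b1 d1 (by omega)
      have hst1 : (nextC c q1 b1 d1).state = (f' (τ' + 1)).state := by rw [he2]; rfl
      have hpos1 : (nextC c q1 b1 d1).pos + b' = (f' (τ' + 1)).pos + b := by
        rw [he2]
        simp only [nextC, h1, h2]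
        split_ifs <;> omega
      have hpos2 : (f' (τ' + 1)).pos = (f' τ').pos + 1 ∨ (f' (τ' + 1)).pos = (f' τ').pos - 1 := by
        rw [he2]
        cases d1
        · right; simp [nextC]
        · left; simp [nextC]
      by_cases hc : crs f' b' τ'
      · have hcl' := hcl
        simp only [cl, if_pos hc] at hcl'
        have hfst : (f' (τ' + 1)).pos = b' ∧ (f' τ').pos = b' + 1 := by
          unfold crs at hc
          omega
        obtain ⟨τ2, k2, e1, hlt, e2, e3, e4, e5⟩ := advR (n := n) (f' (τ' + 1)).state
          (cl f' b' k' (τ' + 1)) (nextC c q1 b1 d1) k τ (fun t _ ht => hst t (by omega)) h4 hL' hcl'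
        obtain ⟨c', hpath, hp1, hp2⟩ := ih (nextC c q1 b1 d1) τ2 (τ' + 1) k2 k' (by omega)
          (by omega) (by omega) e5 e4 hR' (Or.inl ⟨by omega, by omega, by rw [hst1, e3], by omega⟩)
        refine ⟨c', ?_, hp1, hp2⟩
        rw [hcl', ← hst1, ← e5]
        exact PathC.cross _ _ _ _ hstep (by omega) hpath
      · have hcl' := hcl
        simp only [cl, if_neg hc] at hcl'
        have h5 : b' < (f' (τ' + 1)).pos := by
          by_contra hcon
          apply hc
          right
          omega
        obtain ⟨c', hpath, hp1, hp2⟩ := ih (nextC c q1 b1 d1) τ (τ' + 1) k k' (by omega) (by omega)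
          (by omega) hcl' hL' hR'
          (Or.inr ⟨(f' (τ' + 1)).pos - (b' + 1), by omega, by omega, hst1, h4⟩)
        refine ⟨c', PathC.stay _ _ _ _ hstep ?_ hpath, hp1, hp2⟩
        intro h6
        apply hc
        unfold crs
        omega

/-- Cut and paste for accepting computations. -/
theorem pasteA {x y x' y' : List A} (hx : x ≠ []) (hx' : x' ≠ [])
    {T T' : ℕ} {f f' : ℕ → Cfg M} (hf : IsAcc strict M (x ++ y) T f)
    (hf' : IsAcc strict M (x' ++ y') T' f')
    (hcl : cl f x.length T 0 = cl f' x'.length T' 0) :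
    ∃ (U : ℕ) (g : ℕ → Cfg M), IsAcc strict M (x ++ y') U g ∧
      cl g x.length U 0 = cl f x.length T 0 := by
  have hxl : 1 ≤ x.length := List.length_pos_iff.2 hx
  have hxl' : 1 ≤ x'.length := List.length_pos_iff.2 hx'
  obtain ⟨c', h1, h2, h3⟩ := syncA (strict := strict) (b := x.length) (b' := x'.length)
    (n := (x ++ y).length) (n' := (x' ++ y').length) (m := (x ++ y').length) (f := f) (f' := f')
    (T := T) (T' := T') (by simp) (by simp only [List.length_append]; omega) (by simp)
    hf.step hf'.step hf.last hf'.last hf'.final (T + T') (init M (x ++ y')) 0 0 T T' le_rfl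
    (by omega) (by omega) hcl (by
      intro i hi
      rw [hf.start]
      exact ⟨initTape_left x y' y i hi, Iff.rfl⟩) (by
      intro i
      rw [hf'.start]
      exact ⟨initTape_right x x' y' i, Iff.rfl⟩) (by
      left
      rw [hf.start, hf'.start]
      exact ⟨hxl, rfl, rfl, hxl'⟩)
  obtain ⟨U, g, g1, g2, g3, g4⟩ := h1.fn
  exact ⟨U, g, ⟨⟨g1, g3⟩, by rw [g2, h2], by rw [g2]; exact h3⟩, g4⟩

/-- The number of crossings and the number of visits. -/
theorem length_cl (f : ℕ → Cfg M) (b : ℕ) (k τ : ℕ) : (cl f b k τ).length ≤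
    ∑ i ∈ Finset.range k, ((if (f (τ + i)).pos = b then 1 else 0) +
      (if (f (τ + i + 1)).pos = b then 1 else 0)) := by
  classical
  induction k generalizing τ with
  | zero => simp [cl]
  | succ k ih =>
    rw [Finset.sum_range_succ']
    have h1 := ih (τ + 1)
    have h2 : ∑ i ∈ Finset.range k, ((if (f (τ + 1 + i)).pos = b then 1 else 0) +
        (if (f (τ + 1 + i + 1)).pos = b then 1 else 0)) =
        ∑ i ∈ Finset.range k, ((if (f (τ + (i + 1))).pos = b then 1 else 0) +
        (if (f (τ + (i + 1) + 1)).pos = b then 1 else 0)) := by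
      apply Finset.sum_congr rfl
      intro i _
      rw [show τ + (i + 1) = τ + 1 + i by ring]
    rw [h2] at h1
    by_cases hc : crs f b τ
    · have e : cl f b (k + 1) τ = (f (τ + 1)).state :: cl f b k (τ + 1) := by
        simp only [cl]
        rw [if_pos hc]
      rw [e, List.length_cons]
      have h3 : 1 ≤ (if (f (τ + 0)).pos = b then 1 else 0) +
          (if (f (τ + 0 + 1)).pos = b then 1 else 0) := by
        unfold crs at hc
        rw [Nat.add_zero]
        rcases hc with ⟨h, _⟩ | ⟨_, h⟩
        · rw [if_pos h]; exact Nat.le_add_right _ _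
        · rw [if_pos h]; exact Nat.le_add_left _ _
      exact Nat.add_le_add h1 h3
    · have e : cl f b (k + 1) τ = cl f b k (τ + 1) := by
        simp only [cl]
        rw [if_neg hc]
      rw [e]
      exact h1.trans (Nat.le_add_right _ _)

theorem length_cl_visits {w : List A} {T : ℕ} {f : ℕ → Cfg M} (hf : IsAcc strict M w T f) (b k : ℕ)
    (hb : b ≤ w.length) (hk : {t | t < T ∧ (f t).pos = b}.ncard ≤ k) :
    (cl f b T 0).length ≤ 2 * k := by
  classical
  have h1 := length_cl f b T 0
  rw [Finset.sum_add_distrib] at h1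
  simp only [Nat.zero_add] at h1
  have h2 : ∑ i ∈ Finset.range T, (if (f i).pos = b then 1 else 0) =
      {t | t < T ∧ (f t).pos = b}.ncard := by
    rw [← Finset.card_filter, ← Set.ncard_coe_finset]
    congr 1
    ext t
    simp
  have h3 : ∑ i ∈ Finset.range T, (if (f (i + 1)).pos = b then 1 else 0) ≤
      ∑ i ∈ Finset.range T, (if (f i).pos = b then 1 else 0) := by
    have h4 := Finset.sum_range_succ' (fun i => if (f i).pos = b then 1 else 0) T
    have h5 := Finset.sum_range_succ (fun i => if (f i).pos = b then 1 else 0) T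
    have h6 : (f T).pos ≠ b := by
      rw [hf.last]
      omega
    rw [if_neg h6] at h5
    omega
  omega

end paste

/-- The rank of the intersection matrix. -/
theorem rank_bound {V E : Type} [Fintype V] [DecidableEq V] [Fintype E]
    (a : Finset V → E → ℚ) (b : Finset V → E → ℚ)
    (h : ∀ S T : Finset V, ∑ e, a S e * b T e = if (S ∩ T).Nonempty then 1 else 0) :
    2 ^ Fintype.card V ≤ Fintype.card E + 1 := by
  classical
  let v : Finset V → (Option E → ℚ) := fun S o => match o with
    | none => 1
    | some e => a S e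
  have hli : LinearIndependent ℚ v := by
    rw [Fintype.linearIndependent_iff]
    intro c hc
    have h0 : ∑ S, c S = 0 := by
      have := congrFun hc none
      simpa [v] using this
    have h1 : ∀ e, ∑ S, c S * a S e = 0 := by
      intro e
      have := congrFun hc (some e)
      simpa [v] using this
    have h2 : ∀ T : Finset V, ∑ S, c S * (if (S ∩ T).Nonempty then 1 else 0) = 0 := by
      intro T
      have : ∑ S, c S * (if (S ∩ T).Nonempty then 1 else 0) =
          ∑ e, b T e * ∑ S, c S * a S e := by
        simp only [← h]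
        simp only [Finset.mul_sum]
        rw [Finset.sum_comm]
        apply Finset.sum_congr rfl
        intro e _
        apply Finset.sum_congr rfl
        intro S _
        ring
      rw [this]
      simp [h1]
    have h3 : ∀ U : Finset V, ∑ S ∈ U.powerset, c S = 0 := by
      intro U
      have h4 : ∀ S : Finset V, c S * (if (S ∩ Uᶜ).Nonempty then 1 else 0) =
          c S - (if S ⊆ U then c S else 0) := by
        intro S
        by_cases hS : S ⊆ U
        · have : ¬ (S ∩ Uᶜ).Nonempty := by
            rintro ⟨x, hx⟩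
            rw [Finset.mem_inter, Finset.mem_compl] at hx
            exact hx.2 (hS hx.1)
          rw [if_neg this, if_pos hS]
          ring
        · have : (S ∩ Uᶜ).Nonempty := by
            obtain ⟨x, hx, hx'⟩ := Finset.not_subset.1 hS
            exact ⟨x, by simp [hx, hx']⟩
          rw [if_pos this, if_neg hS]
          ring
      have h5 := h2 Uᶜ
      simp only [h4] at h5
      rw [Finset.sum_sub_distrib, h0, zero_sub, neg_eq_zero, ← Finset.sum_filter] at h5
      rw [← h5]
      apply Finset.sum_congr _ (fun _ _ => rfl)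
      ext S
      simp
    intro U
    induction U using Finset.strongInduction with
    | H U ih =>
      have h4 := h3 U
      rw [← Finset.insert_erase (Finset.mem_powerset_self U),
        Finset.sum_insert (Finset.notMem_erase _ _)] at h4
      have h5 : ∑ S ∈ U.powerset.erase U, c S = 0 := by
        apply Finset.sum_eq_zero
        intro S hS
        rw [Finset.mem_erase, Finset.mem_powerset] at hS
        exact ih S (Finset.ssubset_iff_subset_ne.2 ⟨hS.2, hS.1⟩)
      rw [h5, add_zero] at h4
      exact h4
  have h6 := hli.fintype_card_le_finrank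
  rw [Module.finrank_fintype_fun_eq_card, Fintype.card_finset, Fintype.card_option] at h6
  exact h6

theorem unamb_lower (hz : St_zip) (hm : St_mach) (strict : Prop) (n : ℕ) (hn : 1 ≤ n)
    (M : LimAut (Ltr n)) (hu : Unambiguous strict M)
    (hL : M.language strict = (Mn n).language strict) (k : ℕ) (hv : FewVisits strict k M) :
    2 ^ (2 ^ n) ≤ (Nat.card M.Q + 1) ^ (2 * k) + 1 := by
  classical
  have hfin := M.finQ
  let _ : Fintype M.Q := Fintype.ofFinite _
  rw [Nat.card_eq_fintype_card]
  let ww : Finset (Vx n) → Finset (Vx n) → List (Ltr n) := fun S T =>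
    code n (wa S) ++ code n (wb T)
  have hww : ∀ S T, ww S T ∈ M.language strict ↔ (S ∩ T).Nonempty := by
    intro S T
    show code n (wa S) ++ code n (wb T) ∈ _ ↔ _
    rw [← code_app, hL, hz, hm strict n hn]
    have := live_wab 0 S T
    rw [pw_zero, List.append_nil] at this
    exact this
  let P : Finset (Vx n) → Finset (Vx n) → List M.Q → Prop := fun S T l =>
    ∃ (U : ℕ) (g : ℕ → Cfg M), IsAcc strict M (ww S T) U g ∧ cl g (code n (wa S)).length U 0 = l
  have hne : ∀ X : Finset (Vx n), code n (wa X) ≠ [] := by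
    intro X h
    have h1 := congrArg List.length h
    rw [List.length_nil] at h1
    have h2 := length_code_pos n (wa X) (by simp [wa])
    omega
  have huniq : ∀ S T l l', P S T l → P S T l' → l = l' := by
    rintro S T l l' ⟨U, g, h1, h2⟩ ⟨U', g', h1', h2'⟩
    obtain ⟨rfl, h3⟩ := hu _ _ _ _ _ h1 h1'
    rw [← h2, ← h2']
    apply cl_congr
    intro i hi
    rw [Nat.zero_add]
    exact h3 i hi
  have hex : ∀ S T, (S ∩ T).Nonempty → ∃ l, P S T l ∧ l.length ≤ 2 * k := by
    intro S T hST
    obtain ⟨U, g, h1, h2⟩ := hv _ ((hww S T).2 hST)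
    refine ⟨_, ⟨U, g, h1, rfl⟩, length_cl_visits h1 _ _ ?_ (h2 _)⟩
    simp [ww]
  have hno : ∀ S T l, P S T l → (S ∩ T).Nonempty := by
    rintro S T l ⟨U, g, h1, _⟩
    rw [← hww]
    refine ⟨g U, ?_, h1.last, h1.final⟩
    have : ∀ t, t ≤ U → Relation.ReflTransGen (Step strict (ww S T).length)
        (init M (ww S T)) (g t) := by
      intro t
      induction t with
      | zero => intro _; rw [h1.start]
      | succ t ih => intro ht; exact (ih (by omega)).tail (h1.step t (by omega))
    exact this U le_rfl
  have hpaste : ∀ S T S' T' l, P S T' l → P S' T l → P S T l := by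
    rintro S T S' T' l ⟨U, g, h1, h2⟩ ⟨U', g', h1', h2'⟩
    obtain ⟨U'', g'', h3, h4⟩ := pasteA (hne S) (hne S') h1 h1' (h2.trans h2'.symm)
    exact ⟨U'', g'', h3, h4.trans h2⟩
  -- the code of a list
  let enc : List M.Q → (Fin (2 * k) → Option M.Q) := fun l i => l[i.1]?
  have henc : ∀ l l' : List M.Q, l.length ≤ 2 * k → l'.length ≤ 2 * k → enc l = enc l' →
      l = l' := by
    intro l l' hl hl' h
    apply List.ext_getElem?
    intro i
    by_cases hi : i < 2 * k
    · exact congrFun h ⟨i, hi⟩
    · rw [List.getElem?_eq_none (by omega), List.getElem?_eq_none (by omega)]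
  let a : Finset (Vx n) → (Fin (2 * k) → Option M.Q) → ℚ := fun S e =>
    if ∃ T l, P S T l ∧ l.length ≤ 2 * k ∧ enc l = e then 1 else 0
  let b : Finset (Vx n) → (Fin (2 * k) → Option M.Q) → ℚ := fun T e =>
    if ∃ S l, P S T l ∧ l.length ≤ 2 * k ∧ enc l = e then 1 else 0
  have key := rank_bound (V := Vx n) a b (by
    intro S T
    by_cases hST : (S ∩ T).Nonempty
    · rw [if_pos hST]
      obtain ⟨l, hl1, hl2⟩ := hex S T hST
      rw [Finset.sum_eq_single (enc l)]
      · have h1 : a S (enc l) = 1 := if_pos ⟨T, l, hl1, hl2, rfl⟩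
        have h2 : b T (enc l) = 1 := if_pos ⟨S, l, hl1, hl2, rfl⟩
        rw [h1, h2, one_mul]
      · intro e _ hne'
        by_cases h1 : ∃ T l, P S T l ∧ l.length ≤ 2 * k ∧ enc l = e
        · by_cases h2 : ∃ S l, P S T l ∧ l.length ≤ 2 * k ∧ enc l = e
          · exfalso
            obtain ⟨T', l1, h3, h4, h5⟩ := h1
            obtain ⟨S', l2, h6, h7, h8⟩ := h2
            have h9 : l1 = l2 := henc _ _ h4 h7 (h5.trans h8.symm)
            subst h9
            have h10 := hpaste S T S' T' l1 h3 h6
            have h11 := huniq S T _ _ h10 hl1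
            exact hne' (by rw [← h5, h11])
          · have : b T e = 0 := if_neg h2
            rw [this, mul_zero]
        · have : a S e = 0 := if_neg h1
          rw [this, zero_mul]
      · intro h
        exact absurd (Finset.mem_univ _) h
    · rw [if_neg hST]
      apply Finset.sum_eq_zero
      intro e _
      by_cases h1 : ∃ T l, P S T l ∧ l.length ≤ 2 * k ∧ enc l = e
      · by_cases h2 : ∃ S l, P S T l ∧ l.length ≤ 2 * k ∧ enc l = e
        · exfalso
          obtain ⟨T', l1, h3, h4, h5⟩ := h1
          obtain ⟨S', l2, h6, h7, h8⟩ := h2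
          have h9 : l1 = l2 := henc _ _ h4 h7 (h5.trans h8.symm)
          subst h9
          exact hST (hno _ _ _ (hpaste S T S' T' l1 h3 h6))
        · have : b T e = 0 := if_neg h2
          rw [this, mul_zero]
      · have : a S e = 0 := if_neg h1
        rw [this, zero_mul])
  have h1 : Fintype.card (Fin (2 * k) → Option M.Q) = (Fintype.card M.Q + 1) ^ (2 * k) := by
    rw [Fintype.card_fun, Fintype.card_option, Fintype.card_fin]
  have h2 : Fintype.card (Vx n) = 2 ^ n := by simp [Vx]
  rw [h1, h2] at key
  exact key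

end Pool.Agent.NH19.LA
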