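import Mathlib
import Pool.Agent.NH19.LA.MnTime
import Pool.Agent.NH19.LA.Unamb

set_option autoImplicit false

/-!
The number of the visits of a cell of the machine; deterministic automata are unambiguous.
-/

namespace Pool.Agent.NH19.LA

open Pool.Agent.H630R2.LA Pool.Agent.R620.KV

/-- The phase of a state. -/
def phase (n : ℕ) : St n → ℕ
  | .s0 => 0
  | .s1 => 0
  | .s2 => 0
  | .rew j => 2 * j.val + 1
  | .pas j _ => 2 * j.val + 2
  | .acc => 2 * n

theorem phase_le (n : ℕ) (q : St n) : phase n q < 2 * n + 1 := by
  rcases q with _ | _ | _ | j | ⟨j, r⟩ | _ <;> simp only [phase]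
  · omega
  · omega
  · omega
  · have := j.isLt; omega
  · have := j.isLt; omega
  · omega

/-- The potential as a function of the phase. -/
def mu2 (k N x : ℕ) : ℕ := if k % 2 = 1 then k * N + (N - x) else k * N + x

theorem mu_phase (n N : ℕ) (q : St n) (x : ℕ) : mu n N q x = mu2 (phase n q) N x := by
  rcases q with _ | _ | _ | j | ⟨j, r⟩ | _
  · show x = mu2 0 N x
    simp [mu2]
  · show x = mu2 0 N x
    simp [mu2]
  · show x = mu2 0 N x
    simp [mu2]
  · show 2 * (j.val * N) + N + (N - x) = mu2 (2 * j.val + 1) N x
    unfold mu2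
    rw [if_pos (by omega)]
    have : (2 * j.val + 1) * N = 2 * (j.val * N) + N := by ring
    omega
  · show 2 * (j.val * N) + 2 * N + x = mu2 (2 * j.val + 2) N x
    unfold mu2
    rw [if_neg (by omega)]
    ring
  · show 2 * (n * N) + x = mu2 (2 * n) N x
    unfold mu2
    rw [if_neg (by omega)]
    ring

theorem visits_Mn (strict : Prop) (n : ℕ) (w : List (Ltr n)) (T : ℕ) (f : ℕ → Cfg (Mn n))
    (hf : IsComp strict (Mn n) w T f) (i : ℕ) :
    {t | t < T ∧ (f t).pos = i}.ncard ≤ 2 * n + 1 := by
  have hpos : ∀ t, t ≤ T → (f t).pos < w.length + 3 := by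
    intro t
    induction t with
    | zero => intro _; rw [hf.start]; simp [init]
    | succ t ih =>
      intro ht
      have h1 := ih (by omega)
      obtain ⟨hp, q, b, d, hd, _, hq, _, _, _, hr, hl⟩ := hf.step t (by omega)
      cases d
      · have := hl rfl
        omega
      · have := hr rfl
        omega
  have hmono : ∀ k t, t + k + 1 ≤ T → mu n (w.length + 3) (f t).state (f t).pos <
      mu n (w.length + 3) (f (t + k + 1)).state (f (t + k + 1)).pos := by
    intro k
    induction k with
    | zero =>
      intro t ht
      obtain ⟨hp, q, b, d, hd, _, hq, _, _, _, hr, hl⟩ := hf.step t (by omega)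
      have h3 := mu_step n (w.length + 3) (f t).state q ((f t).tape (f t).pos) b d hd (f t).pos
        (f (t + 1)).pos (by omega) hr hl
      rw [show t + 0 + 1 = t + 1 by ring, hq]
      omega
    | succ k ih =>
      intro t ht
      have h1 := ih t (by omega)
      obtain ⟨hp, q, b, d, hd, _, hq, _, _, _, hr, hl⟩ := hf.step (t + k + 1) (by omega)
      have h3 := mu_step n (w.length + 3) (f (t + k + 1)).state q
        ((f (t + k + 1)).tape (f (t + k + 1)).pos) b d hd (f (t + k + 1)).pos
        (f (t + k + 1 + 1)).pos (by omega) hr hl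
      rw [show t + (k + 1) + 1 = t + k + 1 + 1 by ring, hq]
      omega
  have hinj : Set.InjOn (fun t => phase n (f t).state) {t | t < T ∧ (f t).pos = i} := by
    have key : ∀ t t', t < t' → t' < T → (f t).pos = i → (f t').pos = i →
        phase n (f t).state ≠ phase n (f t').state := by
      intro t t' h1 h2 h3 h4 h5
      have h6 := hmono (t' - t - 1) t (by omega)
      rw [show t + (t' - t - 1) + 1 = t' by omega] at h6
      have e1 : mu n (w.length + 3) (f t).state (f t).pos =
          mu2 (phase n (f t).state) (w.length + 3) (f t).pos := mu_phase n _ _ _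
      have e2 : mu n (w.length + 3) (f t').state (f t').pos =
          mu2 (phase n (f t').state) (w.length + 3) (f t').pos := mu_phase n _ _ _
      have e3 : mu2 (phase n (f t).state) (w.length + 3) (f t).pos =
          mu2 (phase n (f t').state) (w.length + 3) (f t').pos := by
        rw [h3, h4]
        exact congrArg (fun k => mu2 k (w.length + 3) i) h5
      omega
    rintro t ⟨h1, h2⟩ t' ⟨h3, h4⟩ h5
    rcases Nat.lt_trichotomy t t' with h | h | h
    · exact absurd h5 (key t t' h h3 h2 h4)
    · exact h
    · exact absurd h5.symm (key t' t h h1 h4 h2)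
  have h1 : {t | t < T ∧ (f t).pos = i}.ncard ≤ (Set.Iio (2 * n + 1)).ncard :=
    Set.ncard_le_ncard_of_injOn _ (fun t _ => phase_le n _) hinj (Set.finite_Iio _)
  have h2 : (Set.Iio (2 * n + 1)).ncard = 2 * n + 1 := by
    rw [← Finset.coe_range, Set.ncard_coe_finset, Finset.card_range]
  rwa [h2] at h1

theorem unamb_of_det {A : Type} (strict : Prop) (M : LimAut A) (hd : M.Deterministic) :
    Unambiguous strict M := by
  intro w T T' f f' hf hf'
  have key : ∀ t, t ≤ T → t ≤ T' → f t = f' t := by
    intro t
    induction t with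
    | zero => intro _ _; rw [hf.start, hf'.start]
    | succ t ih =>
      intro h1 h2
      have h3 := ih (by omega) (by omega)
      obtain ⟨q, b, d, hok, he⟩ := step_iff.1 (hf.step t (by omega))
      obtain ⟨q', b', d', hok', he'⟩ := step_iff.1 (hf'.step t (by omega))
      rw [← h3] at hok' he'
      have heq : (q, b, d) = (q', b', d') := hd _ _ hok.2.1 hok'.2.1
      simp only [Prod.mk.injEq] at heq
      obtain ⟨rfl, rfl, rfl⟩ := heq
      rw [he, he']
  have hT : T = T' := by
    rcases Nat.lt_trichotomy T T' with h | h | h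
    · have h1 := (hf'.step T h).1
      rw [← key T le_rfl (by omega), hf.last] at h1
      omega
    · exact h
    · have h1 := (hf.step T' h).1
      rw [key T' (by omega) le_rfl, hf'.last] at h1
      omega
  exact ⟨hT, fun t ht => key t ht (by omega)⟩

end Pool.Agent.NH19.LA
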