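import Mathlib
import Pool.Agent.NH19.LA.Stm

set_option autoImplicit false

/-!
Project LA: straight passages and simulation (LA-2).
-/

namespace Pool.Agent.NH19.LA

open Pool.Agent.H630R2.LA Pool.Agent.R620.KV

namespace Sim

variable {A : Type} {strict : Prop} {M : LimAut A}

theorem fp_append (c1 c2 : List (Cell M)) (q : M.Q) :
    fp strict M (c1 ++ c2) q = (fp strict M c1 q).bind fun x =>
      (fp strict M c2 x.1).map fun y => (y.1, x.2 ++ y.2) := by
  induction c1 generalizing q with
  | nil =>
    simp only [List.nil_append, fp, Option.bind_some]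
    cases fp strict M c2 q <;> rfl
  | cons c cs ih =>
    simp only [List.cons_append, fp]
    cases h : nxt strict M true q c with
    | none => simp
    | some x =>
      simp only [Option.bind_some, ih]
      cases h2 : fp strict M cs x.1 with
      | none => simp
      | some y =>
        simp only [Option.bind_some, Option.map_some]
        cases h3 : fp strict M c2 y.1 with
        | none => simp
        | some z => simp

theorem bp_append (c1 c2 : List (Cell M)) (q : M.Q) :
    bp strict M (c1 ++ c2) q = (bp strict M c2 q).bind fun q' => bp strict M c1 q' := by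
  induction c1 generalizing q with
  | nil =>
    simp only [List.nil_append, bp]
    cases bp strict M c2 q <;> rfl
  | cons c cs ih =>
    simp only [List.cons_append, bp, ih]
    cases h : bp strict M c2 q with
    | none => simp
    | some x => simp

theorem cstep_unique (hd : M.Deterministic) {q : M.Q} {c : Cell M} {q1 q2 : M.Q} {c1 c2 : Cell M}
    {d1 d2 : Bool} (h1 : cstep strict M q c q1 c1 d1) (h2 : cstep strict M q c q2 c2 d2) :
    q1 = q2 ∧ c1 = c2 ∧ d1 = d2 := by
  obtain ⟨b1, m1, _, e1⟩ := h1
  obtain ⟨b2, m2, _, e2⟩ := h2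
  have h := hd q c.1 m1 m2
  rw [Prod.mk.injEq, Prod.mk.injEq] at h
  obtain ⟨h3, h4, h5⟩ := h
  subst h3 h4 h5
  exact ⟨rfl, by rw [e1, e2], rfl⟩

theorem nxt_of_cstep (hd : M.Deterministic) {q : M.Q} {c : Cell M} {q' : M.Q} {c' : Cell M}
    {d : Bool} (h : cstep strict M q c q' c' d) : nxt strict M d q c = some (q', c') := by
  have hex : ∃ x : M.Q × Cell M, cstep strict M q c x.1 x.2 d := ⟨(q', c'), h⟩
  unfold nxt
  rw [dif_pos hex]
  have h2 := cstep_unique hd hex.choose_spec h
  rw [Option.some_inj]
  exact Prod.ext h2.1 h2.2.1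

theorem cstep_of_nxt {q : M.Q} {c : Cell M} {x : M.Q × Cell M} {d : Bool}
    (h : nxt strict M d q c = some x) : cstep strict M q c x.1 x.2 d := by
  unfold nxt at h
  split_ifs at h with hex
  rw [Option.some_inj] at h
  rw [← h]
  exact hex.choose_spec

theorem cstep_vis {q : M.Q} {c : Cell M} {q' : M.Q} {c' : Cell M} {d : Bool}
    (h : cstep strict M q c q' c' d) : c'.2 = true := by
  obtain ⟨b, _, _, e⟩ := h
  rw [e]

theorem cstep_same {q : M.Q} {c : Cell M} {q' : M.Q} {c' : Cell M} {d : Bool}
    (h : cstep strict M q c q' c' d) (hc : c.2 = true) : c' = c := by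
  obtain ⟨b, _, _, e⟩ := h
  rw [e, if_pos hc]
  exact Prod.ext rfl hc.symm

/-- a straight passage to the right, inverted -/
theorem fp_cons_some {c : Cell M} {cs : List (Cell M)} {q : M.Q} {z : M.Q × List (Cell M)}
    (h : fp strict M (c :: cs) q = some z) : ∃ (x : M.Q × Cell M) (y : M.Q × List (Cell M)),
      cstep strict M q c x.1 x.2 true ∧
      fp strict M cs x.1 = some y ∧ z = (y.1, x.2 :: y.2) := by
  simp only [fp] at h
  cases h1 : nxt strict M true q c with
  | none => rw [h1] at h; simp at h
  | some x =>
    rw [h1] at h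
    simp only [Option.bind_some] at h
    cases h2 : fp strict M cs x.1 with
    | none => rw [h2] at h; simp at h
    | some y =>
      rw [h2] at h
      simp only [Option.map_some, Option.some_inj] at h
      exact ⟨x, y, cstep_of_nxt h1, h2, h.symm⟩

theorem fp_len {cs : List (Cell M)} {q : M.Q} {z : M.Q × List (Cell M)}
    (h : fp strict M cs q = some z) : z.2.length = cs.length ∧ ∀ c ∈ z.2, c.2 = true := by
  induction cs generalizing q z with
  | nil =>
    simp only [fp, Option.some_inj] at h
    subst h
    simp
  | cons c cs ih =>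
    obtain ⟨x, y, h1, h2, h3⟩ := fp_cons_some h
    obtain ⟨h4, h5⟩ := ih h2
    subst h3
    refine ⟨by simp [h4], ?_⟩
    intro c' hc'
    rcases List.mem_cons.mp hc' with h6 | h6
    · rw [h6]
      exact cstep_vis h1
    · exact h5 c' h6

theorem fp_vis {cs : List (Cell M)} {q : M.Q} {z : M.Q × List (Cell M)}
    (hv : ∀ c ∈ cs, c.2 = true) (h : fp strict M cs q = some z) : z.2 = cs := by
  induction cs generalizing q z with
  | nil =>
    simp only [fp, Option.some_inj] at h
    subst h
    rfl
  | cons c cs ih =>
    obtain ⟨x, y, h1, h2, h3⟩ := fp_cons_some h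
    have h4 := ih (fun c' hc' => hv c' (List.mem_cons_of_mem _ hc')) h2
    have h5 := cstep_same h1 (hv c List.mem_cons_self)
    subst h3
    simp only
    rw [h4, h5]

/-- a straight passage to the right is part of an accepting computation -/
theorem Z_right {cs : List (Cell M)} {L R : List (Cell M)} {q : M.Q} {z : M.Q × List (Cell M)}
    (h : fp strict M cs q = some z) (h' : ZAcc strict M (z.2.reverse ++ L) z.1 R) :
    ZAcc strict M L q (cs ++ R) := by
  induction cs generalizing q z L with
  | nil =>
    simp only [fp, Option.some_inj] at h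
    subst h
    simpa using h'
  | cons c cs ih =>
    obtain ⟨x, y, h1, h2, h3⟩ := fp_cons_some h
    subst h3
    refine ZAcc.rt L q c (cs ++ R) x.1 x.2 h1 (ih h2 ?_)
    simpa using h'

/-- the head goes to the left over the boundary between `L` and `R` -/
def goL (strict : Prop) (M : LimAut A) (L : List (Cell M)) (q : M.Q) (R : List (Cell M)) : Prop :=
  ∃ l L', L = l :: L' ∧ ZAcc strict M L' q (l :: R)

/-- the same with a computation that has no turns in `S` -/
def goLF (strict : Prop) (M : LimAut A) (S : Set ℕ) (k : ℕ) (L : List (Cell M)) (q : M.Q)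
    (R : List (Cell M)) : Prop :=
  ∃ l L', L = l :: L' ∧ FAcc strict M S k false L' q (l :: R)

theorem Z_left {cs : List (Cell M)} (hv : ∀ c ∈ cs, c.2 = true) {L R : List (Cell M)}
    {q q' : M.Q} (h : bp strict M cs q = some q') (h' : goL strict M L q' (cs ++ R)) :
    goL strict M (cs.reverse ++ L) q R := by
  induction cs generalizing q' L with
  | nil =>
    simp only [bp, Option.some_inj] at h
    subst h
    simpa using h'
  | cons c cs ih =>
    simp only [bp] at h
    cases h1 : bp strict M cs q with
    | none => rw [h1] at h; simp at h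
    | some q'' =>
      rw [h1] at h
      simp only [Option.bind_some] at h
      cases h2 : nxt strict M false q'' c with
      | none => rw [h2] at h; simp at h
      | some x =>
        rw [h2] at h
        simp only [Option.map_some, Option.some_inj] at h
        have h3 := cstep_of_nxt h2
        have h4 := cstep_same h3 (hv c List.mem_cons_self)
        rw [h4, h] at h3
        have h5 : goL strict M (c :: L) q'' (cs ++ R) := by
          obtain ⟨l, L', rfl, h6⟩ := h'
          exact ⟨c, l :: L', rfl, ZAcc.lt l L' q'' c (cs ++ R) q' c h3 h6⟩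
        have h6 := ih (fun c' hc' => hv c' (List.mem_cons_of_mem _ hc')) h1 h5
        simpa using h6

theorem F_right (hd : M.Deterministic) {S : Set ℕ} {cs : List (Cell M)} {k : ℕ}
    {L R : List (Cell M)} {q : M.Q} (hS : ∀ i, L.length ≤ i → i < L.length + cs.length → i ∈ S)
    (h : FAcc strict M S k true L q (cs ++ R)) :
    ∃ z k', fp strict M cs q = some z ∧ k' + cs.length = k ∧
      FAcc strict M S k' true (z.2.reverse ++ L) z.1 R := by
  induction cs generalizing q L k with
  | nil => exact ⟨(q, []), k, rfl, by simp, by simpa using h⟩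
  | cons c cs ih =>
    cases k with
    | zero => simp [FAcc] at h
    | succ k =>
      simp only [FAcc] at h
      obtain ⟨c0, R', e, q', c', d', h1, h2, h3⟩ := h
      rw [List.cons_append, List.cons.injEq] at e
      obtain ⟨e1, e2⟩ := e
      subst e1 e2
      have hd' := h2 (hS _ le_rfl (by simp))
      subst hd'
      rcases h3 with ⟨_, h3⟩ | ⟨h3, _⟩
      · obtain ⟨z, k', h4, h5, h6⟩ := ih (L := c' :: L) (q := q') (k := k)
          (fun i hi1 hi2 => hS i (by simp at hi1; omega) (by simp at hi2 ⊢; omega)) h3
        refine ⟨(z.1, c' :: z.2), k', ?_, by simp; omega, by simpa using h6⟩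
        simp only [fp, nxt_of_cstep hd h1, Option.bind_some, h4, Option.map_some]
      · exact absurd h3 (by simp)

theorem F_left (hd : M.Deterministic) {S : Set ℕ} {cs : List (Cell M)} {k : ℕ}
    (hv : ∀ c ∈ cs, c.2 = true)
    {L R : List (Cell M)} {q : M.Q} (hS : ∀ i, L.length ≤ i → i < L.length + cs.length → i ∈ S)
    (h : goLF strict M S k (cs.reverse ++ L) q R) :
    ∃ q' k', bp strict M cs q = some q' ∧ k' + cs.length = k ∧
      goLF strict M S k' L q' (cs ++ R) := by
  induction cs generalizing L with
  | nil => exact ⟨q, k, rfl, by simp, by simpa using h⟩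
  | cons c cs ih =>
    have h0 : goLF strict M S k (cs.reverse ++ (c :: L)) q R := by simpa using h
    obtain ⟨q'', k'', h1, h2, h3⟩ := ih (fun c' hc' => hv c' (List.mem_cons_of_mem _ hc'))
      (fun i hi1 hi2 => hS i (by simp at hi1; omega) (by simp at hi2 ⊢; omega)) h0
    obtain ⟨l, L', e, h4⟩ := h3
    rw [List.cons.injEq] at e
    obtain ⟨e1, e2⟩ := e
    subst e1 e2
    cases k'' with
    | zero => simp [FAcc] at h4
    | succ k'' =>
      simp only [FAcc] at h4
      obtain ⟨c0, R', e, q', c', d', h5, h6, h7⟩ := h4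
      rw [List.cons.injEq] at e
      obtain ⟨e1, e2⟩ := e
      subst e1 e2
      have hd' := h6 (hS _ le_rfl (by simp))
      subst hd'
      rcases h7 with ⟨h7, _⟩ | ⟨_, l, L', e, h7⟩
      · exact absurd h7 (by simp)
      · have h8 := cstep_same h5 (hv c List.mem_cons_self)
        subst h8
        refine ⟨q', k'', ?_, by simp; omega, ⟨l, L', e, by simpa using h7⟩⟩
        simp only [bp, h1, Option.bind_some, nxt_of_cstep hd h5, Option.map_some]

/-- corresponding contents of the cells of `x1` and of `x2` after the first passage -/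
def RV (strict : Prop) (M : LimAut A) (x1 x2 : List A) (m1 m2 : List (Cell M)) : Prop :=
  ∃ p q0, fp strict M (x1.map (fr M)) p = some (q0, m1) ∧
    fp strict M (x2.map (fr M)) p = some (q0, m2)

/-- corresponding contents -/
def RU (strict : Prop) (M : LimAut A) (x1 x2 : List A) (m1 m2 : List (Cell M)) : Prop :=
  (m1 = x1.map (fr M) ∧ m2 = x2.map (fr M)) ∨ RV strict M x1 x2 m1 m2

section main

variable {x1 x2 : List A}

theorem RU.len {m1 m2 : List (Cell M)} (h : RU strict M x1 x2 m1 m2) : m1.length = x1.length := by
  rcases h with ⟨h, _⟩ | ⟨p, q0, h, _⟩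
  · rw [h, List.length_map]
  · have := (fp_len h).1
    simpa using this

theorem K1 (hpd : ∀ p, pd strict M x1 p = pd strict M x2 p)
    (hpf : ∀ p q, pf strict M x1 p q = pf strict M x2 p q) {m1 m2 : List (Cell M)}
    (h : RU strict M x1 x2 m1 m2) {q : M.Q} {z : M.Q × List (Cell M)}
    (hz : fp strict M m1 q = some z) :
    ∃ c2, fp strict M m2 q = some (z.1, c2) ∧ RV strict M x1 x2 z.2 c2 := by
  rcases h with ⟨h1, h2⟩ | ⟨p, q0, h1, h2⟩
  · subst h1 h2
    have h3 := hpd (some q)
    simp only [pd, Option.bind_some, hz, Option.map_some] at h3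
    cases h4 : fp strict M (x2.map (fr M)) q with
    | none => rw [h4] at h3; simp at h3
    | some y =>
      rw [h4] at h3
      simp only [Option.map_some, Option.some_inj] at h3
      refine ⟨y.2, by rw [h3], q, z.1, by rw [hz], by rw [h4, h3]⟩
  · have h3 := hpf (some p) (some q)
    simp only [pf, Option.bind_some, h1, h2, hz, Option.map_some] at h3
    cases h4 : fp strict M m2 q with
    | none => rw [h4] at h3; simp at h3
    | some y =>
      rw [h4] at h3
      simp only [Option.map_some, Option.some_inj] at h3
      have h5 : z.2 = m1 := fp_vis (fp_len h1).2 hz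
      refine ⟨y.2, by rw [h3], ?_⟩
      have h6 : y.2 = m2 := fp_vis (fp_len h2).2 h4
      rw [h5, h6]
      exact ⟨p, q0, h1, h2⟩

theorem K2 (hpg : ∀ p q, pg strict M x1 p q = pg strict M x2 p q) {m1 m2 : List (Cell M)}
    (h : RV strict M x1 x2 m1 m2) (q : M.Q) : bp strict M m1 q = bp strict M m2 q := by
  obtain ⟨p, q0, h1, h2⟩ := h
  have h3 := hpg (some p) (some q)
  simpa only [pg, Option.bind_some, h1, h2] using h3

theorem RV.vis1 {m1 m2 : List (Cell M)} (h : RV strict M x1 x2 m1 m2) : ∀ c ∈ m1, c.2 = true := by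
  obtain ⟨p, q0, h1, h2⟩ := h
  exact (fp_len h1).2

theorem RV.vis2 {m1 m2 : List (Cell M)} (h : RV strict M x1 x2 m1 m2) : ∀ c ∈ m2, c.2 = true := by
  obtain ⟨p, q0, h1, h2⟩ := h
  exact (fp_len h2).2

/-- the head enters the cells of the word from the left -/
theorem enter (hd : M.Deterministic) (hpd : ∀ p, pd strict M x1 p = pd strict M x2 p)
    (hpf : ∀ p q, pf strict M x1 p q = pf strict M x2 p q) {a k : ℕ}
    {m1 m2 : List (Cell M)} (h : RU strict M x1 x2 m1 m2)
    {L R : List (Cell M)} {q : M.Q} (hL : L.length = a + 1)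
    (hb : ∀ k', k' + x1.length = k → ∀ (d : Bool) (L2 L1 : List (Cell M)) (q : M.Q)
      (R : List (Cell M)) (m1 m2 : List (Cell M)), RV strict M x1 x2 m1 m2 → L1.length = a + 1 →
      FAcc strict M (Set.Ico (a + 1) (a + 1 + x1.length)) k' d (L2 ++ (m1.reverse ++ L1)) q R →
      ZAcc strict M (L2 ++ (m2.reverse ++ L1)) q R)
    (hF : FAcc strict M (Set.Ico (a + 1) (a + 1 + x1.length)) k true L q (m1 ++ R)) :
    ZAcc strict M L q (m2 ++ R) := by
  have hl := h.len
  obtain ⟨z, k', h1, h2, h3⟩ := F_right hd (S := Set.Ico (a + 1) (a + 1 + x1.length))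
    (fun i hi1 hi2 => ⟨by omega, by omega⟩) hF
  obtain ⟨c2, h4, h5⟩ := K1 hpd hpf h h1
  refine Z_right h4 ?_
  exact hb k' (by omega) true [] L z.1 R z.2 c2 h5 hL h3

theorem main (hd : M.Deterministic) (hx : x1 ≠ []) (hpd : ∀ p, pd strict M x1 p = pd strict M x2 p)
    (hpf : ∀ p q, pf strict M x1 p q = pf strict M x2 p q)
    (hpg : ∀ p q, pg strict M x1 p q = pg strict M x2 p q) (a : ℕ) (k : ℕ) :
    (∀ (d : Bool) (L : List (Cell M)) (q : M.Q) (R1 R2 m1 m2 : List (Cell M)),
      RU strict M x1 x2 m1 m2 → R1 ≠ [] → L.length + R1.length = a + 1 →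
      FAcc strict M (Set.Ico (a + 1) (a + 1 + x1.length)) k d L q (R1 ++ (m1 ++ R2)) →
      ZAcc strict M L q (R1 ++ (m2 ++ R2))) ∧
    (∀ (d : Bool) (L2 L1 : List (Cell M)) (q : M.Q)
      (R : List (Cell M)) (m1 m2 : List (Cell M)), RV strict M x1 x2 m1 m2 → L1.length = a + 1 →
      FAcc strict M (Set.Ico (a + 1) (a + 1 + x1.length)) k d (L2 ++ (m1.reverse ++ L1)) q R →
      ZAcc strict M (L2 ++ (m2.reverse ++ L1)) q R) := by
  have hx1 : 1 ≤ x1.length := by
    cases x1 with
    | nil => exact absurd rfl hx
    | cons c x => simp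
  induction k using Nat.strong_induction_on with
  | _ k ih =>
  constructor
  · intro d L q R1 R2 m1 m2 hm hR1 hlen hF
    obtain ⟨c, R1', rfl⟩ := List.exists_cons_of_ne_nil hR1
    cases k with
    | zero => simp [FAcc] at hF
    | succ k =>
      simp only [FAcc] at hF
      obtain ⟨c0, R', e, q', c', d', h1, _, h3⟩ := hF
      rw [List.cons_append, List.cons.injEq] at e
      obtain ⟨e1, e2⟩ := e
      subst e1 e2
      rcases h3 with ⟨hd', h3⟩ | ⟨hd', l, L', e, h3⟩
      · subst hd'
        refine ZAcc.rt L q c _ q' c' h1 ?_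
        rcases List.eq_nil_or_concat R1' with hR | ⟨R1'', c'', hR⟩
        · subst hR
          simp only [List.nil_append] at h3 ⊢
          refine enter hd hpd hpf hm (a := a) (k := k) (by simpa using hlen) ?_ h3
          intro k' hk'
          exact (ih k' (by omega)).2
        · refine (ih k (by omega)).1 true (c' :: L) q' R1' R2 m1 m2 hm ?_ ?_ h3
          · rw [hR]; simp
          · simp at hlen ⊢; omega
      · subst hd' e
        refine ZAcc.lt l L' q c _ q' c' h1 ?_
        have h4 := (ih k (by omega)).1 false L' q' (l :: c' :: R1') R2 m1 m2 hm (by simp)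
          (by simp at hlen ⊢; omega) (by simpa using h3)
        simpa using h4
  · intro d L2 L1 q R m1 m2 hm hL1 hF
    have hl := RU.len (Or.inr hm : RU strict M x1 x2 m1 m2)
    cases k with
    | zero =>
      simp only [FAcc] at hF
      rw [hF.1]
      exact ZAcc.fin _ q hF.2
    | succ k =>
      simp only [FAcc] at hF
      obtain ⟨c, R', e, q', c', d', h1, _, h3⟩ := hF
      subst e
      rcases h3 with ⟨hd', h3⟩ | ⟨hd', l, L', e, h3⟩
      · subst hd'
        refine ZAcc.rt _ q c R' q' c' h1 ?_
        exact (ih k (by omega)).2 true (c' :: L2) L1 q' R' m1 m2 hm hL1 h3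
      · subst hd'
        cases L2 with
        | cons l0 L2 =>
          rw [List.cons_append, List.cons.injEq] at e
          obtain ⟨e1, e2⟩ := e
          subst e1 e2
          exact ZAcc.lt l0 _ q c R' q' c' h1
            ((ih k (by omega)).2 false L2 L1 q' (l0 :: c' :: R') m1 m2 hm hL1 h3)
        | nil =>
          rw [List.nil_append] at e ⊢
          obtain ⟨q'', k', h4, h5, h6⟩ := F_left hd
            (S := Set.Ico (a + 1) (a + 1 + x1.length)) (k := k) hm.vis1 (L := L1)
            (R := c' :: R') (q := q') (fun i hi1 hi2 => ⟨by omega, by omega⟩) ⟨l, L', e, h3⟩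
          obtain ⟨l1, L1', e1, h7⟩ := h6
          have h8 : ZAcc strict M L1' q'' ([l1] ++ (m2 ++ (c' :: R'))) :=
            (ih k' (by omega)).1 false L1' q'' [l1] (c' :: R') m1 m2 (Or.inr hm) (by simp)
              (by rw [e1] at hL1; simpa using hL1) (by simpa using h7)
          have h9 : goL strict M (m2.reverse ++ L1) q' (c' :: R') := by
            refine Z_left hm.vis2 (q' := q'') ?_ ⟨l1, L1', e1, by simpa using h8⟩
            rw [← K2 hpg hm, h4]
          obtain ⟨l2, L2', e2, h10⟩ := h9
          rw [e2]
          exact ZAcc.lt l2 L2' q c R' q' c' h1 h10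

end main

end Sim

theorem pass_laws : St_pass := by
  intro strict A M x y p q
  cases p with
  | none => simp [pd, pf, pg]
  | some p =>
    simp only [pd, pf, pg, List.map_append, Sim.fp_append, Option.bind_some]
    cases h : fp strict M (x.map (fr M)) p with
    | none => simp
    | some u =>
      simp only [Option.bind_some, Option.map_some]
      cases h2 : fp strict M (y.map (fr M)) u.1 with
      | none => simp
      | some v =>
        simp only [Option.map_some, Option.bind_some]
        cases q with
        | none => simp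
        | some q =>
          simp only [Option.bind_some, Sim.fp_append, Sim.bp_append]
          cases h3 : fp strict M u.2 q with
          | none => simp
          | some w =>
            simp only [Option.bind_some, Option.map_some]
            cases h4 : fp strict M v.2 w.1 with
            | none => simp
            | some t => simp

theorem sim : St_sim := by
  intro strict A M hd u x1 x2 v T hx hpd hpf hpg hF
  have hm : Sim.RU strict M x1 x2 (x1.map (fr M)) (x2.map (fr M)) := Or.inl ⟨rfl, rfl⟩
  have hF' : FAcc strict M (Set.Ico (u.length + 1) (u.length + 1 + x1.length)) T true (iniL M)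
      M.q0 (u.map (fr M) ++ (x1.map (fr M) ++ iniR M v)) := by
    have : iniR M (u ++ x1 ++ v) = u.map (fr M) ++ (x1.map (fr M) ++ iniR M v) := by
      unfold iniR
      simp
    rw [← this]
    exact hF
  have e2 : iniR M (u ++ x2 ++ v) = u.map (fr M) ++ (x2.map (fr M) ++ iniR M v) := by
    unfold iniR
    simp
  rw [e2]
  cases u with
  | nil =>
    simp only [List.map_nil, List.nil_append, List.length_nil] at hF' ⊢
    refine Sim.enter hd hpd hpf hm (a := 0) (k := T) (by simp [iniL]) ?_ hF'
    intro k' _
    exact (Sim.main hd hx hpd hpf hpg 0 k').2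
  | cons a u =>
    exact (Sim.main hd hx hpd hpf hpg (a :: u).length T).1 true (iniL M) M.q0
      ((a :: u).map (fr M)) (iniR M v) _ _ hm (by simp) (by simp [iniL]; omega) hF'

end Pool.Agent.NH19.LA
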