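import Mathlib
import Pool.Agent.NH19.LA.Stm

set_option autoImplicit false

/-!
# Project LA, jobs LA-1 and LA-1b: zipper form of the computations (helper50)
-/

namespace Pool.Agent.NH19.LA

open Pool.Agent.H630R2.LA Pool.Agent.R620.KV

namespace Zip

variable {A : Type} {M : LimAut A}

open Classical in
/-- the cell `i` of a configuration -/
noncomputable def cell (c : Cfg M) (i : ℕ) : Cell M := (c.tape i, decide (i ∈ c.seen))

/-- the cells from the head on -/
noncomputable def zR (n : ℕ) (c : Cfg M) : List (Cell M) :=
  (List.range' c.pos (n + 2 - c.pos)).map (cell c)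

/-- the cells to the left of the head -/
noncomputable def zL (c : Cfg M) : List (Cell M) := ((List.range c.pos).map (cell c)).reverse

theorem zL_length (c : Cfg M) : (zL c).length = c.pos := by
  unfold zL
  simp

theorem zR_cons (n : ℕ) (c : Cfg M) (h : c.pos ≤ n + 1) :
    zR n c = cell c c.pos :: (List.range' (c.pos + 1) (n + 1 - c.pos)).map (cell c) := by
  unfold zR
  have e : n + 2 - c.pos = (n + 1 - c.pos) + 1 := by omega
  rw [e, List.range'_succ, List.map_cons]

theorem zR_nil (n : ℕ) (c : Cfg M) (h : c.pos = n + 2) : zR n c = [] := by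
  unfold zR
  rw [h, Nat.sub_self]
  rfl

theorem pos_of_nil (n : ℕ) (c : Cfg M) (h : zR n c = []) : n + 2 ≤ c.pos := by
  by_contra hc
  rw [zR_cons n c (by omega)] at h
  exact absurd h (List.cons_ne_nil _ _)

theorem map_congr_range' (f g : ℕ → Cell M) (s k : ℕ) (h : ∀ i, s ≤ i → f i = g i) :
    (List.range' s k).map f = (List.range' s k).map g := by
  refine List.map_congr_left fun i hi => ?_
  rw [List.mem_range'_1] at hi
  exact h i hi.1

theorem map_congr_range (f g : ℕ → Cell M) (k : ℕ) (h : ∀ i, i < k → f i = g i) :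
    (List.range k).map f = (List.range k).map g := by
  refine List.map_congr_left fun i hi => ?_
  rw [List.mem_range] at hi
  exact h i hi

/-- the effect of a move on the zippers -/
theorem move (n : ℕ) (c c' : Cfg M) (c1 : Cell M) (hp : c.pos ≤ n + 1)
    (h0 : ∀ i, i ≠ c.pos → cell c' i = cell c i) (h1 : cell c' c.pos = c1) :
    (c'.pos = c.pos + 1 → zL c' = c1 :: zL c ∧
      zR n c' = (List.range' (c.pos + 1) (n + 1 - c.pos)).map (cell c)) ∧
    (c'.pos + 1 = c.pos → ∃ l, zL c = l :: zL c' ∧
      zR n c' = l :: c1 :: (List.range' (c.pos + 1) (n + 1 - c.pos)).map (cell c)) := by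
  constructor
  · intro h
    constructor
    · unfold zL
      rw [h, List.range_succ, List.map_append, List.reverse_append, List.map_singleton,
        List.reverse_singleton, h1, map_congr_range (cell c') (cell c) c.pos
          (fun i hi => h0 i hi.ne)]
      rfl
    · unfold zR
      rw [h, map_congr_range' (cell c') (cell c) _ _ (fun i hi => h0 i (by omega))]
      congr 2
      omega
  · intro h
    refine ⟨cell c c'.pos, ?_, ?_⟩
    · unfold zL
      rw [← h, List.range_succ, List.map_append, List.reverse_append, List.map_singleton,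
        List.reverse_singleton, map_congr_range (cell c') (cell c) c'.pos
          (fun i hi => h0 i (by omega))]
      rfl
    · rw [zR_cons n c' (by omega)]
      have e : n + 1 - c'.pos = (n + 1 - c.pos) + 1 := by omega
      rw [e, List.range'_succ, List.map_cons, h0 c'.pos (by omega), h, h1,
        map_congr_range' (cell c') (cell c) _ _ (fun i hi => h0 i (by omega))]

/-- a step gives a zipper step -/
theorem of_step (strict : Prop) (n : ℕ) (c c' : Cfg M) (h : Step strict n c c') :
    ∃ c0 R' c1 d, zR n c = c0 :: R' ∧ cstep strict M c.state c0 c'.state c1 d ∧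
      ((d = true ∧ c'.pos = c.pos + 1 ∧ zL c' = c1 :: zL c ∧ zR n c' = R') ∨
        (d = false ∧ c'.pos + 1 = c.pos ∧ ∃ l, zL c = l :: zL c' ∧ zR n c' = l :: c1 :: R')) := by
  classical
  obtain ⟨hp, q, b, d, h1, h2, h3, h4, h5, h6, h7, h8⟩ := h
  have hne : ∀ i, i ≠ c.pos → cell c' i = cell c i := by
    intro i hi
    unfold cell
    have e1 : c'.tape i = c.tape i := by
      by_cases hs : c.pos ∈ c.seen
      · rw [h4 hs]
      · rw [h5 hs, Function.update_of_ne hi]
    have e2 : i ∈ c'.seen ↔ i ∈ c.seen := by
      rw [h6, Set.mem_insert_iff]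
      exact ⟨fun h => h.resolve_left hi, Or.inr⟩
    rw [e1]
    simp only [e2]
  have hself : cell c' c.pos =
      (if (cell c c.pos).2 = true then (cell c c.pos).1 else (cell c c.pos).1.rewrite b, true) := by
    have e2 : c.pos ∈ c'.seen := by
      rw [h6]
      exact Set.mem_insert _ _
    unfold cell
    simp only [decide_eq_true_eq, e2, Prod.mk.injEq, and_true, decide_true]
    by_cases hs : c.pos ∈ c.seen
    · rw [if_pos hs, h4 hs]
    · rw [if_neg hs, h5 hs, Function.update_self]
  obtain ⟨m1, m2⟩ := move n c c' _ hp hne hself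
  refine ⟨cell c c.pos, _, _, d, zR_cons n c hp, ⟨b, ?_, ?_, rfl⟩, ?_⟩
  · rw [h3]
    exact h1
  · intro hs hv
    refine h2 hs ?_
    unfold cell at hv
    exact of_decide_eq_true hv
  · cases d
    · exact Or.inr ⟨rfl, h8 rfl, m2 (h8 rfl)⟩
    · exact Or.inl ⟨rfl, h7 rfl, m1 (h7 rfl)⟩

/-- a zipper step gives a step -/
theorem to_step (strict : Prop) (n : ℕ) (c : Cfg M) (q' : M.Q) (c1 : Cell M) (d : Bool) (p' : ℕ)
    (hp : c.pos ≤ n + 1) (h : cstep strict M c.state (cell c c.pos) q' c1 d)
    (hd : (d = true → p' = c.pos + 1) ∧ (d = false → p' + 1 = c.pos)) :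
    ∃ c' : Cfg M, Step strict n c c' ∧ c'.state = q' ∧ c'.pos = p' ∧
      (∀ i, i ≠ c.pos → cell c' i = cell c i) ∧ cell c' c.pos = c1 := by
  classical
  obtain ⟨b, h1, h2, h3⟩ := h
  have hv : (cell c c.pos).2 = true ↔ c.pos ∈ c.seen := by
    unfold cell
    simp
  refine ⟨⟨q', p', if c.pos ∈ c.seen then c.tape else
    Function.update c.tape c.pos ((c.tape c.pos).rewrite b), insert c.pos c.seen⟩,
    ⟨hp, q', b, d, h1, ?_, rfl, ?_, ?_, rfl, hd.1, hd.2⟩, rfl, rfl, ?_, ?_⟩
  · intro hs hv'
    exact h2 hs (hv.2 hv')
  · intro hs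
    exact if_pos hs
  · intro hs
    exact if_neg hs
  · intro i hi
    unfold cell
    have e2 : i ∈ insert c.pos c.seen ↔ i ∈ c.seen := by
      rw [Set.mem_insert_iff]
      exact ⟨fun h => h.resolve_left hi, Or.inr⟩
    simp only [e2, Prod.mk.injEq, and_true]
    split_ifs
    · rfl
    · rw [Function.update_of_ne hi]
  · rw [h3]
    by_cases hs : c.pos ∈ c.seen
    · rw [if_pos (hv.2 hs)]
      unfold cell
      simp [hs]
    · rw [if_neg (fun h => hs (hv.1 h))]
      unfold cell
      simp [hs]

theorem zL_init (w : List A) : zL (init M w) = iniL M := by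
  unfold zL init iniL
  simp only [List.range_one, List.map_singleton, List.reverse_singleton]
  unfold cell
  simp [initTape]

theorem zR_init (w : List A) : zR w.length (init M w) = iniR M w := by
  classical
  have hcell : ∀ i, cell (init M w) i = (initTape M w i, false) := by
    intro i
    unfold cell init
    simp
  unfold zR iniR
  have e1 : (init M w).pos = 1 := rfl
  rw [e1]
  have e2 : w.length + 2 - 1 = w.length + 1 := rfl
  rw [e2, List.range'_eq_map_range, List.map_map, List.range_succ, List.map_append]
  congr 1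
  · refine List.ext_getElem (by simp) fun i h1 h2 => ?_
    simp only [List.length_map] at h2
    simp only [List.getElem_map, List.getElem_range, Function.comp_apply, hcell]
    unfold fr
    rw [add_comm 1 i]
    simp only [initTape, List.getElem?_eq_getElem h2]
  · simp only [List.map_singleton, Function.comp_apply, hcell]
    rw [add_comm 1]
    simp [initTape]

/-- from the zipper to the configurations -/
theorem of_ZAcc (strict : Prop) (n : ℕ) {L : List (Cell M)} {q : M.Q} {R : List (Cell M)}
    (h : ZAcc strict M L q R) : ∀ c : Cfg M, c.pos ≤ n + 2 → zL c = L → c.state = q →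
    zR n c = R → ∃ c' : Cfg M, Relation.ReflTransGen (Step strict n) c c' ∧ c'.pos = n + 2 ∧
      c'.state ∈ M.F := by
  induction h with
  | fin L q hq =>
    intro c hc _ h2 h3
    refine ⟨c, Relation.ReflTransGen.refl, le_antisymm hc (pos_of_nil n c h3), ?_⟩
    rw [h2]
    exact hq
  | rt L q c0 R q' c1 hs _ ih =>
    intro c hc h1 h2 h3
    have hp : c.pos ≤ n + 1 := by
      by_contra hcon
      rw [zR_nil n c (by omega)] at h3
      exact absurd h3.symm (List.cons_ne_nil _ _)
    rw [zR_cons n c hp] at h3
    injection h3 with h4 h5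
    rw [← h2, ← h4] at hs
    obtain ⟨c', k1, k2, k3, k4, k5⟩ := to_step strict n c q' c1 true (c.pos + 1) hp hs
      ⟨fun _ => rfl, fun h => absurd h (by decide)⟩
    obtain ⟨m1, _⟩ := move n c c' c1 hp k4 k5
    obtain ⟨m3, m4⟩ := m1 k3
    obtain ⟨c'', j1, j2, j3⟩ := ih c' (by omega) (by rw [m3, h1]) k2 (by rw [m4, h5])
    exact ⟨c'', Relation.ReflTransGen.head k1 j1, j2, j3⟩
  | lt l L q c0 R q' c1 hs _ ih =>
    intro c hc h1 h2 h3
    have hp : c.pos ≤ n + 1 := by
      by_contra hcon
      rw [zR_nil n c (by omega)] at h3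
      exact absurd h3.symm (List.cons_ne_nil _ _)
    have hlen := zL_length c
    rw [h1, List.length_cons] at hlen
    rw [zR_cons n c hp] at h3
    injection h3 with h4 h5
    rw [← h2, ← h4] at hs
    obtain ⟨c', k1, k2, k3, k4, k5⟩ := to_step strict n c q' c1 false L.length hp hs
      ⟨fun h => absurd h (by decide), fun _ => hlen⟩
    obtain ⟨_, m2⟩ := move n c c' c1 hp k4 k5
    obtain ⟨l', m3, m4⟩ := m2 (by rw [k3]; exact hlen)
    rw [h1] at m3
    injection m3 with m5 m6
    obtain ⟨c'', j1, j2, j3⟩ := ih c' (by omega) m6.symm k2 (by rw [m4, m5, h5])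
    exact ⟨c'', Relation.ReflTransGen.head k1 j1, j2, j3⟩

end Zip

open Zip

/-- LA-1 -/
theorem zip_iff : St_zip := by
  intro strict A M w
  constructor
  · rintro ⟨c, h1, h2, h3⟩
    rw [← zL_init (M := M) w, ← zR_init (M := M) w]
    have key : ∀ a : Cfg M, Relation.ReflTransGen (Step strict w.length) a c →
        ZAcc strict M (zL a) a.state (zR w.length a) := by
     intro a h1
     induction h1 using Relation.ReflTransGen.head_induction_on with
     | refl =>
      rw [zR_nil w.length c h2]
      exact ZAcc.fin _ _ h3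
     | head hs _ ih =>
      rename_i a b _
      obtain ⟨c0, R', c1, d, k1, k2, k3⟩ := of_step strict w.length a b hs
      rw [k1]
      rcases k3 with ⟨hd, _, m1, m2⟩ | ⟨hd, _, l, m1, m2⟩
      · subst hd
        rw [m1, m2] at ih
        exact ZAcc.rt _ _ _ _ _ _ k2 ih
      · subst hd
        rw [m2] at ih
        rw [m1]
        exact ZAcc.lt _ _ _ _ _ _ _ k2 ih
    exact key (init M w) h1
  · intro h
    exact of_ZAcc strict w.length h (init M w) (by show 1 ≤ _; omega) (zL_init w) rfl (zR_init w)

/-- LA-1b -/
theorem zip_F : St_zipF := by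
  intro strict A M w T f S hf hS hT
  obtain ⟨dir, hdir⟩ : ∃ dir : ℕ → Bool, ∀ t, dir t = (if t = 0 then true else
      decide ((f t).pos = (f (t - 1)).pos + 1)) := ⟨_, fun t => rfl⟩
  have key : ∀ k t, t + k = T → FAcc strict M S k (dir t) (zL (f t)) (f t).state
      (zR w.length (f t)) := by
    intro k
    induction k with
    | zero =>
      intro t ht
      rw [add_zero] at ht
      subst ht
      exact ⟨zR_nil _ _ hf.last, hf.final⟩
    | succ k ih =>
      intro t ht
      obtain ⟨c0, R', c1, d, k1, k2, k3⟩ := of_step strict w.length (f t) (f (t + 1))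
        (hf.step t (by omega))
      have ih' := ih (t + 1) (by omega)
      have hd1 : dir (t + 1) = d := by
        rw [hdir, if_neg (Nat.succ_ne_zero t), Nat.add_sub_cancel]
        rcases k3 with ⟨hd, hp, _⟩ | ⟨hd, hp, _⟩
        · rw [hd, hp]
          simp
        · rw [hd]
          refine decide_eq_false ?_
          omega
      refine ⟨c0, R', k1, (f (t + 1)).state, c1, d, k2, ?_, ?_⟩
      · rw [zL_length]
        intro hmem
        rcases Nat.eq_zero_or_pos t with h0 | h0
        · subst h0
          rw [hf.start] at hmem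
          exact absurd hmem hS
        · by_contra hne
          obtain ⟨s, rfl⟩ : ∃ s, t = s + 1 := ⟨t - 1, by omega⟩
          have hds : dir (s + 1) = decide ((f (s + 1)).pos = (f s).pos + 1) := by
            rw [hdir, if_neg (Nat.succ_ne_zero s), Nat.add_sub_cancel]
          have hps := pos_succ hf.toIsComp (t := s) (by omega)
          refine hT s (by omega) ?_ hmem
          show (f (s + 1 + 1)).pos = (f s).pos
          rcases k3 with ⟨hd, hp, _⟩ | ⟨hd, hp, _⟩
          · rw [hd, hds] at hne
            have h5 : ¬ (f (s + 1)).pos = (f s).pos + 1 := by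
              intro h
              apply hne
              rw [decide_eq_true h]
            omega
          · rw [hd, hds] at hne
            have h5 : (f (s + 1)).pos = (f s).pos + 1 := by
              by_contra h
              apply hne
              rw [decide_eq_false h]
            omega
      · rw [hd1] at ih'
        rcases k3 with ⟨hd, _, m1, m2⟩ | ⟨hd, _, l, m1, m2⟩
        · left
          rw [hd, m1, m2] at ih'
          exact ⟨hd, ih'⟩
        · right
          rw [hd, m2] at ih'
          exact ⟨hd, l, _, m1, ih'⟩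
  have h := key T 0 (by omega)
  rw [hdir, if_pos rfl, hf.start, zL_init, zR_init] at h
  exact h

end Pool.Agent.NH19.LA
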