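import Pool.Agent.NH19.LA.Zip

/-! The theorem `zip_F : St_zipF` is in `Pool.Agent.NH19.LA.Zip`. -/
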